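import Pool.Agent.Lib.MP_3d6d95_lc.Level

/-!
A white pair of a decided gadget is dead: Seeker wins by leaving it white.
-/

namespace Pool.Agent.Lib.MP_3d6d95_lc

variable {τ : Hist → Pair → Bool}

/-! Congruence away from the apex -/

section away

variable {X Y : Gr} {c : ℕ} (hXY : ∀ u w, u ≠ c → w ≠ c → adj X u w → adj Y u w)

include hXY

theorem hub_away {h : Fin 12 → ℕ} (hh : ∀ i, h i ≠ c) {u : ℕ} (hu : u ≠ c) :
    hub X h u ⊆ hub Y h u := fun i hi => hXY _ _ hu (hh i) hi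

theorem valid_away {h : Fin 12 → ℕ} (hh : ∀ i, h i ≠ c) {v : ℕ → ℕ} {k : ℕ}
    (V : Valid X c h v k) : Valid Y c h v k := by
  refine ⟨V.r1, V.r2, fun i => hXY _ _ V.r1 (hh i) (V.r3 i), fun j hj => ?_⟩
  obtain ⟨h1, h2, h3⟩ := V.step j hj
  have hvj : v j ≠ c := by
    rcases Nat.eq_zero_or_pos j with rfl | hpos
    · exact V.r1
    · obtain ⟨l, rfl⟩ : ∃ l, j = l + 1 := ⟨j - 1, by omega⟩
      exact (V.step l (by omega)).2.1.1
  exact ⟨hXY _ _ hvj h2.1 h1, h2, ok_mono (hub_away hXY hh h2.1) h3⟩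

end away

theorem Valid.ne_apex {X : Gr} {c : ℕ} {h : Fin 12 → ℕ} {v : ℕ → ℕ} {k : ℕ}
    (V : Valid X c h v k) : ∀ j ≤ k, v j ≠ c := by
  intro j hj
  rcases Nat.eq_zero_or_pos j with rfl | hpos
  · exact V.r1
  · obtain ⟨l, rfl⟩ : ∃ l, j = l + 1 := ⟨j - 1, by omega⟩
    exact (V.step l (by omega)).2.1.1

theorem Valid.ne_hub {X : Gr} {c : ℕ} {h : Fin 12 → ℕ} {v : ℕ → ℕ} {k : ℕ}
    (V : Valid X c h v k) : ∀ j ≤ k, ∀ i, v j ≠ h i := by
  intro j hj
  rcases Nat.eq_zero_or_pos j with rfl | hpos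
  · exact V.r2
  · obtain ⟨l, rfl⟩ : ∃ l, j = l + 1 := ⟨j - 1, by omega⟩
    exact (V.step l (by omega)).2.1.2.1

theorem Valid.ne_of_lt {X : Gr} {c : ℕ} {h : Fin 12 → ℕ} {v : ℕ → ℕ} {k : ℕ}
    (V : Valid X c h v k) : ∀ j ≤ k, ∀ i < j, v j ≠ v i := by
  intro j hj i hi
  obtain ⟨l, rfl⟩ : ∃ l, j = l + 1 := ⟨j - 1, by omega⟩
  exact (V.step l (by omega)).2.1.2.2 i (by omega)

section away2

variable {X Y : Gr} {c : ℕ} (hXY : ∀ u w, u ≠ c → w ≠ c → adj X u w → adj Y u w)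

include hXY

theorem over_away {h : Fin 12 → ℕ} (hh : ∀ i, h i ≠ c) (H : Over X c h) : Over Y c h := by
  rcases H with ⟨r, r', h1, h2, h3, h4, h5, h6, h7⟩ | ⟨v, k, V, ⟨u, h1, h2, h3⟩ | ⟨u, u', h1, h2, h3, h4, h5⟩⟩
  · exact Or.inl ⟨r, r', h1, h2, h3, h4, h5, fun i => hXY _ _ h2 (hh i) (h6 i),
      fun i => hXY _ _ h3 (hh i) (h7 i)⟩
  · exact Or.inr ⟨v, k, valid_away hXY hh V, Or.inl ⟨u, h1,
      hXY _ _ (V.ne_apex k le_rfl) h1.1 h2, hi_mono (hub_away hXY hh h1.1) h3⟩⟩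
  · exact Or.inr ⟨v, k, valid_away hXY hh V, Or.inr ⟨u, u', h1, h2, h3,
      hXY _ _ (V.ne_apex k le_rfl) h2.1 h4, hXY _ _ (V.ne_apex k le_rfl) h3.1 h5⟩⟩

theorem full_away {h : Fin 12 → ℕ} (hh : ∀ i, h i ≠ c) {v : ℕ → ℕ} {z : ℕ → Fin 5}
    {b : ℕ → Bool} (F : Full X c h v z b) : Full Y c h v z b :=
  ⟨fun k => valid_away hXY hh (F.1 k), fun k => mt_mono (hub_away hXY hh
    ((F.1 (26 + k)).ne_apex _ le_rfl)) (F.2 k)⟩

end away2

/-! Facts about runs through a base position -/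

section run

variable {p0 : List Pair} {c : ℕ} {T : Finset ℕ} {q : ℕ → Pair} {n0 : ℕ}

theorem Base.run_nkill (B : Base τ p0 c T) (hq : Function.Injective q) (h0 : p0 <:+ pos q n0) :
    ¬ NN (greens q (cc τ q)) c := by
  intro h
  obtain ⟨M, hM⟩ := nn_compact h
  obtain ⟨m, hm, hm2⟩ := greens_restr (τ := τ) (q := q) M n0
  exact B.nkill _ (h0.trans (pos_suffix hm)) (pos_nodup hq m) (hM.mono hm2)

theorem Base.run_nover (B : Base τ p0 c T) (hq : Function.Injective q) (h0 : p0 <:+ pos q n0)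
    {h : Fin 12 → ℕ} (hi : Function.Injective h) (hr : Set.range h = (T : Set ℕ)) :
    ¬ Over (greens q (cc τ q)) c h := by
  intro h'
  obtain ⟨M, hM⟩ := over_compact h'
  obtain ⟨m, hm, hm2⟩ := greens_restr (τ := τ) (q := q) M n0
  exact B.nover _ (h0.trans (pos_suffix hm)) (pos_nodup hq m) h hi hr (hM.mono hm2)

theorem Base.run_red (B : Base τ p0 c T) (hq : Function.Injective q) (h0 : p0 <:+ pos q n0)
    {w : ℕ} (hw : adj (reds τ q) c w) : w ∈ T := by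
  obtain ⟨n, hn, h⟩ := reds_nbrs (τ := τ) (q := q) (a := c) {w} (by simpa using hw) n0
  exact B.red_only _ (h0.trans (pos_suffix hn)) (pos_nodup hq n) w (h w (by simp))

theorem Base.run_T (B : Base τ p0 c T) (hq : Function.Injective q) (h0 : p0 <:+ pos q n0)
    {w : ℕ} (hw : w ∈ T) : ¬ adj (greens q (cc τ q) ∪ whites q) c w :=
  not_adj_union hq (adj_mono (red_mono h0) (B.redT w hw))

theorem Base.range_eq (B : Base τ p0 c T) (hq : Function.Injective q) (h0 : p0 <:+ pos q n0)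
    {h : Fin 12 → ℕ} (hi : Function.Injective h)
    (hcov : ∀ u, u ≠ c → (∀ i, u ≠ h i) → adj (greens q (cc τ q) ∪ whites q) c u) :
    Set.range h = (T : Set ℕ) := by
  classical
  have h1 : T ⊆ Finset.univ.image h := by
    intro w hw
    by_contra hne
    refine B.run_T hq h0 hw (hcov w (adj_ne (B.redT w hw)).symm (fun i hi => hne ?_))
    rw [Finset.mem_image]
    exact ⟨i, Finset.mem_univ _, hi.symm⟩
  have h2 : (Finset.univ.image h).card ≤ T.card := by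
    rw [Finset.card_image_of_injective _ hi, B.card]; simp
  have h3 := Finset.eq_of_subset_of_card_le h1 h2
  ext w
  rw [h3]
  simp

theorem Base.hub_ne (B : Base τ p0 c T) {h : Fin 12 → ℕ} (hr : Set.range h = (T : Set ℕ)) :
    ∀ i, h i ≠ c := by
  intro i
  have : h i ∈ (T : Set ℕ) := by rw [← hr]; exact ⟨i, rfl⟩
  exact (adj_ne (B.redT _ this)).symm

/-- In a run leaving only a pair at the apex white, the green graph is fully labelled. -/
theorem Base.urun_full (B : Base τ p0 c T) (hP : Plaus τ) (hq : Function.Injective q)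
    (h0 : p0 <:+ pos q n0) {y : ℕ} (hcy : c ≠ y) (hw : whites q = {pr c y hcy}) :
    ∃ h v z b, Function.Injective h ∧ Set.range h = (T : Set ℕ) ∧
      Full (greens q (cc τ q)) c h v z b := by
  obtain ⟨A, _, hA⟩ := hP q hq (by rw [hw]; exact Set.singleton_nonempty _)
  have haway : ∀ u w, u ≠ c → w ≠ c → adj (greens q (cc τ q) ∪ whites q) u w →
      adj (greens q (cc τ q)) u w := by
    intro u w hu hw' h
    rw [hw] at h
    rcases adj_union_single (a := c) (b := y) rfl h with h | h | h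
    · exact h
    · exact absurd h.1 hu
    · exact absurd h.2 hw'
  rcases hA c with h | ⟨h, h1, h2, h3, h4⟩
  · exfalso
    rw [hw] at h
    exact B.run_nkill hq h0 (nn_union_single (b := y) rfl h)
  · have hr := B.range_eq hq h0 h1 h3
    rcases h4 with ⟨i, hi⟩ | h4 | ⟨v, z, b, _, h6⟩
    · exfalso
      have : h i ∈ (T : Set ℕ) := by rw [← hr]; exact ⟨i, rfl⟩
      exact B.run_T hq h0 this hi
    · exact absurd (over_away haway h2 h4) (B.run_nover hq h0 h1 hr)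
    · exact ⟨h, v, z, b, h1, hr, full_away haway h2 h6⟩

end run

structure Base2 (τ : Hist → Pair → Bool) (p0 : List Pair) (c : ℕ) (T : Finset ℕ) (y : ℕ) :
    Prop where
  base : Base τ p0 c T
  kill : ∀ a, a ≠ c → NN (grn τ p0) a
  cy : c ≠ y
  w0 : pr c y cy ∉ p0

theorem Base.up {p0 p1 : List Pair} {c : ℕ} {T : Finset ℕ} (B : Base τ p0 c T)
    (h : p0 <:+ p1) (hnd : p1.Nodup) : Base τ p1 c T :=
  ⟨hnd, B.card, fun w hw => adj_mono (red_mono h) (B.redT w hw),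
    fun p hp => B.red_only p (h.trans hp), fun p hp => B.nkill p (h.trans hp),
    fun p hp => B.nover p (h.trans hp)⟩

theorem not_mem_pos_of_white {q : ℕ → Pair} {e : Pair} (hw : whites q = {e}) (n : ℕ) :
    e ∉ pos q n := by
  intro h
  obtain ⟨m, _, hm⟩ := mem_pos.1 h
  have : e ∈ whites q := by rw [hw]; exact Set.mem_singleton _
  exact this m hm

theorem exists_base2 (hP : Plaus τ) {p0 : List Pair} {c : ℕ} {T : Finset ℕ}
    (B : Base τ p0 c T) : ∃ p1 y, Base2 τ p1 c T y := by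
  obtain ⟨y, _, hcy, hy⟩ := exists_fresh p0 c 0
  obtain ⟨q, hq, ⟨n0, hn0⟩, hw⟩ := run_single B.nd hy
  have h0 : p0 <:+ pos q n0 := by rw [hn0]
  obtain ⟨h, v, z, b, h1, h2, F⟩ := B.urun_full hP hq h0 hcy hw
  have V := F.1 5
  obtain ⟨M1, hM1⟩ := exists_bound_seq v 5
  obtain ⟨n, hn, hsub⟩ := greens_restr (τ := τ) (q := q) (M1 + c + 1) n0
  have hadj : ∀ j ≤ 5, v j ≠ y → adj (grn τ (pos q n)) c (v j) := by
    intro j hj hjy
    refine adj_mono hsub (adj_restr ?_ (by omega) (by have := hM1 j hj; omega))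
    have hne : c ≠ v j := (V.ne_apex j hj).symm
    rw [adj_iff_pr hne]
    have hmem : pr c (v j) hne ∈ greens q (cc τ q) ∪ whites q := by
      rw [mem_union_iff hq]
      intro m hm
      have := B.run_red hq h0 (w := v j) ((adj_iff_pr hne).2 ⟨m, hm⟩)
      have h3 : v j ∈ Set.range h := by rw [h2]; exact this
      obtain ⟨i, hi⟩ := h3
      exact V.ne_hub j hj i hi.symm
    rcases hmem with h3 | h3
    · exact h3
    · rw [hw, Set.mem_singleton_iff, pr_eq_iff] at h3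
      omega
  have hadj2 : ∀ j < 5, adj (grn τ (pos q n)) (v j) (v (j + 1)) := by
    intro j hj
    exact adj_mono hsub (adj_restr (V.step j hj).1 (by have := hM1 j (by omega); omega)
      (by have := hM1 (j + 1) (by omega); omega))
  have hb : p0 <:+ pos q n := h0.trans (pos_suffix hn)
  refine ⟨pos q n, y, B.up hb (pos_nodup hq n), fun a ha => ?_, hcy, not_mem_pos_of_white hw n⟩
  have hv : ∀ i j, i ≤ 5 → j ≤ 5 → i ≠ j → v i ≠ v j := by
    intro i j hi hj hij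
    rcases lt_or_gt_of_ne hij with h | h
    · exact (V.ne_of_lt j hj i h).symm
    · exact V.ne_of_lt i hi j h
  have key : ∀ j, j < 5 → v j ≠ y → v (j + 1) ≠ y → v j ≠ a → v (j + 1) ≠ a →
      NN (grn τ (pos q n)) a := fun j hj e1 e2 e3 e4 =>
    ⟨c, v j, v (j + 1), ha.symm, e3, e4, hadj j (by omega) e1, hadj2 j hj,
      hadj (j + 1) (by omega) e2⟩
  by_cases g0 : v 0 ≠ y ∧ v 1 ≠ y ∧ v 0 ≠ a ∧ v 1 ≠ a
  · exact key 0 (by omega) g0.1 g0.2.1 g0.2.2.1 g0.2.2.2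
  by_cases g2 : v 2 ≠ y ∧ v 3 ≠ y ∧ v 2 ≠ a ∧ v 3 ≠ a
  · exact key 2 (by omega) g2.1 g2.2.1 g2.2.2.1 g2.2.2.2
  by_cases g4 : v 4 ≠ y ∧ v 5 ≠ y ∧ v 4 ≠ a ∧ v 5 ≠ a
  · exact key 4 (by omega) g4.1 g4.2.1 g4.2.2.1 g4.2.2.2
  exfalso
  have pick : ∀ j, ¬ (v j ≠ y ∧ v (j + 1) ≠ y ∧ v j ≠ a ∧ v (j + 1) ≠ a) →
      ∃ i, (i = j ∨ i = j + 1) ∧ (v i = y ∨ v i = a) := by
    intro j hj
    by_cases e1 : v j = y
    · exact ⟨j, Or.inl rfl, Or.inl e1⟩
    by_cases e2 : v (j + 1) = y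
    · exact ⟨j + 1, Or.inr rfl, Or.inl e2⟩
    by_cases e3 : v j = a
    · exact ⟨j, Or.inl rfl, Or.inr e3⟩
    by_cases e4 : v (j + 1) = a
    · exact ⟨j + 1, Or.inr rfl, Or.inr e4⟩
    exact absurd ⟨e1, e2, e3, e4⟩ hj
  obtain ⟨i0, hi0, k0⟩ := pick 0 g0
  obtain ⟨i2, hi2, k2⟩ := pick 2 g2
  obtain ⟨i4, hi4, k4⟩ := pick 4 g4
  have n02 : v i0 ≠ v i2 := hv i0 i2 (by omega) (by omega) (by omega)
  have n04 : v i0 ≠ v i4 := hv i0 i4 (by omega) (by omega) (by omega)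
  have n24 : v i2 ≠ v i4 := hv i2 i4 (by omega) (by omega) (by omega)
  rcases k0 with k0 | k0 <;> rcases k2 with k2 | k2 <;> rcases k4 with k4 | k4
  · exact n02 (k0.trans k2.symm)
  · exact n02 (k0.trans k2.symm)
  · exact n04 (k0.trans k4.symm)
  · exact n24 (k2.trans k4.symm)
  · exact n24 (k2.trans k4.symm)
  · exact n04 (k0.trans k4.symm)
  · exact n02 (k0.trans k2.symm)
  · exact n02 (k0.trans k2.symm)

end Pool.Agent.Lib.MP_3d6d95_lc
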