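import Pool.Agent.Lib.MP_3d6d95_lc.Dead

/-!
A white pair of a decided gadget is dead: Seeker wins by leaving it white.
-/

namespace Pool.Agent.Lib.MP_3d6d95_lc

variable {τ : Hist → Pair → Bool}

theorem allowed_cl (K : ℕ) (i : Fin 5) : allowed K (cl K i) := Or.inl ⟨i, rfl⟩

theorem not_allowed_succ (K : ℕ) (i : Fin 5) : ¬ allowed (K + 1) (cl K i) := by
  have h1 : ((cl K i : Fin 12) : ℕ) = 5 * (K % 2) + i := rfl
  have h2 := i.2
  rintro (⟨j, hj⟩ | ⟨hp, h10⟩)
  · have h3 : ((cl (K + 1) j : Fin 12) : ℕ) = 5 * ((K + 1) % 2) + j := rfl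
    have h4 := congrArg Fin.val hj
    have h5 := j.2
    omega
  · omega

theorem not_allowed_pred (K : ℕ) (i : Fin 5) : ¬ allowed K (cl (K + 1) i) := by
  have h1 : ((cl (K + 1) i : Fin 12) : ℕ) = 5 * ((K + 1) % 2) + i := rfl
  have h2 := i.2
  rintro (⟨j, hj⟩ | ⟨hp, h10⟩)
  · have h3 : ((cl K j : Fin 12) : ℕ) = 5 * (K % 2) + j := rfl
    have h4 := congrArg Fin.val hj
    have h5 := j.2
    omega
  · omega

/-- A triangle using the extra pair. -/
theorem nn_single {X : Gr} {e : Pair} {a b c : ℕ} (he : e.1 = s(a, b))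
    (h : NN (X ∪ {e}) c) : NN X c ∨ ∃ w, w ≠ c ∧ adj X a w ∧ adj X b w := by
  obtain ⟨x, y, z, hx, hy, hz, h4, h5, h6⟩ := h
  have n4 := adj_ne h4
  have n5 := adj_ne h5
  have n6 := adj_ne h6
  rcases adj_union_single he h4 with k4 | ⟨rfl, rfl⟩ | ⟨rfl, rfl⟩
  · rcases adj_union_single he h5 with k5 | ⟨rfl, rfl⟩ | ⟨rfl, rfl⟩
    · rcases adj_union_single he h6 with k6 | ⟨rfl, rfl⟩ | ⟨rfl, rfl⟩
      · exact Or.inl ⟨x, y, z, hx, hy, hz, k4, k5, k6⟩
      · exact Or.inr ⟨y, hy, k4, adj_symm k5⟩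
      · exact Or.inr ⟨y, hy, adj_symm k5, k4⟩
    · rcases adj_union_single he h6 with k6 | h | h
      · exact Or.inr ⟨x, hx, adj_symm k4, adj_symm k6⟩
      · omega
      · omega
    · rcases adj_union_single he h6 with k6 | h | h
      · exact Or.inr ⟨x, hx, adj_symm k6, adj_symm k4⟩
      · omega
      · omega
  · rcases adj_union_single he h5 with k5 | h | h
    · rcases adj_union_single he h6 with k6 | h | h
      · exact Or.inr ⟨z, hz, k6, k5⟩
      · omega
      · omega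
    · omega
    · omega
  · rcases adj_union_single he h5 with k5 | h | h
    · rcases adj_union_single he h6 with k6 | h | h
      · exact Or.inr ⟨z, hz, k5, k6⟩
      · omega
      · omega
    · omega
    · omega

theorem five_triple' : ∀ ζ i : Fin 5, i = ζ + 2 ∨ i = ζ + 4 ∨ i + 1 = ζ + 2 ∨ i + 1 = ζ + 4 ∨
    i + 2 = ζ + 2 ∨ i + 2 = ζ + 4 := by decide

theorem five_triple (ζ i : Fin 5) (h1 : i ≠ ζ + 2) (h2 : i ≠ ζ + 4) (h3 : i + 1 ≠ ζ + 2)
    (h4 : i + 1 ≠ ζ + 4) (h5 : i + 2 ≠ ζ + 2) (h6 : i + 2 ≠ ζ + 4) : False := by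
  rcases five_triple' ζ i with h | h | h | h | h | h
  · exact h1 h
  · exact h2 h
  · exact h3 h
  · exact h4 h
  · exact h5 h
  · exact h6 h

theorem five_pair : ∀ ζ i : Fin 5, i ≠ ζ + 2 → i ≠ ζ + 4 → i + 1 ≠ ζ + 2 → i + 1 ≠ ζ + 4 →
    i = ζ := by decide

theorem five_ne3 : ∀ ζ : Fin 5, ζ ≠ ζ + 3 ∧ ζ + 1 ≠ ζ + 3 := by decide

/-- The situation of a decided gadget with one white pair. -/
structure DeadSit (G : Gr) (e : Pair) (c : ℕ) (T : Finset ℕ) (h : Fin 12 → ℕ) (v : ℕ → ℕ)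
    (K : ℕ) (ζ : Fin 5) : Prop where
  hi : Function.Injective h
  hr : Set.range h = (T : Set ℕ)
  hc : ∀ i, h i ≠ c
  hK : 26 ≤ K
  V : Valid G c h v K
  nover : ∀ h' : Fin 12 → ℕ, Function.Injective h' → Set.range h' = (T : Set ℕ) → ¬ Over G c h'
  nkill : ¬ NN G c
  r2 : ¬ adj (G ∪ {e}) (v K) (h (cl K (ζ + 2)))
  r4 : ¬ adj (G ∪ {e}) (v K) (h (cl K (ζ + 4)))
  he : e.1 = s(v K, h (cl K (ζ + 3)))

section dead

variable {G : Gr} {e : Pair} {c : ℕ} {T : Finset ℕ} {h : Fin 12 → ℕ} {v : ℕ → ℕ}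
    {K : ℕ} {ζ : Fin 5}

theorem DeadSit.range_eq (D : DeadSit G e c T h v K ζ) {h' : Fin 12 → ℕ}
    (hr' : Set.range h' = (T : Set ℕ)) : Set.range h' = Set.range h := by
  rw [hr', D.hr]

theorem DeadSit.nn (D : DeadSit G e c T h v K ζ) : ¬ NN (G ∪ {e}) c := by
  intro H
  rcases nn_single D.he H with H | ⟨w, hw, h1, h2⟩
  · exact D.nkill H
  have hov := D.nover h D.hi D.hr
  have hK := D.hK
  by_cases hwh : ∃ i, w = h i
  · obtain ⟨i, rfl⟩ := hwh
    exact D.nkill ⟨v 0, h (cl K (ζ + 3)), h i, D.V.r1, D.hc _, D.hc _, D.V.r3 _, h2, D.V.r3 _⟩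
  push Not at hwh
  have hVK : K - 1 + 1 = K := by omega
  obtain ⟨s1, s2, s3⟩ := D.V.step (K - 1) (by omega)
  rw [hVK] at s1 s2 s3
  by_cases hwv : ∃ j ≤ K, w = v j
  · obtain ⟨j, hj, rfl⟩ := hwv
    rcases Nat.lt_or_ge (j + 1) K with hlt | hge
    · have o1 : out c h v j (v K) := ⟨s2.1, s2.2.1, fun i hi => s2.2.2 i (by omega)⟩
      obtain ⟨t1, t2, _⟩ := D.V.step j (by omega)
      have := next_unique hov (D.V.le (show j ≤ K by omega)) o1 (adj_symm h1) t2 t1
      exact D.V.ne_of_lt K le_rfl (j + 1) hlt this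
    · rcases (show j = K ∨ j = K - 1 by omega) with rfl | rfl
      · exact adj_ne h1 rfl
      · -- the previous vertex is joined to a forbidden hub
        obtain ⟨L, rfl⟩ : ∃ L, K = L + 1 + 1 := ⟨K - 2, by omega⟩
        have hnh := not_hi hov (D.V.le (show L + 1 ≤ L + 1 + 1 by omega))
        apply hnh
        have hm : cl (L + 1 + 1) (ζ + 3) ∈ hub G h (v (L + 1)) := adj_symm h2
        by_cases h26 : L + 1 < 26
        · refine Or.inl ⟨h26, fun i hi => ?_, _, hm, fun hn => ?_⟩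
          · have := hi.1; omega
          · have := hn.1; omega
        · exact Or.inr ⟨by omega, Or.inl ⟨_, hm, not_allowed_pred (L + 1) (ζ + 3)⟩⟩
  · push Not at hwv
    have hm : cl K (ζ + 3) ∈ hub G h w := adj_symm h2
    exact not_hi_next hov D.V ⟨hw, hwh, fun j hj => hwv j hj⟩ h1
      (Or.inr ⟨by omega, Or.inl ⟨_, hm, not_allowed_succ K (ζ + 3)⟩⟩)

/-- adjacency of a ray-type vertex with something which is not the special hub pair -/
theorem DeadSit.adj_back (D : DeadSit G e c T h v K ζ) {u w : ℕ} (huh : ∀ i, u ≠ h i)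
    (H : adj (G ∪ {e}) u w) : adj G u w ∨ (u = v K ∧ w = h (cl K (ζ + 3))) := by
  rcases adj_union_single D.he H with k | k | k
  · exact Or.inl k
  · exact Or.inr k
  · exact absurd k.1 (huh _)

theorem not_range {h h' : Fin 12 → ℕ} (hr : Set.range h' = Set.range h) {u : ℕ}
    (hu : ∀ i, u ≠ h' i) : ∀ i, u ≠ h i := by
  intro i e
  have : h i ∈ Set.range h' := by rw [hr]; exact ⟨i, rfl⟩
  obtain ⟨j, hj⟩ := this
  exact hu j (by rw [hj]; exact e)

theorem DeadSit.hub_ne (D : DeadSit G e c T h v K ζ) {h' : Fin 12 → ℕ} {u : ℕ}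
    (huh : ∀ i, u ≠ h i) (hu : u ≠ v K) : hub (G ∪ {e}) h' u ⊆ hub G h' u := by
  intro i hi
  rcases D.adj_back huh hi with k | k
  · exact k
  · exact absurd k.1 hu

theorem DeadSit.aux (D : DeadSit G e c T h v K ζ) {h' : Fin 12 → ℕ} {v' : ℕ → ℕ}
    (hi' : Function.Injective h') (hr' : Set.range h' = (T : Set ℕ)) {j : ℕ}
    (V' : Valid G c h' v' j) (ho : out c h' v' j (v K)) (ha : adj G (v' j) (v K)) :
    j + 1 = K ∧ h' = h := by
  have hov := D.nover h D.hi D.hr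
  have hrr := D.range_eq hr'
  have hK := D.hK
  have hjK : j < K := by
    by_contra hge
    have := val_unique hov hrr D.V (V'.le (show K ≤ j by omega)) K le_rfl
    exact ho.2.2 K (by omega) this.symm
  have hv : ∀ i ≤ j, v' i = v i := val_unique hov hrr (D.V.le (by omega)) V'
  have hj1 : j + 1 = K := by
    by_contra hne
    obtain ⟨t1, t2, _⟩ := D.V.step j hjK
    have ho' := out_of_range hrr hv ho
    rw [hv j le_rfl] at ha
    have := next_unique hov (D.V.le (show j ≤ K by omega)) ho' ha t2 t1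
    exact D.V.ne_of_lt K le_rfl (j + 1) (by omega) this
  exact ⟨hj1, ord_unique hov hrr (D.V.le (by omega)) (V'.le (by omega))⟩

theorem DeadSit.valid_back (D : DeadSit G e c T h v K ζ) {h' : Fin 12 → ℕ} {v' : ℕ → ℕ}
    (hi' : Function.Injective h') (hr' : Set.range h' = (T : Set ℕ)) {j : ℕ}
    (V' : Valid (G ∪ {e}) c h' v' j) : Valid G c h' v' j := by
  have hrr := D.range_eq hr'
  induction j with
  | zero =>
    refine ⟨V'.r1, V'.r2, fun i => ?_, fun l hl => absurd hl (by omega)⟩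
    rcases D.adj_back (not_range hrr V'.r2) (V'.r3 i) with k | k
    · exact k
    · exfalso
      have : h (cl K (ζ + 2)) ∈ Set.range h' := by rw [hrr]; exact ⟨_, rfl⟩
      obtain ⟨i', hi'2⟩ := this
      have := V'.r3 i'
      rw [k.1, hi'2] at this
      exact D.r2 this
  | succ j ih =>
    have VG := ih (V'.le (by omega))
    obtain ⟨s1, s2, s3⟩ := V'.step j (by omega)
    have hvj := not_range hrr (V'.ne_hub j (by omega))
    have s1' : adj G (v' j) (v' (j + 1)) := by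
      rcases D.adj_back hvj s1 with k | k
      · exact k
      · exact absurd k.2 (not_range hrr s2.2.1 _)
    refine ⟨VG.r1, VG.r2, VG.r3, fun l hl => ?_⟩
    rcases Nat.lt_succ_iff_lt_or_eq.1 hl with hl | rfl
    · exact VG.step l hl
    refine ⟨s1', s2, ?_⟩
    by_cases hu : v' (l + 1) = v K
    · rw [hu] at s1' s2
      obtain ⟨e1, e2⟩ := D.aux hi' hr' VG s2 s1'
      rw [hu, e2, e1]
      have := (D.V.step l (by omega)).2.2
      rwa [e1] at this
    · exact ok_mono (D.hub_ne (not_range hrr s2.2.1) hu) s3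

theorem DeadSit.not_hiK (D : DeadSit G e c T h v K ζ) : ¬ _root_.Pool.Agent.Lib.MP_3d6d95_lc.hi K (hub (G ∪ {e}) h (v K)) := by
  have hov := D.nover h D.hi D.hr
  have hK := D.hK
  have hVh := D.V.ne_hub K le_rfl
  have hback : ∀ i, i ≠ cl K (ζ + 3) → i ∈ hub (G ∪ {e}) h (v K) → i ∈ hub G h (v K) := by
    intro i hi hm
    rcases D.adj_back hVh hm with k | k
    · exact k
    · exact absurd (D.hi k.2) hi
  obtain ⟨L, hL⟩ : ∃ L, K = L + 1 := ⟨K - 1, by omega⟩
  have hnh : ¬ _root_.Pool.Agent.Lib.MP_3d6d95_lc.hi K (hub G h (v K)) := by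
    subst hL
    exact not_hi hov D.V
  rintro (⟨h1, _⟩ | ⟨_, ⟨i, h1, h2⟩ | ⟨i, h1, h2, h3⟩ | ⟨hp, h1, h2⟩⟩)
  · omega
  · refine hnh (Or.inr ⟨hK, Or.inl ⟨i, hback i (fun e1 => h2 ?_) h1, h2⟩⟩)
    rw [e1]; exact allowed_cl _ _
  · have key : ∀ j : Fin 5, cl K j ∈ hub (G ∪ {e}) h (v K) → j ≠ ζ + 2 ∧ j ≠ ζ + 4 := by
      intro j hj
      constructor
      · rintro rfl; exact D.r2 hj
      · rintro rfl; exact D.r4 hj
    exact five_triple ζ i (key _ h1).1 (key _ h1).2 (key _ h2).1 (key _ h2).2 (key _ h3).1 (key _ h3).2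
  · have hcl : ((cl K (ζ + 3) : Fin 12) : ℕ) = 5 * (K % 2) + (ζ + 3 : Fin 5) := rfl
    have h5 := (ζ + 3).2
    refine hnh (Or.inr ⟨hK, Or.inr (Or.inr ⟨hp, hback _ (fun e1 => ?_) h1,
      hback _ (fun e1 => ?_) h2⟩)⟩)
    · have e2 := congrArg Fin.val e1
      have e3 : ((10 : Fin 12) : ℕ) = 10 := rfl
      omega
    · have e2 := congrArg Fin.val e1
      have e3 : ((11 : Fin 12) : ℕ) = 11 := rfl
      omega

theorem DeadSit.not_over (D : DeadSit G e c T h v K ζ) {h' : Fin 12 → ℕ}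
    (hi' : Function.Injective h') (hr' : Set.range h' = (T : Set ℕ)) :
    ¬ Over (G ∪ {e}) c h' := by
  have hrr := D.range_eq hr'
  intro H
  apply D.nover h' hi' hr'
  rcases H with ⟨r, r', h1, h2, h3, h4, h5, h6, h7⟩ | ⟨v', k, V', ⟨u, h1, h2, h3⟩ | ⟨u, u', h1, h2, h3, h4, h5⟩⟩
  · have key : ∀ r, (∀ i, r ≠ h' i) → (∀ i, adj (G ∪ {e}) r (h' i)) → ∀ i, adj G r (h' i) := by
      intro r k1 k2 i
      rcases D.adj_back (not_range hrr k1) (k2 i) with k | k
      · exact k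
      · exfalso
        have : h (cl K (ζ + 2)) ∈ Set.range h' := by rw [hrr]; exact ⟨_, rfl⟩
        obtain ⟨i', hi'2⟩ := this
        have := k2 i'
        rw [k.1, hi'2] at this
        exact D.r2 this
    exact Or.inl ⟨r, r', h1, h2, h3, h4, h5, key r h4 h6, key r' h5 h7⟩
  · have VG := D.valid_back hi' hr' V'
    have a1 : adj G (v' k) u := by
      rcases D.adj_back (not_range hrr (V'.ne_hub k le_rfl)) h2 with k | k
      · exact k
      · exact absurd k.2 (not_range hrr h1.2.1 _)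
    refine Or.inr ⟨v', k, VG, Or.inl ⟨u, h1, a1, ?_⟩⟩
    by_cases hu : u = v K
    · exfalso
      subst hu
      obtain ⟨e1, e2⟩ := D.aux hi' hr' VG h1 a1
      rw [e1, e2] at h3
      exact D.not_hiK h3
    · exact hi_mono (D.hub_ne (not_range hrr h1.2.1) hu) h3
  · have VG := D.valid_back hi' hr' V'
    refine Or.inr ⟨v', k, VG, Or.inr ⟨u, u', h1, h2, h3, ?_, ?_⟩⟩
    · rcases D.adj_back (not_range hrr (V'.ne_hub k le_rfl)) h4 with k | k
      · exact k
      · exact absurd k.2 (not_range hrr h2.2.1 _)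
    · rcases D.adj_back (not_range hrr (V'.ne_hub k le_rfl)) h5 with k | k
      · exact k
      · exact absurd k.2 (not_range hrr h3.2.1 _)

theorem DeadSit.full_back (D : DeadSit G e c T h v K ζ) {h' : Fin 12 → ℕ} {v' : ℕ → ℕ}
    (hi' : Function.Injective h') (hr' : Set.range h' = (T : Set ℕ)) {z : ℕ → Fin 5}
    {b : ℕ → Bool} (F : Full (G ∪ {e}) c h' v' z b) : Full G c h' v' z b := by
  have hrr := D.range_eq hr'
  refine ⟨fun k => D.valid_back hi' hr' (F.1 k), fun k => ?_⟩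
  have VG := D.valid_back hi' hr' (F.1 (26 + k))
  by_cases hu : v' (26 + k) = v K
  · have st := VG.step (25 + k) (by omega)
    rw [show 25 + k + 1 = 26 + k by ring, hu] at st
    obtain ⟨e1, e2⟩ := D.aux hi' hr' (VG.le (show 25 + k ≤ 26 + k by omega)) st.2.1 st.1
    have hKk : 26 + k = K := by omega
    have hm := F.2 k
    rw [hu, e2, hKk] at hm ⊢
    have hVh := D.V.ne_hub K le_rfl
    have hback : ∀ i, i ≠ cl K (ζ + 3) → i ∈ hub (G ∪ {e}) h (v K) → i ∈ hub G h (v K) := by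
      intro i hi hm
      rcases D.adj_back hVh hm with k | k
      · exact k
      · exact absurd (D.hi k.2) hi
    have key : ∀ j : Fin 5, cl K j ∈ hub (G ∪ {e}) h (v K) → j ≠ ζ + 2 ∧ j ≠ ζ + 4 := by
      intro j hj
      constructor
      · rintro rfl; exact D.r2 hj
      · rintro rfl; exact D.r4 hj
    obtain ⟨m1, m2, m3⟩ := hm
    have hz : z k = ζ := five_pair ζ (z k) (key _ m1).1 (key _ m1).2 (key _ m2).1 (key _ m2).2
    have hcl : ((cl K (ζ + 3) : Fin 12) : ℕ) = 5 * (K % 2) + (ζ + 3 : Fin 5) := rfl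
    have h5 := (ζ + 3).2
    refine ⟨hback _ (fun e1 => ?_) m1, hback _ (fun e1 => ?_) m2, fun hp =>
      ⟨fun hb => hback _ (fun e1 => ?_) ((m3 hp).1 hb), fun hb => hback _ (fun e1 => ?_) ((m3 hp).2 hb)⟩⟩
    · rw [hz] at e1; exact (five_ne3 ζ).1 (cl_inj e1)
    · rw [hz] at e1; exact (five_ne3 ζ).2 (cl_inj e1)
    · have e2 := congrArg Fin.val e1
      have e3 : ((10 : Fin 12) : ℕ) = 10 := rfl
      omega
    · have e2 := congrArg Fin.val e1
      have e3 : ((11 : Fin 12) : ℕ) = 11 := rfl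
      omega
  · exact mt_mono (D.hub_ne (not_range hrr (VG.ne_hub _ le_rfl)) hu) (F.2 k)

end dead

theorem dead_pair {p0 : List Pair} {c : ℕ} {T : Finset ℕ} {y : ℕ} (hP : Plaus τ)
    (B : Base2 τ p0 c T y) {l : List Pair} (hl : p0 <:+ l) (hnd : l.Nodup)
    {h : Fin 12 → ℕ} (hi : Function.Injective h) (hr : Set.range h = (T : Set ℕ))
    {v : ℕ → ℕ} {K : ℕ} (hK : 26 ≤ K) (V : Valid (grn τ l) c h v K) {ζ : Fin 5}
    (r2 : adj (red τ l) (v K) (h (cl K (ζ + 2)))) (r4 : adj (red τ l) (v K) (h (cl K (ζ + 4))))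
    {e : Pair} (he : e.1 = s(v K, h (cl K (ζ + 3)))) (hel : e ∉ l) : False := by
  obtain ⟨q, hq, ⟨n, hn⟩, hw⟩ := run_single hnd hel
  have hln : l <:+ pos q n := by rw [hn]
  have h0 : p0 <:+ pos q n := hl.trans hln
  obtain ⟨A, hA1, hA2⟩ := hP q hq (by rw [hw]; exact Set.singleton_nonempty _)
  have hgl : grn τ l ⊆ greens q (cc τ q) := by rw [← hn]; exact grn_sub_greens _
  have hc := B.base.hub_ne hr
  have D : DeadSit (greens q (cc τ q)) e c T h v K ζ := by
    refine ⟨hi, hr, hc, hK, V.mono hgl, fun h' h1 h2 => B.base.run_nover hq h0 h1 h2,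
      B.base.run_nkill hq h0, ?_, ?_, he⟩
    · rw [← hw]
      exact not_adj_union hq (adj_mono (by rw [hn]) r2)
    · rw [← hw]
      exact not_adj_union hq (adj_mono (by rw [hn]) r4)
  apply hA1
  intro a
  by_cases ha : a = c
  swap
  · left
    refine (B.kill a ha).mono ?_
    exact (grn_mono h0).trans (grn_sub_greens n)
  subst ha
  right
  rcases hA2 a with H | ⟨h', h1, h2, h3, h4⟩
  · rw [hw] at H
    exact absurd H D.nn
  · have hr' := B.base.range_eq hq h0 h1 h3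
    refine ⟨h', h1, h2, fun u hu hu2 => ?_, ?_⟩
    · have := h3 u hu hu2
      rw [hw] at this
      rcases adj_union_single he this with k | k | k
      · exact k
      · exact absurd k.1.symm (V.ne_apex K le_rfl)
      · exact absurd k.1.symm (hc _)
    · rw [hw] at h4
      rcases h4 with ⟨i, hi2⟩ | h4 | ⟨v', z, b, h5, h6⟩
      · exfalso
        have : h' i ∈ (T : Set ℕ) := by rw [← hr']; exact ⟨i, rfl⟩
        refine B.base.run_T hq h0 this ?_
        rw [hw]; exact hi2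
      · exact absurd h4 (D.not_over h1 hr')
      · exact Or.inr (Or.inr ⟨v', z, b, h5, D.full_back h1 hr' h6⟩)

end Pool.Agent.Lib.MP_3d6d95_lc
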