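import Pool.Agent.Lib.MP_3d6d95_lc.Game

/-!
The family of monotone graph properties used to build an undetermined game.
-/

namespace Pool.Agent.Lib.MP_3d6d95_lc

/-- Adjacency in a set of pairs. -/
def adj (X : Gr) (a b : ℕ) : Prop := ∃ e ∈ X, e.1 = s(a, b)

theorem adj_symm {X : Gr} {a b : ℕ} (h : adj X a b) : adj X b a := by
  obtain ⟨e, he, h1⟩ := h
  exact ⟨e, he, by rw [h1, Sym2.eq_swap]⟩

theorem adj_ne {X : Gr} {a b : ℕ} (h : adj X a b) : a ≠ b := by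
  rintro rfl
  obtain ⟨e, he, h1⟩ := h
  exact e.2 (by rw [h1]; simp)

theorem adj_mono {X Y : Gr} (hXY : X ⊆ Y) {a b : ℕ} (h : adj X a b) : adj Y a b := by
  obtain ⟨e, he, h1⟩ := h
  exact ⟨e, hXY he, h1⟩

/-- The pair of two distinct vertices. -/
def pr (a b : ℕ) (h : a ≠ b) : Pair := ⟨s(a, b), by simpa using h⟩

theorem adj_iff_pr {X : Gr} {a b : ℕ} (h : a ≠ b) : adj X a b ↔ pr a b h ∈ X := by
  constructor
  · rintro ⟨e, he, h1⟩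
    have : e = pr a b h := Subtype.ext h1
    rwa [← this]
  · intro hm
    exact ⟨_, hm, rfl⟩

theorem pr_comm {a b : ℕ} (h : a ≠ b) : pr a b h = pr b a h.symm := Subtype.ext Sym2.eq_swap

theorem exists_pr (e : Pair) : ∃ a b, ∃ h : a ≠ b, e = pr a b h := by
  obtain ⟨e, he⟩ := e
  induction e using Sym2.ind with
  | _ x y => exact ⟨x, y, by simpa using he, rfl⟩

theorem pr_eq_iff {a b c d : ℕ} (h : a ≠ b) (h' : c ≠ d) :
    pr a b h = pr c d h' ↔ (a = c ∧ b = d) ∨ (a = d ∧ b = c) := by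
  unfold pr
  rw [Subtype.mk.injEq, Sym2.eq_iff]

/-- The five hub labels carrying the gadget at index `k`. -/
def cl (k : ℕ) (i : Fin 5) : Fin 12 := ⟨5 * (k % 2) + i, by omega⟩

def need (k : ℕ) (i : Fin 12) : Prop := k % 2 = 0 ∧ (i : ℕ) + 1 = k / 2

def allowed (k : ℕ) (i : Fin 12) : Prop := (∃ j, i = cl k j) ∨ (k % 2 = 0 ∧ 10 ≤ (i : ℕ))

def ok (k : ℕ) (A : Set (Fin 12)) : Prop :=
  (k < 26 → ∀ i, need k i → i ∈ A) ∧
  (26 ≤ k → (∃ i, cl k i ∈ A ∧ cl k (i + 1) ∈ A) ∧ (k % 2 = 0 → (10 ∈ A ∨ 11 ∈ A)))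

def hi (k : ℕ) (A : Set (Fin 12)) : Prop :=
  (k < 26 ∧ (∀ i, need k i → i ∈ A) ∧ ∃ i ∈ A, ¬ need k i) ∨
  (26 ≤ k ∧ ((∃ i ∈ A, ¬ allowed k i) ∨
    (∃ i, cl k i ∈ A ∧ cl k (i + 1) ∈ A ∧ cl k (i + 2) ∈ A) ∨
    (k % 2 = 0 ∧ 10 ∈ A ∧ 11 ∈ A)))

def mt (k : ℕ) (ζ : Fin 5) (b : Bool) (A : Set (Fin 12)) : Prop :=
  cl k ζ ∈ A ∧ cl k (ζ + 1) ∈ A ∧ (k % 2 = 0 → (b = true → 10 ∈ A) ∧ (b = false → 11 ∈ A))

theorem ok_mono {k : ℕ} {A B : Set (Fin 12)} (hAB : A ⊆ B) (h : ok k A) : ok k B := by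
  refine ⟨fun hk i hi => hAB (h.1 hk i hi), fun hk => ?_⟩
  obtain ⟨⟨i, h1, h2⟩, h3⟩ := h.2 hk
  exact ⟨⟨i, hAB h1, hAB h2⟩, fun hk2 => (h3 hk2).imp (fun x => hAB x) (fun x => hAB x)⟩

theorem hi_mono {k : ℕ} {A B : Set (Fin 12)} (hAB : A ⊆ B) (h : hi k A) : hi k B := by
  rcases h with ⟨hk, h1, i, hi, h2⟩ | ⟨hk, h | h | h⟩
  · exact Or.inl ⟨hk, fun j hj => hAB (h1 j hj), i, hAB hi, h2⟩
  · obtain ⟨i, hi, h2⟩ := h
    exact Or.inr ⟨hk, Or.inl ⟨i, hAB hi, h2⟩⟩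
  · obtain ⟨i, h1, h2, h3⟩ := h
    exact Or.inr ⟨hk, Or.inr (Or.inl ⟨i, hAB h1, hAB h2, hAB h3⟩)⟩
  · obtain ⟨h0, h1, h2⟩ := h
    exact Or.inr ⟨hk, Or.inr (Or.inr ⟨h0, hAB h1, hAB h2⟩)⟩

theorem mt_mono {k : ℕ} {ζ : Fin 5} {b : Bool} {A B : Set (Fin 12)} (hAB : A ⊆ B)
    (h : mt k ζ b A) : mt k ζ b B :=
  ⟨hAB h.1, hAB h.2.1, fun hk => ⟨fun hb => hAB ((h.2.2 hk).1 hb), fun hb => hAB ((h.2.2 hk).2 hb)⟩⟩

def hub (X : Gr) (h : Fin 12 → ℕ) (u : ℕ) : Set (Fin 12) := {i | adj X u (h i)}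

theorem hub_mono {X Y : Gr} (hXY : X ⊆ Y) (h : Fin 12 → ℕ) (u : ℕ) : hub X h u ⊆ hub Y h u :=
  fun _ hi => adj_mono hXY hi

/-- `u` is outside the apex, the hubs and the first `k + 1` ray vertices. -/
def out (a : ℕ) (h : Fin 12 → ℕ) (v : ℕ → ℕ) (k u : ℕ) : Prop :=
  u ≠ a ∧ (∀ i, u ≠ h i) ∧ ∀ j ≤ k, u ≠ v j

structure Valid (X : Gr) (a : ℕ) (h : Fin 12 → ℕ) (v : ℕ → ℕ) (k : ℕ) : Prop where
  r1 : v 0 ≠ a
  r2 : ∀ i, v 0 ≠ h i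
  r3 : ∀ i, adj X (v 0) (h i)
  step : ∀ j < k, adj X (v j) (v (j + 1)) ∧ out a h v j (v (j + 1)) ∧
    ok (j + 1) (hub X h (v (j + 1)))

def TwoRoots (X : Gr) (a : ℕ) (h : Fin 12 → ℕ) : Prop :=
  ∃ r r', r ≠ r' ∧ r ≠ a ∧ r' ≠ a ∧ (∀ i, r ≠ h i) ∧ (∀ i, r' ≠ h i) ∧
    (∀ i, adj X r (h i)) ∧ (∀ i, adj X r' (h i))

def Over (X : Gr) (a : ℕ) (h : Fin 12 → ℕ) : Prop :=
  TwoRoots X a h ∨
  ∃ v k, Valid X a h v k ∧
    ((∃ u, out a h v k u ∧ adj X (v k) u ∧ hi (k + 1) (hub X h u)) ∨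
     (∃ u u', u ≠ u' ∧ out a h v k u ∧ out a h v k u' ∧ adj X (v k) u ∧ adj X (v k) u'))

def Full (X : Gr) (a : ℕ) (h : Fin 12 → ℕ) (v : ℕ → ℕ) (z : ℕ → Fin 5) (b : ℕ → Bool) : Prop :=
  (∀ k, Valid X a h v k) ∧ ∀ k, mt (26 + k) (z k) (b (k / 2)) (hub X h (v (26 + k)))

/-- There is a triangle avoiding `a`. -/
def NN (X : Gr) (a : ℕ) : Prop :=
  ∃ x y z, x ≠ a ∧ y ≠ a ∧ z ≠ a ∧ adj X x y ∧ adj X y z ∧ adj X x z

abbrev Code : Type := (ℕ → Fin 5) × (ℕ → Bool)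

def RR (A : Set Code) (X : Gr) (a : ℕ) : Prop :=
  ∃ h : Fin 12 → ℕ, Function.Injective h ∧ (∀ i, h i ≠ a) ∧
    (∀ u, u ≠ a → (∀ i, u ≠ h i) → adj X a u) ∧
    ((∃ i, adj X a (h i)) ∨ Over X a h ∨ ∃ v z b, (z, b) ∈ A ∧ Full X a h v z b)

/-- The graph property attached to a set of codes. -/
def SS (A : Set Code) : Set Gr := {X | ∀ a, NN X a ∨ RR A X a}

theorem Valid.mono {X Y : Gr} (hXY : X ⊆ Y) {a : ℕ} {h : Fin 12 → ℕ} {v : ℕ → ℕ} {k : ℕ}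
    (H : Valid X a h v k) : Valid Y a h v k :=
  ⟨H.r1, H.r2, fun i => adj_mono hXY (H.r3 i), fun j hj =>
    ⟨adj_mono hXY (H.step j hj).1, (H.step j hj).2.1, ok_mono (hub_mono hXY _ _) (H.step j hj).2.2⟩⟩

theorem Valid.le {X : Gr} {a : ℕ} {h : Fin 12 → ℕ} {v : ℕ → ℕ} {k l : ℕ}
    (H : Valid X a h v k) (hl : l ≤ k) : Valid X a h v l :=
  ⟨H.r1, H.r2, H.r3, fun j hj => H.step j (lt_of_lt_of_le hj hl)⟩

theorem Over.mono {X Y : Gr} (hXY : X ⊆ Y) {a : ℕ} {h : Fin 12 → ℕ}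
    (H : Over X a h) : Over Y a h := by
  rcases H with H | H
  · obtain ⟨r, r', h1, h2, h3, h4, h5, h6, h7⟩ := H
    exact Or.inl ⟨r, r', h1, h2, h3, h4, h5, fun i => adj_mono hXY (h6 i),
      fun i => adj_mono hXY (h7 i)⟩
  · obtain ⟨v, k, hv, h1 | h1⟩ := H
    · obtain ⟨u, hu, h2, h3⟩ := h1
      exact Or.inr ⟨v, k, hv.mono hXY, Or.inl ⟨u, hu, adj_mono hXY h2, hi_mono (hub_mono hXY _ _) h3⟩⟩
    · obtain ⟨u, u', h2, h3, h4, h5, h6⟩ := h1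
      exact Or.inr ⟨v, k, hv.mono hXY, Or.inr ⟨u, u', h2, h3, h4, adj_mono hXY h5, adj_mono hXY h6⟩⟩

theorem Full.mono {X Y : Gr} (hXY : X ⊆ Y) {a : ℕ} {h : Fin 12 → ℕ} {v : ℕ → ℕ}
    {z : ℕ → Fin 5} {b : ℕ → Bool} (H : Full X a h v z b) : Full Y a h v z b :=
  ⟨fun k => (H.1 k).mono hXY, fun k => mt_mono (hub_mono hXY _ _) (H.2 k)⟩

theorem NN.mono {X Y : Gr} (hXY : X ⊆ Y) {a : ℕ} (H : NN X a) : NN Y a := by
  obtain ⟨x, y, z, h1, h2, h3, h4, h5, h6⟩ := H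
  exact ⟨x, y, z, h1, h2, h3, adj_mono hXY h4, adj_mono hXY h5, adj_mono hXY h6⟩

theorem RR.mono {X Y : Gr} (hXY : X ⊆ Y) {A B : Set Code} (hAB : A ⊆ B) {a : ℕ}
    (H : RR A X a) : RR B Y a := by
  obtain ⟨h, h1, h2, h3, h4⟩ := H
  refine ⟨h, h1, h2, fun u hu hu2 => adj_mono hXY (h3 u hu hu2), ?_⟩
  rcases h4 with h4 | h4 | h4
  · obtain ⟨i, hi⟩ := h4
    exact Or.inl ⟨i, adj_mono hXY hi⟩
  · exact Or.inr (Or.inl (h4.mono hXY))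
  · obtain ⟨v, z, b, h5, h6⟩ := h4
    exact Or.inr (Or.inr ⟨v, z, b, hAB h5, h6.mono hXY⟩)

theorem SS_isMonotone (A : Set Code) : IsMonotone (SS A) := by
  intro G H hG hGH a
  exact (hG a).imp (fun h => h.mono hGH) (fun h => h.mono hGH subset_rfl)

theorem SS_mono {A B : Set Code} (hAB : A ⊆ B) : SS A ⊆ SS B := by
  intro G hG a
  exact (hG a).imp id (fun h => h.mono subset_rfl hAB)

/-! Invariance under permutations -/

theorem adj_perm (π : Equiv.Perm ℕ) {X : Gr} {a b : ℕ} :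
    adj (permGr π X) (π a) (π b) ↔ adj X a b := by
  constructor
  · rintro ⟨e, ⟨e0, he0, rfl⟩, h1⟩
    refine ⟨e0, he0, ?_⟩
    have : Sym2.map π e0.1 = Sym2.map π s(a, b) := by
      rw [Sym2.map_mk]; exact h1
    exact Sym2.map.injective π.injective this
  · rintro ⟨e, he, h1⟩
    refine ⟨permPair π e, ⟨e, he, rfl⟩, ?_⟩
    show Sym2.map π e.1 = _
    rw [h1, Sym2.map_mk]

theorem hub_perm (π : Equiv.Perm ℕ) {X : Gr} {h : Fin 12 → ℕ} {u : ℕ} :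
    hub (permGr π X) (fun i => π (h i)) (π u) = hub X h u := by
  ext i
  exact adj_perm π

theorem out_perm (π : Equiv.Perm ℕ) {a : ℕ} {h : Fin 12 → ℕ} {v : ℕ → ℕ} {k u : ℕ}
    (H : out a h v k u) : out (π a) (fun i => π (h i)) (fun i => π (v i)) k (π u) :=
  ⟨fun e => H.1 (π.injective e), fun i e => H.2.1 i (π.injective e),
    fun j hj e => H.2.2 j hj (π.injective e)⟩

theorem valid_perm (π : Equiv.Perm ℕ) {X : Gr} {a : ℕ} {h : Fin 12 → ℕ} {v : ℕ → ℕ} {k : ℕ}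
    (H : Valid X a h v k) :
    Valid (permGr π X) (π a) (fun i => π (h i)) (fun i => π (v i)) k := by
  refine ⟨fun e => H.r1 (π.injective e), fun i e => H.r2 i (π.injective e),
    fun i => (adj_perm π).2 (H.r3 i), fun j hj => ?_⟩
  obtain ⟨h1, h2, h3⟩ := H.step j hj
  refine ⟨(adj_perm π).2 h1, out_perm π h2, ?_⟩
  rw [hub_perm]
  exact h3

theorem over_perm (π : Equiv.Perm ℕ) {X : Gr} {a : ℕ} {h : Fin 12 → ℕ} (H : Over X a h) :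
    Over (permGr π X) (π a) (fun i => π (h i)) := by
  rcases H with H | H
  · obtain ⟨r, r', h1, h2, h3, h4, h5, h6, h7⟩ := H
    exact Or.inl ⟨π r, π r', fun e => h1 (π.injective e), fun e => h2 (π.injective e),
      fun e => h3 (π.injective e), fun i e => h4 i (π.injective e),
      fun i e => h5 i (π.injective e), fun i => (adj_perm π).2 (h6 i),
      fun i => (adj_perm π).2 (h7 i)⟩
  · obtain ⟨v, k, hv, h1 | h1⟩ := H
    · obtain ⟨u, hu, h2, h3⟩ := h1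
      refine Or.inr ⟨_, k, valid_perm π hv, Or.inl ⟨π u, out_perm π hu, (adj_perm π).2 h2, ?_⟩⟩
      rw [hub_perm]; exact h3
    · obtain ⟨u, u', h2, h3, h4, h5, h6⟩ := h1
      exact Or.inr ⟨_, k, valid_perm π hv, Or.inr ⟨π u, π u', fun e => h2 (π.injective e),
        out_perm π h3, out_perm π h4, (adj_perm π).2 h5, (adj_perm π).2 h6⟩⟩

theorem SS_isGraphProperty (A : Set Code) : IsGraphProperty (SS A) := by
  intro π G hG a'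
  obtain ⟨a, rfl⟩ := π.surjective a'
  rcases hG a with H | H
  · left
    obtain ⟨x, y, z, h1, h2, h3, h4, h5, h6⟩ := H
    exact ⟨π x, π y, π z, fun e => h1 (π.injective e), fun e => h2 (π.injective e),
      fun e => h3 (π.injective e), (adj_perm π).2 h4, (adj_perm π).2 h5, (adj_perm π).2 h6⟩
  · right
    obtain ⟨h, h1, h2, h3, h4⟩ := H
    refine ⟨fun i => π (h i), fun i j e => h1 (π.injective e), fun i e => h2 i (π.injective e),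
      ?_, ?_⟩
    · intro u' hu' hu2
      obtain ⟨u, rfl⟩ := π.surjective u'
      exact (adj_perm π).2 (h3 u (fun e => hu' (by rw [e])) (fun i e => hu2 i (by rw [e])))
    · rcases h4 with h4 | h4 | h4
      · obtain ⟨i, hi⟩ := h4
        exact Or.inl ⟨i, (adj_perm π).2 hi⟩
      · exact Or.inr (Or.inl (over_perm π h4))
      · obtain ⟨v, z, b, h5, h6, h7⟩ := h4
        refine Or.inr (Or.inr ⟨fun i => π (v i), z, b, h5, fun k => valid_perm π (h6 k), fun k => ?_⟩)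
        rw [hub_perm]
        exact h7 k

end Pool.Agent.Lib.MP_3d6d95_lc
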