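import Pool.Agent.Lib.MP_3d6d95_lc.SeekerFinal

/-!
Against every strategy of Seeker, Hider has replies with all bit sequences in their codes.
-/

namespace Pool.Agent.Lib.MP_3d6d95_lc

variable {x : ℕ → Bool} {G W : Gr} {s : ℕ → Fin 5 → Option Bool}

theorem BFin.mem_two (H : BFin x G W s) {t : ℕ} {j : Fin 5}
    (hj : cl (26 + t) j ∈ hub G H0 (V0 (26 + t))) : s t j = some true := by
  rw [V0_val] at hj
  rcases H.grh hj with ⟨t', j', h4, h5, h6⟩ | hf
  · have : t' = t := by omega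
    subst this
    rw [cl_add] at h5
    rw [cl_inj h5]
    exact (H.f4 _ _).2 h6
  · exfalso
    have hc : ((cl (26 + t) j : Fin 12) : ℕ) = 5 * ((26 + t) % 2) + j := rfl
    have hj5 := j.2
    rcases hf with hf | hf | ⟨_, hp, ⟨hf, _⟩ | ⟨hf, _⟩⟩
    · omega
    · omega
    · have := congrArg Fin.val hf
      rw [val10] at this; omega
    · have := congrArg Fin.val hf
      rw [val11] at this; omega

theorem BFin.mem10 (H : BFin x G W s) {k : ℕ} (hk : 26 ≤ k) (h : adj G (k + 13) (H0 10)) :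
    x ((k - 26) / 2) = true := by
  rcases H.grh h with ⟨t', j', _, h5, _⟩ | hf
  · have hc : ((cl t' j' : Fin 12) : ℕ) = 5 * (t' % 2) + j' := rfl
    have hj5 := j'.2
    have := congrArg Fin.val h5
    rw [val10] at this; omega
  · rcases hf with hf | hf | ⟨_, _, ⟨_, hf⟩ | ⟨hf, _⟩⟩
    · omega
    · omega
    · exact hf
    · exact absurd hf (by decide)

theorem BFin.mem11 (H : BFin x G W s) {k : ℕ} (hk : 26 ≤ k) (h : adj G (k + 13) (H0 11)) :
    x ((k - 26) / 2) = false := by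
  rcases H.grh h with ⟨t', j', _, h5, _⟩ | hf
  · have hc : ((cl t' j' : Fin 12) : ℕ) = 5 * (t' % 2) + j' := rfl
    have hj5 := j'.2
    have := congrArg Fin.val h5
    rw [val11] at this; omega
  · rcases hf with hf | hf | ⟨_, _, ⟨hf, _⟩ | ⟨_, hf⟩⟩
    · omega
    · omega
    · exact absurd hf (by decide)
    · exact hf

theorem mem_of_adj {X : Gr} {a b : ℕ} {e : Pair} (h : adj X a b) (he : e.1 = s(a, b)) :
    e ∈ X := by
  obtain ⟨e', h1, h2⟩ := h
  have : e = e' := Subtype.ext (by rw [he, h2])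
  rwa [this]

theorem BFin.full_data (H : BFin x G W s) {z : ℕ → Fin 5} {b : ℕ → Bool}
    (F : Full G 0 H0 V0 z b) (h0 : ∀ k, adj G 0 (k + 13)) :
    b = x ∧ (∀ e, tgt x e → e ∈ G) ∧ ∀ t, s t (z t) = some true ∧ s t (z t + 1) = some true := by
  have hb : b = x := by
    funext m
    have hm := (F.2 (2 * m)).2.2 (by omega)
    rw [show 2 * m / 2 = m by omega] at hm
    cases hbm : b m
    · have h1 := hm.2 hbm
      have := H.mem11 (k := 26 + 2 * m) (by omega) h1
      rw [show (26 + 2 * m - 26) / 2 = m by omega] at this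
      exact this.symm
    · have h1 := hm.1 hbm
      have := H.mem10 (k := 26 + 2 * m) (by omega) h1
      rw [show (26 + 2 * m - 26) / 2 = m by omega] at this
      exact this.symm
  subst hb
  refine ⟨rfl, ?_, fun t => ⟨H.mem_two (F.2 t).1, H.mem_two (F.2 t).2.1⟩⟩
  rintro e (⟨k, hk⟩ | ⟨k, hk⟩ | ⟨k, i, hk, hf⟩)
  · exact mem_of_adj (h0 k) hk
  · exact mem_of_adj ((F.1 (k + 1)).step k (by omega)).1 hk
  · rcases hf with rfl | ⟨hk26, hn⟩ | ⟨hk26, hp, hf⟩
    · exact mem_of_adj ((F.1 0).r3 i) hk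
    · have hpos : k ≠ 0 := by
        rintro rfl
        have := hn.2
        omega
      obtain ⟨l, rfl⟩ : ∃ l, k = l + 1 := ⟨k - 1, by omega⟩
      exact mem_of_adj (((F.1 (l + 1)).step l (by omega)).2.2.1 hk26 i hn) hk
    · obtain ⟨t, rfl⟩ : ∃ t, k = 26 + t := ⟨k - 26, by omega⟩
      have hm := (F.2 t).2.2 hp
      rw [show 26 + t - 26 = t by omega] at hf
      rcases hf with ⟨rfl, hx⟩ | ⟨rfl, hx⟩
      · exact mem_of_adj (hm.1 hx) hk
      · exact mem_of_adj (hm.2 hx) hk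

theorem good_two_unique {r : Fin 5 → Option Bool} (hg : Good r) {z z' : Fin 5}
    (h1 : r z = some true) (h2 : r (z + 1) = some true) (h1' : r z' = some true)
    (h2' : r (z' + 1) = some true) : z = z' := by
  by_contra hne
  have key : ∀ z z' : Fin 5, z ≠ z' → ∃ i : Fin 5,
      (i = z ∨ i = z + 1 ∨ i = z' ∨ i = z' + 1) ∧
      (i + 1 = z ∨ i + 1 = z + 1 ∨ i + 1 = z' ∨ i + 1 = z' + 1) ∧
      (i + 2 = z ∨ i + 2 = z + 1 ∨ i + 2 = z' ∨ i + 2 = z' + 1) := by decide
  obtain ⟨i, k1, k2, k3⟩ := key z z' hne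
  have hm : ∀ l : Fin 5, (l = z ∨ l = z + 1 ∨ l = z' ∨ l = z' + 1) → r l = some true := by
    rintro l (rfl | rfl | rfl | rfl) <;> assumption
  exact hg.2.2.1 i ⟨hm _ k1, hm _ k2, hm _ k3⟩

theorem BFin.hi_over (H : BFin x G W s) {k : ℕ} (hk : k ≠ 0)
    (h : hi k (hub (G ∪ W) H0 (V0 k))) : Over (G ∪ W) 0 H0 := by
  obtain ⟨l, rfl⟩ : ∃ l, k = l + 1 := ⟨k - 1, by omega⟩
  refine Or.inr ⟨V0, l, H.valid l, Or.inl ⟨V0 (l + 1), out_V0 l, ?_, h⟩⟩
  rw [V0_val, V0_val]; exact H.xr l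

theorem BFin.hiX_rr (H : BFin x G W s) {k l : ℕ} (hkl : k + 2 ≤ l)
    (h : adj (G ∪ W) (k + 13) (l + 13)) : HiX (G ∪ W) := by
  refine Or.inr (Or.inl (Or.inr ⟨V0, k, H.valid k, Or.inr ⟨V0 (k + 1), V0 l, ?_, out_V0 k, ?_, ?_, h⟩⟩))
  · rw [V0_val, V0_val]; omega
  · refine ⟨?_, fun i e => ?_, fun j hj e => ?_⟩
    · rw [V0_val]; omega
    · have := H0_lt i
      rw [V0_val] at e; omega
    · rw [V0_val, V0_val] at e; omega
  · rw [V0_val, V0_val]; exact H.xr k

theorem BFin.hiX_rh (H : BFin x G W s) {k : ℕ} {i : Fin 12} (hlo : ∀ t, HasTwo (s t))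
    (hw : ∀ t j, gp t j ∈ W → s t j = none)
    {e : Pair} (he : e ∈ W) (he1 : e.1 = s(k + 13, H0 i)) (hnt : ¬ fixg x k i) :
    HiX (G ∪ W) := by
  have hk0 : k ≠ 0 := fun h => hnt (Or.inl h)
  have hm : i ∈ hub (G ∪ W) H0 (V0 k) := ⟨e, Or.inr he, he1⟩
  obtain ⟨l, hl⟩ : ∃ l, k = l + 1 := ⟨k - 1, by omega⟩
  have hok := H.ok l
  rw [← hl] at hok
  refine Or.inr (Or.inl (H.hi_over hk0 ?_))
  by_cases hk : k < 26
  · exact Or.inl ⟨hk, hok.1 hk, i, hm, fun hn => hnt (Or.inr (Or.inl ⟨hk, hn⟩))⟩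
  · obtain ⟨t, rfl⟩ : ∃ t, k = 26 + t := ⟨k - 26, by omega⟩
    refine Or.inr ⟨by omega, ?_⟩
    by_cases hal : allowed (26 + t) i
    · right
      rcases hal with ⟨j, hj⟩ | ⟨hp, h10⟩
      · left
        have hgp : e = gp t j := by
          apply Subtype.ext
          rw [he1, hj, cl_add, show 26 + t + 13 = t + 39 by ring]
          rfl
        have hnone : HasNone (s t) := ⟨j, hw t j (by rw [← hgp]; exact he)⟩
        obtain ⟨i', h1, h2, h3⟩ := good_triple _ (H.f3 t) hnone (hlo t)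
        refine ⟨i', ?_, ?_, ?_⟩
        · show adj _ _ _
          rw [cl_add, V0_val, show 26 + t + 13 = t + 39 by ring]
          exact H.xg h1
        · show adj _ _ _
          rw [cl_add, V0_val, show 26 + t + 13 = t + 39 by ring]
          exact H.xg h2
        · show adj _ _ _
          rw [cl_add, V0_val, show 26 + t + 13 = t + 39 by ring]
          exact H.xg h3
      · right
        refine ⟨hp, ?_⟩
        have hi12 := i.2
        rcases (show (i : ℕ) = 10 ∨ (i : ℕ) = 11 by omega) with h | h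
        · have hi10 : i = 10 := Fin.ext h
          subst hi10
          refine ⟨hm, ?_⟩
          show adj _ _ _
          rw [V0_val]
          refine H.xf (Or.inr (Or.inr ⟨by omega, hp, Or.inr ⟨rfl, ?_⟩⟩))
          by_contra hx
          exact hnt (Or.inr (Or.inr ⟨by omega, hp, Or.inl ⟨rfl, by simpa using hx⟩⟩))
        · have hi11 : i = 11 := Fin.ext h
          subst hi11
          refine ⟨?_, hm⟩
          show adj _ _ _
          rw [V0_val]
          refine H.xf (Or.inr (Or.inr ⟨by omega, hp, Or.inl ⟨rfl, ?_⟩⟩))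
          by_contra hx
          exact hnt (Or.inr (Or.inr ⟨by omega, hp, Or.inr ⟨rfl, by simpa using hx⟩⟩))
    · exact Or.inl ⟨i, hm, hal⟩

theorem BFin.hiX (H : BFin x G W s) (hlo : ∀ t, HasTwo (s t))
    (hw : ∀ t j, gp t j ∈ W → s t j = none) {e : Pair} (he : e ∈ W) (hnt : ¬ tgt x e) :
    HiX (G ∪ W) := by
  obtain ⟨a, b, hab, rfl⟩ := exists_pr e
  have hadj : adj (G ∪ W) a b := ⟨_, Or.inr he, rfl⟩
  by_cases ha : a = 0
  · subst ha
    rcases dec_vertex hab.symm with ⟨i, rfl⟩ | ⟨k, rfl⟩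
    · exact Or.inr (Or.inr ⟨i, hadj⟩)
    · exact absurd (Or.inl ⟨k, rfl⟩) hnt
  · by_cases hb : b = 0
    · subst hb
      rcases dec_vertex hab with ⟨i, rfl⟩ | ⟨k, rfl⟩
      · exact Or.inr (Or.inr ⟨i, adj_symm hadj⟩)
      · exact absurd (Or.inl ⟨k, Sym2.eq_swap⟩) hnt
    · rcases dec_vertex ha with ⟨i, rfl⟩ | ⟨k, rfl⟩ <;> rcases dec_vertex hb with ⟨j, rfl⟩ | ⟨l, rfl⟩
      · left
        refine ⟨13, H0 i, H0 j, by omega, ha, hb, ?_, hadj, ?_⟩
        · exact H.xf (k := 0) (Or.inl rfl)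
        · exact H.xf (k := 0) (Or.inl rfl)
      · refine H.hiX_rh (k := l) (i := i) hlo hw he Sym2.eq_swap (fun hf => hnt ?_)
        exact Or.inr (Or.inr ⟨l, i, Sym2.eq_swap, hf⟩)
      · refine H.hiX_rh (k := k) (i := j) hlo hw he rfl (fun hf => hnt ?_)
        exact Or.inr (Or.inr ⟨k, j, rfl, hf⟩)
      · rcases lt_trichotomy k l with h | h | h
        · by_cases h2 : l = k + 1
          · subst h2
            exact absurd (Or.inr (Or.inl ⟨k, rfl⟩)) hnt
          · exact H.hiX_rr (by omega) hadj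
        · exact absurd (by rw [h]) hab
        · by_cases h2 : k = l + 1
          · subst h2
            exact absurd (Or.inr (Or.inl ⟨l, Sym2.eq_swap⟩)) hnt
          · exact H.hiX_rr (by omega) (adj_symm hadj)

theorem not_seekerWins {S : Set Gr} {q : ℕ → Pair} {c : ℕ → Bool} (h1 : greens q c ∉ S)
    (h2 : greens q c ∪ whites q ∈ S) : ¬ SeekerWins S q c := by
  rintro ⟨_, h | h⟩
  · exact h1 (h _ subset_rfl Set.subset_union_left)
  · exact h _ Set.subset_union_left subset_rfl h2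

theorem bfin_of_play {σ : Hist → Pair} {x : ℕ → Bool} (hq : Function.Injective (pq σ x)) :
    BFin x (greens (pq σ x) (pc σ x)) (whites (pq σ x)) (fin (pq σ x) (pc σ x)) := by
  refine ⟨?_, ?_, ?_, ?_, ?_⟩
  · intro e he
    by_cases hw : e ∈ whites (pq σ x)
    · exact Or.inr hw
    · simp only [whites, Set.mem_ofPred_eq, not_forall, not_not] at hw
      obtain ⟨n, hn⟩ := hw
      refine Or.inl ⟨n, hn, ?_⟩
      rw [pc, hn, resp_iff]
      exact Or.inr he
  · rintro e ⟨n, hn, hc⟩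
    rw [pc, hn, resp_iff] at hc
    rcases hc with ⟨t, i, h, _⟩ | h
    · exact Or.inl ⟨t, i, h⟩
    · exact Or.inr h
  · intro t
    obtain ⟨N, hN⟩ := fin_eq (σ := σ) (x := x) t
    rw [← hN]
    exact good_play hq N t
  · intro t i
    unfold fin
    split_ifs with h1 h2
    · simp [h1]
    · simp [h1]
    · simp [h1]
  · intro t i
    unfold fin
    split_ifs with h1 h2
    · simp [h1]
    · simp [h2]
    · simp [h1, h2]

theorem seeker_side (σ : Hist → Pair) (x : ℕ → Bool) :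
    ∃ (z : ℕ → Fin 5) (pol : Bool), ∀ A : Set Code, ((z, x) ∈ A ↔ pol = true) →
      ¬ SeekerStrategyWins (SS A) σ := by
  have hfollow : ∀ n, pq σ x n = σ (hist (pq σ x) (pc σ x) n) := fun n => by
    rw [hist_play]; rfl
  by_cases hq : Function.Injective (pq σ x)
  swap
  · exact ⟨fun _ => 0, true, fun A _ hw => hq (hw _ _ hfollow).1⟩
  have H := bfin_of_play hq
  set G := greens (pq σ x) (pc σ x) with hG
  set W := whites (pq σ x) with hW
  set s := fin (pq σ x) (pc σ x) with hs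
  by_cases hlo : (∀ e, tgt x e → e ∈ G) ∧ ∀ t, HasTwo (s t)
  · choose z hz using hlo.2
    refine ⟨z, false, fun A hA hw => ?_⟩
    obtain ⟨_, hwin⟩ := hw _ _ hfollow
    obtain ⟨e, he⟩ := hwin.1
    have hdisj : ∀ e ∈ W, e ∉ G := fun e he he2 => by
      obtain ⟨n, hn, _⟩ := he2
      exact he n hn
    have hwn : ∀ t j, gp t j ∈ W → s t j = none := by
      intro t j h
      have h1 : gp t j ∉ G := hdisj _ h
      have h1' : gp t j ∉ greens (pq σ x) (pc σ x) := h1
      have h' : gp t j ∈ whites (pq σ x) := h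
      simp [hs, fin, h1', h']
    have hhi := H.hiX hlo.2 hwn he (fun ht => hdisj e he (hlo.1 e ht))
    refine not_seekerWins (S := SS A) ?_ (H.mem_of_hi hhi A) hwin
    intro hmem
    obtain ⟨z', b, h1, h2, h3⟩ := H.code_of_mem hmem
    obtain ⟨rfl, _, h4⟩ := H.full_data h2 h3
    have hzz : z' = z := by
      funext t
      exact good_two_unique (H.f3 t) (h4 t).1 (h4 t).2 (hz t).1 (hz t).2
    rw [hzz] at h1
    have := hA.1 h1
    exact absurd this (by decide)
  · have hlack : ∀ A, G ∉ SS A := by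
      intro A hmem
      obtain ⟨z', b, h1, h2, h3⟩ := H.code_of_mem hmem
      obtain ⟨_, h5, h4⟩ := H.full_data h2 h3
      exact hlo ⟨h5, fun t => ⟨z' t, (h4 t).1, (h4 t).2⟩⟩
    choose z hz using fun t => good_pair _ (H.f3 t)
    refine ⟨z, true, fun A hA hw => ?_⟩
    obtain ⟨_, hwin⟩ := hw _ _ hfollow
    exact not_seekerWins (S := SS A) (hlack A) (H.mem_of_code hz (hA.2 rfl)) hwin

end Pool.Agent.Lib.MP_3d6d95_lc
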