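import Pool.Agent.Lib.MP_3d6d95_lc.Tree
import Pool.Agent.Lib.MP_3d6d95_lc.SeekerThm

/-!
Diagonalisation against all strategies.
-/

namespace Pool.Agent.Lib.MP_3d6d95_lc

open Cardinal

/-- Distinct representatives for at most `#X` many injective families indexed by `X`. -/
theorem sdr {I X Z : Type} (hI : #I ≤ #X) (f : I → X → Z) (hf : ∀ i, Function.Injective (f i)) :
    ∃ x : I → X, Function.Injective (fun i => f i (x i)) := by
  classical
  obtain ⟨r, wo, hr⟩ := Cardinal.exists_ord_eq I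
  have step : ∀ (i : I) (g : ∀ j, r j i → X), ∃ x, ∀ j (h : r j i), f i x ≠ f j (g j h) := by
    intro i g
    by_contra hcon
    push Not at hcon
    choose J hJ1 hJ2 using hcon
    have hinj : Function.Injective (fun x : X => (⟨J x, hJ1 x⟩ : {j // r j i})) := by
      intro x x' he
      have h1 : J x = J x' := congrArg Subtype.val he
      apply hf i
      rw [hJ2 x, hJ2 x']
      have : ∀ j j' (e : j = j') (h : r j i) (h' : r j' i), f j (g j h) = f j' (g j' h') := by
        rintro j _ rfl h h'; rfl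
      exact this _ _ h1 _ _
    have h1 : #X ≤ #{j // r j i} := Cardinal.mk_le_of_injective hinj
    have h2 : #{j // r j i} < #I := Cardinal.card_typein_lt (r := r) i hr
    exact absurd (lt_of_le_of_lt (hI.trans h1) h2) (lt_irrefl _)
  choose G hG using step
  have wf : WellFounded r := wo.wf
  let x : I → X := wf.fix (fun i g => G i g)
  have hx : ∀ i j, r j i → f i (x i) ≠ f j (x j) := by
    intro i j hji
    have h1 : x i = G i (fun j _ => x j) := wf.fix_eq _ i
    rw [h1]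
    exact hG i (fun j _ => x j) j hji
  refine ⟨x, fun i j he => ?_⟩
  rcases trichotomous_of r i j with h | h | h
  · exact absurd he.symm (hx j i h)
  · exact h
  · exact absurd he (hx i j h)

theorem card_strat : #((Hist → Pair) ⊕ (Hist → Pair → Bool)) ≤ #(ℕ → Bool) := by
  have h1 : #(ℕ → Bool) = 𝔠 := by simp
  rw [h1, Cardinal.mk_sum]
  simp only [Cardinal.lift_id]
  have h2 : #(Hist → Pair) ≤ 𝔠 := by
    rw [← Cardinal.power_def]
    have ha : #Pair ≤ ℵ₀ := Cardinal.mk_le_aleph0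
    have hb : #Hist ≤ ℵ₀ := Cardinal.mk_le_aleph0
    calc #Pair ^ #Hist ≤ ℵ₀ ^ #Hist := Cardinal.power_le_power_right ha
      _ ≤ ℵ₀ ^ ℵ₀ := Cardinal.power_le_power_left Cardinal.aleph0_ne_zero hb
      _ = 𝔠 := Cardinal.aleph0_power_aleph0
  have h3 : #(Hist → Pair → Bool) ≤ 𝔠 := by
    have : #(Hist → Pair → Bool) = #(Hist × Pair → Bool) :=
      Cardinal.mk_congr (Equiv.curry _ _ _).symm
    rw [this, ← Cardinal.power_def]
    have hb : #(Hist × Pair) ≤ ℵ₀ := Cardinal.mk_le_aleph0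
    calc #Bool ^ #(Hist × Pair) ≤ #Bool ^ ℵ₀ := by
          refine Cardinal.power_le_power_left (by simp) hb
      _ = 𝔠 := by simp
  calc #(Hist → Pair) + #(Hist → Pair → Bool) ≤ 𝔠 + 𝔠 := add_le_add h2 h3
    _ = 𝔠 := Cardinal.continuum_add_self

theorem undetermined : ∃ A : Set Code, ¬ Determined (SS A) := by
  classical
  choose z pol hz using seeker_side
  choose g hg1 hg2 using hider_side
  let f : (Hist → Pair) ⊕ (Hist → Pair → Bool) → (ℕ → Bool) → Code := fun i x =>
    Sum.elim (fun σ => (z σ x, x)) (fun τ => g τ x) i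
  have hf : ∀ i, Function.Injective (f i) := by
    rintro (σ | τ) x x' he
    · exact (Prod.mk.inj he).2
    · exact hg1 τ he
  obtain ⟨x, hx⟩ := sdr card_strat f hf
  let A : Set Code := {a | ∃ σ, a = f (Sum.inl σ) (x (Sum.inl σ)) ∧ pol σ (x (Sum.inl σ)) = true}
  refine ⟨A, ?_⟩
  rintro (⟨σ, hσ⟩ | ⟨τ, hτ⟩)
  · refine hz σ (x (Sum.inl σ)) A ⟨?_, fun h => ⟨σ, rfl, h⟩⟩ hσ
    rintro ⟨σ', h1, h2⟩
    have h3 := hx (a₁ := Sum.inl σ) (a₂ := Sum.inl σ') h1
    have h4 : σ = σ' := Sum.inl.inj h3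
    rw [h4]; exact h2
  · refine hg2 τ (x (Sum.inr τ)) A ?_ hτ
    rintro ⟨σ', h1, _⟩
    have h3 := hx (a₁ := Sum.inr τ) (a₂ := Sum.inl σ') h1
    exact absurd h3 (by simp)

end Pool.Agent.Lib.MP_3d6d95_lc
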