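import Pool.Agent.Lib.MP_3d6d95_lc.Game

/-!
The gadget on five cyclically ordered elements: good states for Hider.
-/

namespace Pool.Agent.Lib.MP_3d6d95_lc

/-- States of the gadget from which Hider can keep the block undecided. -/
def Good (s : Fin 5 → Option Bool) : Prop :=
  (∀ z, s z = some true → s (z + 1) = some true → s (z + 3) ≠ none) ∧
  (∀ i, s i = some false → s (i + 2) = some false → s (i + 1) ≠ none) ∧
  (∀ z, ¬ (s z = some true ∧ s (z + 1) = some true ∧ s (z + 2) = some true)) ∧
  (∀ i, ¬ (s i = none ∧ s (i + 1) = some true ∧ s (i + 4) = some true ∧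
    s (i + 2) = some false ∧ s (i + 3) = some false)) ∧
  ((∀ i, s i ≠ none) → ∃ i, s i = some true ∧ s (i + 1) = some true)

instance (s : Fin 5 → Option Bool) : Decidable (Good s) := by
  unfold Good; infer_instance

theorem five_ext (s : Fin 5 → Option Bool) : s = ![s 0, s 1, s 2, s 3, s 4] := by
  funext i; fin_cases i <;> rfl

theorem good_none : Good (fun _ => none) := by decide

theorem good_step_aux : ∀ (a b c d e : Option Bool) (i : Fin 5),
    Good ![a, b, c, d, e] → ![a, b, c, d, e] i = none →
    Good (Function.update ![a, b, c, d, e] i (some true)) ∨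
      Good (Function.update ![a, b, c, d, e] i (some false)) := by
  decide +kernel

theorem good_step (s : Fin 5 → Option Bool) (i : Fin 5) (hs : Good s) (hi : s i = none) :
    Good (Function.update s i (some true)) ∨ Good (Function.update s i (some false)) := by
  rw [five_ext s] at hs hi ⊢
  exact good_step_aux _ _ _ _ _ i hs hi

theorem good_pair_aux : ∀ (a b c d e : Option Bool),
    Good ![a, b, c, d, e] →
    ∃ i, ![a, b, c, d, e] i ≠ some false ∧ ![a, b, c, d, e] (i + 1) ≠ some false := by
  decide +kernel

theorem good_pair (s : Fin 5 → Option Bool) (hs : Good s) :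
    ∃ i, s i ≠ some false ∧ s (i + 1) ≠ some false := by
  rw [five_ext s] at hs ⊢
  exact good_pair_aux _ _ _ _ _ hs

def HasNone (s : Fin 5 → Option Bool) : Prop := ∃ j, s j = none

def HasTwo (s : Fin 5 → Option Bool) : Prop := ∃ z, s z = some true ∧ s (z + 1) = some true

def HasThree (s : Fin 5 → Option Bool) : Prop :=
  ∃ i, s i ≠ some false ∧ s (i + 1) ≠ some false ∧ s (i + 2) ≠ some false

instance (s : Fin 5 → Option Bool) : Decidable (HasNone s) := by
  unfold HasNone; infer_instance

instance (s : Fin 5 → Option Bool) : Decidable (HasTwo s) := by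
  unfold HasTwo; infer_instance

instance (s : Fin 5 → Option Bool) : Decidable (HasThree s) := by
  unfold HasThree; infer_instance

theorem good_triple_aux : ∀ (a b c d e : Option Bool),
    Good ![a, b, c, d, e] → HasNone ![a, b, c, d, e] → HasTwo ![a, b, c, d, e] →
    HasThree ![a, b, c, d, e] := by
  decide +kernel

theorem good_triple (s : Fin 5 → Option Bool) (hs : Good s) (hj : HasNone s) (h1 : HasTwo s) :
    HasThree s := by
  rw [five_ext s] at hs hj h1 ⊢
  exact good_triple_aux _ _ _ _ _ hs hj h1

end Pool.Agent.Lib.MP_3d6d95_lc
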