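import Mathlib

/-!
The elusiveness game on graphs with vertex set the natural numbers.
-/

namespace Pool.Agent.Lib.MP_3d6d95_lc

/-- Unordered pairs of distinct natural numbers. -/
abbrev Pair : Type := {e : Sym2 ℕ // ¬ e.IsDiag}

/-- A graph on the natural numbers is a set of pairs. -/
abbrev Gr : Type := Set Pair

/-- The pair obtained by applying a permutation of the vertices. -/
def permPair (π : Equiv.Perm ℕ) (e : Pair) : Pair :=
  ⟨Sym2.map π e.1, fun h => e.2 ((Sym2.isDiag_map π.injective).1 h)⟩

/-- The image of a graph under a permutation of the vertices. -/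
def permGr (π : Equiv.Perm ℕ) (G : Gr) : Gr := permPair π '' G

/-- A graph property: a set of graphs closed under permutations of the vertices. -/
def IsGraphProperty (S : Set Gr) : Prop :=
  ∀ (π : Equiv.Perm ℕ) (G : Gr), G ∈ S → permGr π G ∈ S

/-- A set of graphs is monotone when it is closed under adding pairs. -/
def IsMonotone (S : Set Gr) : Prop :=
  ∀ G H : Gr, G ∈ S → G ⊆ H → H ∈ S

/-- A finite history: the picked pairs with their colours (`true` is green, `false` is red),
the most recent turn first. -/
abbrev Hist : Type := List (Pair × Bool)

/-- The history before turn `n` of the run in which Seeker picks `q 0, q 1, ...`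
and Hider answers `c 0, c 1, ...`. -/
def hist (q : ℕ → Pair) (c : ℕ → Bool) : ℕ → Hist
  | 0 => []
  | n + 1 => (q n, c n) :: hist q c n

/-- The green pairs at the end of a run. -/
def greens (q : ℕ → Pair) (c : ℕ → Bool) : Gr := {e | ∃ n, q n = e ∧ c n = true}

/-- The pairs which are still white at the end of a run. -/
def whites (q : ℕ → Pair) : Gr := {e | ∀ n, q n ≠ e}

/-- The winning condition of Seeker: some pair is still white, and the graphs between the
green graph and the green-or-white graph are all in `S` or all outside `S`. -/
def SeekerWins (S : Set Gr) (q : ℕ → Pair) (c : ℕ → Bool) : Prop :=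
  (whites q).Nonempty ∧
    ((∀ H : Gr, greens q c ⊆ H → H ⊆ greens q c ∪ whites q → H ∈ S) ∨
      (∀ H : Gr, greens q c ⊆ H → H ⊆ greens q c ∪ whites q → H ∉ S))

/-- A strategy of Seeker (a function giving the next pair from the history) is winning if every
run in which Seeker follows it is legal (never picks a pair that is not white) and won by
Seeker. -/
def SeekerStrategyWins (S : Set Gr) (σ : Hist → Pair) : Prop :=
  ∀ (q : ℕ → Pair) (c : ℕ → Bool), (∀ n, q n = σ (hist q c n)) →
    Function.Injective q ∧ SeekerWins S q c

/-- A strategy of Hider (a function giving the colour from the history and the picked pair) is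
winning if every run in which Seeker plays legally and Hider follows it is not won by Seeker. -/
def HiderStrategyWins (S : Set Gr) (τ : Hist → Pair → Bool) : Prop :=
  ∀ (q : ℕ → Pair) (c : ℕ → Bool), Function.Injective q →
    (∀ n, c n = τ (hist q c n) (q n)) → ¬ SeekerWins S q c

/-- The game of `S` is determined if one of the two players has a winning strategy. -/
def Determined (S : Set Gr) : Prop :=
  (∃ σ : Hist → Pair, SeekerStrategyWins S σ) ∨ (∃ τ : Hist → Pair → Bool, HiderStrategyWins S τ)

end Pool.Agent.Lib.MP_3d6d95_lc
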