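import Pool.Agent.Lib.MP_3d6d95_lc.Runs

/-!
Fixing the apex against a strategy of Hider.
-/

namespace Pool.Agent.Lib.MP_3d6d95_lc

variable {τ : Hist → Pair → Bool}

/-- No run against `τ` is won by Seeker for all sets of codes. -/
def Plaus (τ : Hist → Pair → Bool) : Prop :=
  ∀ q, Function.Injective q → (whites q).Nonempty →
    ∃ A : Set Code, greens q (cc τ q) ∉ SS A ∧ greens q (cc τ q) ∪ whites q ∈ SS A

theorem cc_eq (q : ℕ → Pair) (n : ℕ) : cc τ q n = τ (hist q (cc τ q) n) (q n) := by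
  rw [hist_cc]; rfl

theorem seekerWins_of {S : Set Gr} (hS : IsMonotone S) {q : ℕ → Pair} {c : ℕ → Bool}
    (hw : (whites q).Nonempty) (h : greens q c ∉ S → greens q c ∪ whites q ∉ S) :
    SeekerWins S q c := by
  refine ⟨hw, ?_⟩
  by_cases hg : greens q c ∈ S
  · exact Or.inl (fun H h1 _ => hS _ _ hg h1)
  · exact Or.inr (fun H _ h2 hH => h hg (hS _ _ hH h2))

theorem not_plaus (h : ¬ Plaus τ) (A : Set Code) : ¬ HiderStrategyWins (SS A) τ := by
  unfold Plaus at h
  push Not at h
  obtain ⟨q, hq, hw, h⟩ := h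
  intro hwin
  exact hwin q (cc τ q) hq (cc_eq q) (seekerWins_of (SS_isMonotone A) hw (h A))

theorem stabilize {ι : Type} (s : Finset ι) (P : ι → List Pair → Prop)
    (mono : ∀ i p p', p <:+ p' → P i p → P i p') {p1 : List Pair} (h1 : p1.Nodup) :
    ∃ p0, p1 <:+ p0 ∧ p0.Nodup ∧ ∀ i ∈ s, P i p0 ∨ ∀ p, p0 <:+ p → p.Nodup → ¬ P i p := by
  classical
  induction s using Finset.induction_on with
  | empty => exact ⟨p1, List.suffix_rfl, h1, by simp⟩
  | insert a s _ ih =>
    obtain ⟨p0, h2, h3, h4⟩ := ih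
    by_cases h : ∃ p, p0 <:+ p ∧ p.Nodup ∧ P a p
    · obtain ⟨p, h5, h6, h7⟩ := h
      refine ⟨p, h2.trans h5, h6, fun i hi => ?_⟩
      rcases Finset.mem_insert.1 hi with rfl | hi
      · exact Or.inl h7
      · exact (h4 i hi).imp (mono _ _ _ h5) (fun h8 p' h9 => h8 p' (h5.trans h9))
    · push Not at h
      refine ⟨p0, h2, h3, fun i hi => ?_⟩
      rcases Finset.mem_insert.1 hi with rfl | hi
      · exact Or.inr (fun p h5 h6 => h p h5 h6)
      · exact h4 i hi

def Tri (X : Gr) : Prop := ∃ x y z, adj X x y ∧ adj X y z ∧ adj X x z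

theorem Tri.mono {X Y : Gr} (h : X ⊆ Y) (H : Tri X) : Tri Y := by
  obtain ⟨x, y, z, h1, h2, h3⟩ := H
  exact ⟨x, y, z, adj_mono h h1, adj_mono h h2, adj_mono h h3⟩

theorem tri_compact {X : Gr} (H : Tri X) : ∃ M, Tri (restr X M) := by
  obtain ⟨x, y, z, h4, h5, h6⟩ := H
  exact ⟨x + y + z + 1, x, y, z, adj_restr h4 (by omega) (by omega),
    adj_restr h5 (by omega) (by omega), adj_restr h6 (by omega) (by omega)⟩

theorem greens_restr {q : ℕ → Pair} (M N : ℕ) :
    ∃ n ≥ N, restr (greens q (cc τ q)) M ⊆ grn τ (pos q n) :=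
  greens_finite (restr_finite _ M) (restr_subset _ _) N

def reds (τ : Hist → Pair → Bool) (q : ℕ → Pair) : Gr := {e | ∃ n, e ∈ red τ (pos q n)}

theorem red_sub_reds {q : ℕ → Pair} (n : ℕ) : red τ (pos q n) ⊆ reds τ q := fun _ h => ⟨n, h⟩

theorem reds_nbrs {q : ℕ → Pair} {a : ℕ} (T : Finset ℕ) (h : ∀ w ∈ T, adj (reds τ q) a w)
    (N : ℕ) : ∃ n ≥ N, ∀ w ∈ T, adj (red τ (pos q n)) a w := by
  classical
  induction T using Finset.induction_on with
  | empty => exact ⟨N, le_rfl, by simp⟩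
  | insert b T _ ih =>
    obtain ⟨n, hn, h1⟩ := ih (fun w hw => h w (Finset.mem_insert_of_mem hw))
    obtain ⟨e, ⟨m, he⟩, he2⟩ := h b (Finset.mem_insert_self _ _)
    refine ⟨max n m, by omega, fun w hw => ?_⟩
    rcases Finset.mem_insert.1 hw with rfl | hw
    · exact ⟨e, red_mono (pos_suffix (le_max_right _ _)) he, he2⟩
    · exact adj_mono (red_mono (pos_suffix (le_max_left _ _))) (h1 w hw)

theorem not_adj_union {q : ℕ → Pair} (hq : Function.Injective q) {a w n : ℕ}
    (h : adj (red τ (pos q n)) a w) : ¬ adj (greens q (cc τ q) ∪ whites q) a w := by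
  rintro ⟨e, he, h1⟩
  obtain ⟨e', he', h2⟩ := h
  have : e = e' := Subtype.ext (by rw [h1, h2])
  subst this
  exact (mem_union_iff hq).1 he n he'

theorem exists_fresh (p : List Pair) (a M : ℕ) : ∃ b, M ≤ b ∧ ∃ h : a ≠ b, pr a b h ∉ p := by
  have hinj : Function.Injective (fun n : ℕ => pr a (a + M + 1 + n) (by omega)) := by
    intro m n h
    simp only [pr_eq_iff] at h
    omega
  have hinf := Set.infinite_range_of_injective hinj
  obtain ⟨e, ⟨n, rfl⟩, he⟩ := (hinf.sdiff (List.finite_toSet p)).nonempty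
  exact ⟨a + M + 1 + n, by omega, by omega, he⟩

theorem rr_card {A : Set Code} {X : Gr} {a : ℕ} (H : RR A X a) (T : Finset ℕ)
    (hT : ∀ w ∈ T, w ≠ a ∧ ¬ adj X a w) : T.card ≤ 12 := by
  classical
  obtain ⟨h, h1, _, h3, _⟩ := H
  have : T ⊆ Finset.univ.image h := by
    intro w hw
    obtain ⟨h4, h5⟩ := hT w hw
    by_contra hne
    apply h5
    refine h3 w h4 (fun i hi => hne ?_)
    rw [Finset.mem_image]
    exact ⟨i, Finset.mem_univ _, hi.symm⟩
  calc T.card ≤ (Finset.univ.image h).card := Finset.card_le_card this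
    _ ≤ (Finset.univ : Finset (Fin 12)).card := Finset.card_image_le
    _ = 12 := by simp

theorem adj_union_single {X : Gr} {e : Pair} {a b u w : ℕ} (he : e.1 = s(a, b))
    (h : adj (X ∪ {e}) u w) : adj X u w ∨ (u = a ∧ w = b) ∨ (u = b ∧ w = a) := by
  obtain ⟨e', h1 | h1, h2⟩ := h
  · exact Or.inl ⟨e', h1, h2⟩
  · right
    rw [Set.mem_singleton_iff] at h1
    subst h1
    rw [he, Sym2.eq_iff] at h2
    omega

theorem nn_union_single {X : Gr} {e : Pair} {a b : ℕ} (he : e.1 = s(a, b))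
    (h : NN (X ∪ {e}) a) : NN X a := by
  obtain ⟨x, y, z, h1, h2, h3, h4, h5, h6⟩ := h
  refine ⟨x, y, z, h1, h2, h3, ?_, ?_, ?_⟩
  · rcases adj_union_single he h4 with h | h | h
    · exact h
    · omega
    · omega
  · rcases adj_union_single he h5 with h | h | h
    · exact h
    · omega
    · omega
  · rcases adj_union_single he h6 with h | h | h
    · exact h
    · omega
    · omega

/-- A run through `p` leaving exactly the pair `e` white. -/
theorem run_single {p : List Pair} (hp : p.Nodup) {e : Pair} (he : e ∉ p) :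
    ∃ q : ℕ → Pair, Function.Injective q ∧ (∃ n, pos q n = p) ∧ whites q = {e} := by
  refine run_white hp ?_ (compl_infinite (Set.finite_singleton e))
  rintro e' he' rfl
  exact he he'

/-- A vertex which is never killed has at most twelve red neighbours. -/
theorem no_thirteen (hP : Plaus τ) {p : List Pair} (hp : p.Nodup) {a : ℕ}
    (hk : ∀ p', p <:+ p' → p'.Nodup → ¬ NN (grn τ p') a) (T : Finset ℕ)
    (hT : ∀ w ∈ T, adj (red τ p) a w) : T.card ≤ 12 := by
  obtain ⟨b, _, hab, hb⟩ := exists_fresh p a 0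
  obtain ⟨q, hq, ⟨n, hn⟩, hw⟩ := run_single hp hb
  obtain ⟨A, _, hA⟩ := hP q hq (by rw [hw]; exact Set.singleton_nonempty _)
  rcases hA a with h | h
  · exfalso
    rw [hw] at h
    obtain ⟨M, hM⟩ := nn_compact (nn_union_single (b := b) rfl h)
    obtain ⟨m, hm, hm2⟩ := greens_restr (τ := τ) (q := q) M n
    refine hk (pos q m) ?_ (pos_nodup hq m) (hM.mono hm2)
    rw [← hn]; exact pos_suffix hm
  · refine rr_card h T (fun w hw' => ?_)
    have h1 := hT w hw'
    rw [← hn] at h1
    exact ⟨(adj_ne h1).symm, not_adj_union hq h1⟩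

theorem exists_triangle (hP : Plaus τ) : ∃ p : List Pair, p.Nodup ∧ Tri (grn τ p) := by
  classical
  by_contra hno
  push Not at hno
  obtain ⟨q, hq, _, hw⟩ := run_white (p := []) List.nodup_nil (W0 := ∅) (by simp)
    (compl_infinite Set.finite_empty)
  have hG : ¬ Tri (greens q (cc τ q)) := by
    intro h
    obtain ⟨M, hM⟩ := tri_compact h
    obtain ⟨m, _, hm2⟩ := greens_restr (τ := τ) (q := q) M 0
    exact hno _ (pos_nodup hq m) (hM.mono hm2)
  have hall : ∀ u w, u ≠ w → ¬ adj (reds τ q) u w → adj (greens q (cc τ q)) u w := by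
    intro u w huw hr
    rw [adj_iff_pr huw]
    have : pr u w huw ∈ greens q (cc τ q) ∪ whites q := by
      rw [mem_union_iff hq]
      intro n hn
      exact hr ((adj_iff_pr huw).2 ⟨n, hn⟩)
    rw [hw] at this
    rcases this with h | h
    · exact h
    · exact absurd h (by simp)
  have hinf : ∃ u, {w | adj (reds τ q) u w}.Infinite := by
    by_contra hfin
    push Not at hfin
    have h0 := hfin 0
    obtain ⟨y, hy⟩ := (h0.union (Set.finite_singleton 0)).exists_notMem
    have h1 := hfin y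
    obtain ⟨w, hw'⟩ := ((h0.union h1).union ((Set.finite_singleton 0).union
      (Set.finite_singleton y))).exists_notMem
    simp only [Set.mem_union, Set.mem_singleton_iff, not_or] at hy hw'
    exact hG ⟨0, y, w, hall 0 y (Ne.symm hy.2) hy.1, hall y w (Ne.symm hw'.2.2) hw'.1.2,
      hall 0 w (Ne.symm hw'.2.1) hw'.1.1⟩
  obtain ⟨u, hu⟩ := hinf
  obtain ⟨T, hT1, hT2⟩ := hu.exists_subset_card_eq 13
  obtain ⟨N, _, hN⟩ := reds_nbrs (τ := τ) (q := q) (a := u) T (fun w hw => hT1 hw) 0
  have := no_thirteen hP (pos_nodup hq N) (a := u) (fun p' _ hp' h => ?_) T hN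
  · omega
  · obtain ⟨x, y, z, _, _, _, h4, h5, h6⟩ := h
    exact hno p' hp' ⟨x, y, z, h4, h5, h6⟩

structure Base (τ : Hist → Pair → Bool) (p0 : List Pair) (c : ℕ) (T : Finset ℕ) : Prop where
  nd : p0.Nodup
  card : T.card = 12
  redT : ∀ w ∈ T, adj (red τ p0) c w
  red_only : ∀ p, p0 <:+ p → p.Nodup → ∀ w, adj (red τ p) c w → w ∈ T
  nkill : ∀ p, p0 <:+ p → p.Nodup → ¬ NN (grn τ p) c
  nover : ∀ p, p0 <:+ p → p.Nodup → ∀ h : Fin 12 → ℕ, Function.Injective h →
    Set.range h = (T : Set ℕ) → ¬ Over (grn τ p) c h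

def RC (τ : Hist → Pair → Bool) (i : ℕ × ℕ) (p : List Pair) : Prop :=
  ∃ T : Finset ℕ, T.card = i.2 ∧ ∀ w ∈ T, adj (red τ p) i.1 w

def OverH (τ : Hist → Pair → Bool) (a : ℕ) (p : List Pair) : Prop :=
  ∃ h : Fin 12 → ℕ, Function.Injective h ∧ (∀ i, adj (red τ p) a (h i)) ∧ Over (grn τ p) a h

theorem exists_enum (T : Finset ℕ) (hT : T.card = 12) :
    ∃ h : Fin 12 → ℕ, Function.Injective h ∧ Set.range h = (T : Set ℕ) := by
  refine ⟨fun i => T.orderEmbOfFin hT i, (T.orderEmbOfFin hT).injective, ?_⟩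
  exact Finset.range_orderEmbOfFin T hT

theorem exists_base (hP : Plaus τ) : ∃ p0 c T, Base τ p0 c T := by
  classical
  obtain ⟨p1, hp1, x, y, z, t1, t2, t3⟩ := exists_triangle hP
  obtain ⟨p2, h12, hp2, hs2⟩ := stabilize ({x, y, z} : Finset ℕ)
    (fun a p => NN (grn τ p) a) (fun i p p' h H => H.mono (grn_mono h)) hp1
  obtain ⟨p3, h23, hp3, hs3⟩ := stabilize (({x, y, z} : Finset ℕ) ×ˢ Finset.range 14)
    (RC τ) (fun i p p' h H => by
      obtain ⟨T, h1, h2⟩ := H
      exact ⟨T, h1, fun w hw => adj_mono (red_mono h) (h2 w hw)⟩) hp2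
  obtain ⟨p4, h34, hp4, hs4⟩ := stabilize ({x, y, z} : Finset ℕ)
    (OverH τ) (fun i p p' h H => by
      obtain ⟨g, h1, h2, h3⟩ := H
      exact ⟨g, h1, fun w => adj_mono (red_mono h) (h2 w), h3.mono (grn_mono h)⟩) hp3
  have hp14 : p1 <:+ p4 := (h12.trans h23).trans h34
  have hp24 : p2 <:+ p4 := h23.trans h34
  -- killed vertices
  have hk : ∀ a ∈ ({x, y, z} : Finset ℕ), ¬ NN (grn τ p4) a →
      ∀ p, p4 <:+ p → p.Nodup → ¬ NN (grn τ p) a := by
    intro a ha hna p hp hnd
    rcases hs2 a ha with h | h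
    · exact absurd (h.mono (grn_mono hp24)) hna
    · exact h p (hp24.trans hp) hnd
  by_contra hno
  push Not at hno
  have c1 : ∀ a ∈ ({x, y, z} : Finset ℕ), ¬ NN (grn τ p4) a → ∀ p, p4 <:+ p → p.Nodup →
      ∀ T : Finset ℕ, (∀ w ∈ T, adj (red τ p) a w) → T.card ≤ 12 := by
    intro a ha hna p hp hnd T hT
    exact no_thirteen hP hnd (fun p' h1 h2 => hk a ha hna p' (hp.trans h1) h2) T hT
  have c2 : ∀ a ∈ ({x, y, z} : Finset ℕ), ¬ NN (grn τ p4) a →
      (∀ p, p4 <:+ p → p.Nodup → ¬ RC τ (a, 12) p) ∨ OverH τ a p4 := by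
    intro a ha hna
    rcases hs3 (a, 12) (by simp only [Finset.mem_product, Finset.mem_range]; exact ⟨ha, by omega⟩) with h | h
    · obtain ⟨T, hT1, hT2⟩ := h
      rcases hs4 a ha with h' | h'
      · exact Or.inr h'
      · exfalso
        refine hno p4 a T ⟨hp4, hT1, fun w hw => adj_mono (red_mono h34) (hT2 w hw), ?_,
          hk a ha hna, ?_⟩
        · intro p hp hnd w hw
          by_contra hwT
          have := c1 a ha hna p hp hnd (insert w T) (fun u hu => by
            rcases Finset.mem_insert.1 hu with rfl | hu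
            · exact hw
            · exact adj_mono (red_mono (h34.trans hp)) (hT2 u hu))
          rw [Finset.card_insert_of_notMem hwT, hT1] at this
          omega
        · intro p hp hnd g hg1 hg2 hov
          refine h' p hp hnd ⟨g, hg1, fun i => ?_, hov⟩
          have : g i ∈ (T : Set ℕ) := by rw [← hg2]; exact ⟨i, rfl⟩
          exact adj_mono (red_mono (h34.trans hp)) (hT2 _ this)
    · exact Or.inl (fun p hp hnd => h p (h34.trans hp) hnd)
  -- the run asking exactly the pairs which meet the triangle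
  obtain ⟨q, hq, ⟨n0, hn0⟩, hw⟩ := run_white hp4
    (W0 := {e | e ∉ p4 ∧ ∀ v ∈ e.1, v ∉ ({x, y, z} : Finset ℕ)}) (fun e he h => h.1 he) (by
      have hinj : Function.Injective (fun n : ℕ => pr x (x + 1 + n) (by omega)) := by
        intro m n h
        simp only [pr_eq_iff] at h
        omega
      refine ((Set.infinite_range_of_injective hinj).sdiff (List.finite_toSet p4)).mono ?_
      rintro e ⟨⟨n, rfl⟩, he⟩
      refine ⟨he, fun h => h.2 x ?_ ?_⟩
      · simp [pr]
      · simp)
  have hne : (whites q).Nonempty := by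
    rw [hw]
    obtain ⟨b, hb, hab, hb2⟩ := exists_fresh p4 (x + y + z + 1) (x + y + z + 1)
    refine ⟨_, hb2, fun v hv => ?_⟩
    simp only [pr, Sym2.mem_iff] at hv
    simp only [Finset.mem_insert, Finset.mem_singleton]
    omega
  obtain ⟨A, hA1, _⟩ := hP q hq hne
  apply hA1
  refine SS_mono (Set.empty_subset A) ?_
  have hg4 : grn τ p4 ⊆ greens q (cc τ q) := by rw [← hn0]; exact grn_sub_greens _
  intro a
  by_cases ha : a ∈ ({x, y, z} : Finset ℕ)
  swap
  · left
    simp only [Finset.mem_insert, Finset.mem_singleton, not_or] at ha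
    have hm : grn τ p1 ⊆ greens q (cc τ q) := (grn_mono hp14).trans hg4
    exact ⟨x, y, z, Ne.symm ha.1, Ne.symm ha.2.1, Ne.symm ha.2.2, adj_mono hm t1, adj_mono hm t2,
      adj_mono hm t3⟩
  by_cases hna : NN (grn τ p4) a
  · exact Or.inl (hna.mono hg4)
  right
  have hsmall : ∀ T : Finset ℕ, (∀ w ∈ T, adj (reds τ q) a w) → T.card ≤ 12 := by
    intro T hT
    obtain ⟨n, hn, h⟩ := reds_nbrs T hT n0
    exact c1 a ha hna _ (by rw [← hn0]; exact pos_suffix hn) (pos_nodup hq n) T h
  have hfin : {w | adj (reds τ q) a w}.Finite := by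
    by_contra hinf
    obtain ⟨T, hT1, hT2⟩ := Set.Infinite.exists_subset_card_eq hinf 13
    have := hsmall T (fun w hw => hT1 hw)
    omega
  have hall : ∀ w, w ≠ a → ¬ adj (reds τ q) a w → adj (greens q (cc τ q)) a w := by
    intro w haw hr
    rw [adj_iff_pr haw.symm]
    have : pr a w haw.symm ∈ greens q (cc τ q) ∪ whites q := by
      rw [mem_union_iff hq]
      intro n hn
      exact hr ((adj_iff_pr haw.symm).2 ⟨n, hn⟩)
    rcases this with h | h
    · exact h
    · rw [hw] at h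
      exact absurd ha (h.2 a (by simp [pr]))
  rcases c2 a ha hna with h12' | ⟨g, hg1, hg2, hg3⟩
  · -- fewer than twelve red neighbours
    set R := hfin.toFinset with hR
    have hRm : ∀ w, w ∈ R ↔ adj (reds τ q) a w := fun w => by
      rw [hR, Set.Finite.mem_toFinset]; rfl
    have hRcard : R.card < 12 := by
      by_contra hge
      obtain ⟨T, hT1, hT2⟩ := Finset.exists_subset_card_eq (show 12 ≤ R.card by omega)
      obtain ⟨n, hn, h⟩ := reds_nbrs T (fun w hw => (hRm w).1 (hT1 hw)) n0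
      exact h12' (pos q n) (by rw [← hn0]; exact pos_suffix hn) (pos_nodup hq n) ⟨T, hT2, h⟩
    have haR : a ∉ R := fun h => adj_ne ((hRm a).1 h) rfl
    obtain ⟨T', hT1, hT2⟩ := Infinite.exists_superset_card_eq (insert a R) 13 (by
      rw [Finset.card_insert_of_notMem haR]; omega)
    have haT' : a ∈ T' := hT1 (Finset.mem_insert_self _ _)
    have hT12 : (T'.erase a).card = 12 := by rw [Finset.card_erase_of_mem haT', hT2]
    obtain ⟨g, hg1, hg2⟩ := exists_enum _ hT12
    have hgm : ∀ w, w ∈ T'.erase a ↔ ∃ i, g i = w := fun w => by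
      rw [← Finset.mem_coe, ← hg2]; rfl
    refine ⟨g, hg1, fun i => ?_, fun u hu hu2 => hall u hu (fun hr => ?_), Or.inl ?_⟩
    · exact Finset.ne_of_mem_erase ((hgm _).2 ⟨i, rfl⟩)
    · have : u ∈ T'.erase a := Finset.mem_erase.2 ⟨hu, hT1 (Finset.mem_insert_of_mem ((hRm u).2 hr))⟩
      obtain ⟨i, hi⟩ := (hgm u).1 this
      exact hu2 i hi.symm
    · by_contra hcon
      push Not at hcon
      have : T'.erase a ⊆ R := by
        intro w hw
        obtain ⟨i, hi⟩ := (hgm w).1 hw
        rw [hRm]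
        by_contra hr
        exact hcon i (by rw [hi]; exact hall w (Finset.ne_of_mem_erase hw) hr)
      have := Finset.card_le_card this
      omega
  · have hg4r : ∀ i, adj (reds τ q) a (g i) := fun i => by
      refine adj_mono ?_ (hg2 i)
      rw [← hn0]; exact red_sub_reds _
    refine ⟨g, hg1, fun i => (adj_ne (hg2 i)).symm, fun u hu hu2 => hall u hu (fun hr => ?_),
      Or.inr (Or.inl (hg3.mono hg4))⟩
    have hcard : (insert u (Finset.univ.image g)).card = 13 := by
      rw [Finset.card_insert_of_notMem, Finset.card_image_of_injective _ hg1]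
      · simp
      · rw [Finset.mem_image]
        rintro ⟨i, _, hi⟩
        exact hu2 i hi.symm
    have := hsmall (insert u (Finset.univ.image g)) (fun w hw => by
      rcases Finset.mem_insert.1 hw with rfl | hw
      · exact hr
      · obtain ⟨i, _, rfl⟩ := Finset.mem_image.1 hw
        exact hg4r i)
    omega

end Pool.Agent.Lib.MP_3d6d95_lc
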