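import Pool.Agent.Lib.MP_3d6d95_lc.Uniq

/-!
Runs against a strategy of Hider.
-/

namespace Pool.Agent.Lib.MP_3d6d95_lc

/-- The history when Seeker has picked the pairs of the list (last picked first) and Hider
follows `τ`. -/
def histA (τ : Hist → Pair → Bool) : List Pair → Hist
  | [] => []
  | e :: p => (e, τ (histA τ p) e) :: histA τ p

def grn (τ : Hist → Pair → Bool) (p : List Pair) : Gr := {e | (e, true) ∈ histA τ p}

def red (τ : Hist → Pair → Bool) (p : List Pair) : Gr := {e | (e, false) ∈ histA τ p}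

def pos (q : ℕ → Pair) : ℕ → List Pair
  | 0 => []
  | n + 1 => q n :: pos q n

def cc (τ : Hist → Pair → Bool) (q : ℕ → Pair) (n : ℕ) : Bool := τ (histA τ (pos q n)) (q n)

variable {τ : Hist → Pair → Bool}

theorem hist_cc (q : ℕ → Pair) (n : ℕ) : hist q (cc τ q) n = histA τ (pos q n) := by
  induction n with
  | zero => rfl
  | succ n ih => rw [hist, pos, histA, ih]; rfl

theorem mem_of_histA {p : List Pair} {e : Pair} {b : Bool} (h : (e, b) ∈ histA τ p) : e ∈ p := by
  induction p with
  | nil => simp [histA] at h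
  | cons a p ih =>
    rw [histA, List.mem_cons] at h
    rcases h with h | h
    · rw [(Prod.mk.inj h).1]; exact List.mem_cons_self
    · exact List.mem_cons_of_mem _ (ih h)

theorem exists_histA {p : List Pair} {e : Pair} (h : e ∈ p) : ∃ b, (e, b) ∈ histA τ p := by
  induction p with
  | nil => simp at h
  | cons a p ih =>
    rw [List.mem_cons] at h
    rcases h with rfl | h
    · exact ⟨_, List.mem_cons_self⟩
    · obtain ⟨b, hb⟩ := ih h
      exact ⟨b, List.mem_cons_of_mem _ hb⟩

theorem histA_unique {p : List Pair} (hp : p.Nodup) {e : Pair} {b b' : Bool}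
    (h : (e, b) ∈ histA τ p) (h' : (e, b') ∈ histA τ p) : b = b' := by
  induction p with
  | nil => simp [histA] at h
  | cons a p ih =>
    rw [List.nodup_cons] at hp
    rw [histA, List.mem_cons] at h h'
    rcases h with h | h <;> rcases h' with h' | h'
    · rw [(Prod.mk.inj h).2, (Prod.mk.inj h').2]
    · exact absurd (by rw [← (Prod.mk.inj h).1]; exact mem_of_histA h') hp.1
    · exact absurd (by rw [← (Prod.mk.inj h').1]; exact mem_of_histA h) hp.1
    · exact ih hp.2 h h'

theorem mem_or {p : List Pair} {e : Pair} (h : e ∈ p) : e ∈ grn τ p ∨ e ∈ red τ p := by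
  obtain ⟨b, hb⟩ := exists_histA (τ := τ) h
  cases b
  · exact Or.inr hb
  · exact Or.inl hb

theorem not_grn_red {p : List Pair} (hp : p.Nodup) {e : Pair} (h : e ∈ grn τ p)
    (h' : e ∈ red τ p) : False :=
  absurd (histA_unique hp h h') (by decide)

theorem histA_suffix {p p' : List Pair} (h : p <:+ p') : histA τ p <:+ histA τ p' := by
  obtain ⟨s, rfl⟩ := h
  induction s with
  | nil => exact List.suffix_rfl
  | cons a s ih => exact ih.trans (List.suffix_cons _ _)

theorem grn_mono {p p' : List Pair} (h : p <:+ p') : grn τ p ⊆ grn τ p' :=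
  fun _ he => (histA_suffix h).subset he

theorem red_mono {p p' : List Pair} (h : p <:+ p') : red τ p ⊆ red τ p' :=
  fun _ he => (histA_suffix h).subset he

theorem grn_back {p p' : List Pair} (h : p <:+ p') (hp : p'.Nodup) {e : Pair} (he : e ∈ p)
    (hg : e ∈ grn τ p') : e ∈ grn τ p := by
  rcases mem_or (τ := τ) he with h1 | h1
  · exact h1
  · exact absurd (red_mono h h1) (fun h2 => not_grn_red hp hg h2)

theorem mem_pos {q : ℕ → Pair} {n : ℕ} {e : Pair} : e ∈ pos q n ↔ ∃ m < n, q m = e := by
  induction n with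
  | zero => simp [pos]
  | succ n ih =>
    rw [pos, List.mem_cons, ih]
    constructor
    · rintro (rfl | ⟨m, hm, h⟩)
      · exact ⟨n, by omega, rfl⟩
      · exact ⟨m, by omega, h⟩
    · rintro ⟨m, hm, h⟩
      rcases Nat.lt_succ_iff_lt_or_eq.1 hm with h1 | h1
      · exact Or.inr ⟨m, h1, h⟩
      · subst h1; exact Or.inl h.symm

theorem pos_suffix {q : ℕ → Pair} {m n : ℕ} (h : m ≤ n) : pos q m <:+ pos q n := by
  induction n with
  | zero => rw [Nat.le_zero.1 h]
  | succ n ih =>
    rcases Nat.lt_or_ge m (n + 1) with h1 | h1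
    · exact (ih (by omega)).trans (List.suffix_cons _ _)
    · rw [show m = n + 1 by omega]

theorem pos_nodup {q : ℕ → Pair} (hq : Function.Injective q) (n : ℕ) : (pos q n).Nodup := by
  induction n with
  | zero => exact List.nodup_nil
  | succ n ih =>
    rw [pos, List.nodup_cons]
    refine ⟨fun h => ?_, ih⟩
    obtain ⟨m, hm, h⟩ := mem_pos.1 h
    have := hq h
    omega

theorem inj_of_pos {q : ℕ → Pair} (h : ∀ n, (pos q n).Nodup) : Function.Injective q := by
  have key : ∀ m n, m < n → q m ≠ q n := by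
    intro m n hmn he
    have := h (n + 1)
    rw [pos, List.nodup_cons] at this
    exact this.1 (mem_pos.2 ⟨m, hmn, he⟩)
  intro m n he
  rcases lt_trichotomy m n with h1 | h1 | h1
  · exact absurd he (key m n h1)
  · exact h1
  · exact absurd he.symm (key n m h1)

theorem mem_greens_iff {q : ℕ → Pair} {e : Pair} :
    e ∈ greens q (cc τ q) ↔ ∃ n, e ∈ grn τ (pos q n) := by
  constructor
  · rintro ⟨n, h1, h2⟩
    refine ⟨n + 1, ?_⟩
    show (e, true) ∈ histA τ (q n :: pos q n)
    rw [histA, List.mem_cons]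
    left
    rw [← h1, ← h2]; rfl
  · rintro ⟨n, h⟩
    have h' : (e, true) ∈ histA τ (pos q n) := h
    clear h
    induction n with
    | zero => simp [pos, histA] at h'
    | succ n ih =>
      rw [pos, histA, List.mem_cons] at h'
      rcases h' with h | h
      · obtain ⟨h1, h2⟩ := Prod.ext_iff.1 h
        exact ⟨n, h1.symm, h2.symm⟩
      · exact ih h

theorem mem_reds_iff {q : ℕ → Pair} {e : Pair} :
    (∃ n, q n = e ∧ cc τ q n = false) ↔ ∃ n, e ∈ red τ (pos q n) := by
  constructor
  · rintro ⟨n, h1, h2⟩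
    refine ⟨n + 1, ?_⟩
    show (e, false) ∈ histA τ (q n :: pos q n)
    rw [histA, List.mem_cons]
    left
    rw [← h1, ← h2]; rfl
  · rintro ⟨n, h⟩
    have h' : (e, false) ∈ histA τ (pos q n) := h
    clear h
    induction n with
    | zero => simp [pos, histA] at h'
    | succ n ih =>
      rw [pos, histA, List.mem_cons] at h'
      rcases h' with h | h
      · obtain ⟨h1, h2⟩ := Prod.ext_iff.1 h
        exact ⟨n, h1.symm, h2.symm⟩
      · exact ih h

theorem grn_sub_greens {q : ℕ → Pair} (n : ℕ) : grn τ (pos q n) ⊆ greens q (cc τ q) :=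
  fun _ he => mem_greens_iff.2 ⟨n, he⟩

theorem greens_finite {q : ℕ → Pair} {F : Gr} (hF : F.Finite) (h : F ⊆ greens q (cc τ q))
    (N : ℕ) : ∃ n ≥ N, F ⊆ grn τ (pos q n) := by
  induction F, hF using Set.Finite.induction_on with
  | empty => exact ⟨N, le_rfl, Set.empty_subset _⟩
  | @insert a s _ _ ih =>
    obtain ⟨n, hn, h1⟩ := ih (fun e he => h (Set.mem_insert_of_mem _ he))
    obtain ⟨m, hm⟩ := mem_greens_iff.1 (h (Set.mem_insert _ _))
    refine ⟨max n m, by omega, fun e he => ?_⟩
    rcases he with rfl | he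
    · exact grn_mono (pos_suffix (le_max_right _ _)) hm
    · exact grn_mono (pos_suffix (le_max_left _ _)) (h1 he)

/-- the red pairs and the green-or-white pairs are complementary -/
theorem mem_union_iff {q : ℕ → Pair} (hq : Function.Injective q) {e : Pair} :
    e ∈ greens q (cc τ q) ∪ whites q ↔ ∀ n, e ∉ red τ (pos q n) := by
  constructor
  · rintro (h | h) n hn
    · obtain ⟨m, hm⟩ := mem_greens_iff.1 h
      exact not_grn_red (pos_nodup hq (max m n)) (grn_mono (pos_suffix (le_max_left _ _)) hm)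
        (red_mono (pos_suffix (le_max_right _ _)) hn)
    · obtain ⟨m, hm, _⟩ := mem_reds_iff.2 ⟨n, hn⟩
      exact h m hm
  · intro h
    by_cases hw : e ∈ whites q
    · exact Or.inr hw
    · left
      simp only [whites, Set.mem_ofPred_eq, not_forall, not_not] at hw
      obtain ⟨n, hn⟩ := hw
      have : e ∈ pos q (n + 1) := mem_pos.2 ⟨n, by omega, hn⟩
      rcases mem_or (τ := τ) this with h1 | h1
      · exact mem_greens_iff.2 ⟨_, h1⟩
      · exact absurd h1 (h _)

/-! Construction of runs -/

def scons (e : Pair) (r : ℕ → Pair) : ℕ → Pair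
  | 0 => e
  | n + 1 => r n

def ext : List Pair → (ℕ → Pair) → (ℕ → Pair)
  | [], r => r
  | e :: p, r => ext p (scons e r)

theorem pos_scons (e : Pair) (r : ℕ → Pair) (m : ℕ) : pos (scons e r) (m + 1) = pos r m ++ [e] := by
  induction m with
  | zero => rfl
  | succ m ih => rw [pos, ih]; rfl

theorem pos_ext (p : List Pair) (r : ℕ → Pair) (m : ℕ) :
    pos (ext p r) (p.length + m) = pos r m ++ p := by
  induction p generalizing r m with
  | nil => simp [ext]
  | cons e p ih =>
    rw [ext, List.length_cons, show p.length + 1 + m = p.length + (m + 1) by ring, ih, pos_scons]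
    simp

theorem run_exists {p : List Pair} (hp : p.Nodup) {Z : Set Pair} (hZ : Z.Infinite)
    (hd : ∀ e ∈ p, e ∉ Z) {κ : Pair → ℕ} (hκ : Function.Injective κ) :
    ∃ q : ℕ → Pair, Function.Injective q ∧ (∃ n, pos q n = p) ∧
      (∀ e, (∃ n, q n = e) ↔ e ∈ p ∨ e ∈ Z) ∧
      ∀ z ∈ Z, ∃ m, q m = z ∧ p <:+ pos q m ∧ ∀ e ∈ pos q m, e ∈ p ∨ κ e < κ z := by
  have hK : (κ '' Z).Infinite := hZ.image hκ.injOn
  have hmem : ∀ m, ∃ z ∈ Z, κ z = Nat.nth (· ∈ κ '' Z) m := fun m => by
    have := Nat.nth_mem_of_infinite hK m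
    exact this
  choose r hrZ hr using hmem
  have hmono : StrictMono (Nat.nth (· ∈ κ '' Z)) := Nat.nth_strictMono hK
  have hrinj : Function.Injective r := by
    intro m n h
    apply hmono.injective
    rw [← hr m, ← hr n, h]
  have hsurj : ∀ z ∈ Z, ∃ m, r m = z := by
    intro z hz
    have hr2 := Nat.range_nth_of_infinite (p := (· ∈ κ '' Z)) hK
    have : κ z ∈ Set.range (Nat.nth (· ∈ κ '' Z)) := hr2.symm.subset ⟨z, hz, rfl⟩
    obtain ⟨m, hm⟩ := this
    exact ⟨m, hκ ((hr m).trans hm)⟩
  have hposr : ∀ m, ∀ e ∈ pos r m, e ∈ Z := by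
    intro m e he
    obtain ⟨i, _, rfl⟩ := mem_pos.1 he
    exact hrZ i
  have hnd : ∀ m, (pos r m ++ p).Nodup := by
    intro m
    refine List.Nodup.append (pos_nodup hrinj m) hp ?_
    intro e h1 h2
    exact hd e h2 (hposr m e h1)
  refine ⟨ext p r, ?_, ⟨p.length, ?_⟩, ?_, ?_⟩
  · refine inj_of_pos (fun n => ?_)
    have := (pos_suffix (q := ext p r) (show n ≤ p.length + n by omega)).sublist
    rw [pos_ext] at this
    exact this.nodup (hnd n)
  · have := pos_ext p r 0
    simpa [pos] using this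
  · intro e
    constructor
    · rintro ⟨n, hn⟩
      have h1 : e ∈ pos (ext p r) (p.length + (n + 1)) := mem_pos.2 ⟨n, by omega, hn⟩
      rw [pos_ext, List.mem_append] at h1
      rcases h1 with h1 | h1
      · exact Or.inr (hposr _ e h1)
      · exact Or.inl h1
    · rintro (h | h)
      · have h1 : e ∈ pos (ext p r) (p.length + 0) := by
          rw [pos_ext, List.mem_append]; exact Or.inr h
        obtain ⟨m, _, hm⟩ := mem_pos.1 h1
        exact ⟨m, hm⟩
      · obtain ⟨m, hm⟩ := hsurj e h
        have h1 : e ∈ pos (ext p r) (p.length + (m + 1)) := by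
          rw [pos_ext, List.mem_append]; exact Or.inl (mem_pos.2 ⟨m, by omega, hm⟩)
        obtain ⟨m', _, hm'⟩ := mem_pos.1 h1
        exact ⟨m', hm'⟩
  · intro z hz
    obtain ⟨m, hm⟩ := hsurj z hz
    refine ⟨p.length + m, ?_, ?_, ?_⟩
    · have h1 := pos_ext p r (m + 1)
      rw [show p.length + (m + 1) = (p.length + m) + 1 by ring, pos, pos] at h1
      have := (List.cons_eq_cons.1 (by simpa using h1)).1
      rw [← hm]; exact this
    · rw [pos_ext]; exact List.suffix_append _ _
    · intro e he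
      rw [pos_ext, List.mem_append] at he
      rcases he with he | he
      · right
        obtain ⟨i, hi, rfl⟩ := mem_pos.1 he
        rw [← hm, hr, hr]
        exact hmono hi
      · exact Or.inl he

theorem exists_kappa : ∃ κ : Pair → ℕ, Function.Injective κ := exists_injective_nat Pair

theorem run_white {p : List Pair} (hp : p.Nodup) {W0 : Set Pair} (hd : ∀ e ∈ p, e ∉ W0)
    (hinf : {e | e ∉ p ∧ e ∉ W0}.Infinite) :
    ∃ q : ℕ → Pair, Function.Injective q ∧ (∃ n, pos q n = p) ∧ whites q = W0 := by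
  obtain ⟨κ, hκ⟩ := exists_kappa
  obtain ⟨q, h1, h2, h3, _⟩ := run_exists hp hinf (fun e he h => h.1 he) hκ
  refine ⟨q, h1, h2, ?_⟩
  ext e
  constructor
  · intro he
    by_contra hne
    have : ∃ n, q n = e := by
      rw [h3]
      by_cases h : e ∈ p
      · exact Or.inl h
      · exact Or.inr ⟨h, hne⟩
    obtain ⟨n, hn⟩ := this
    exact he n hn
  · intro he n hn
    rcases (h3 e).1 ⟨n, hn⟩ with h | h
    · exact hd e h he
    · exact h.2 he

theorem pair_infinite : (Set.univ : Set Pair).Infinite := by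
  have : Function.Injective (fun n : ℕ => pr 0 (n + 1) (by omega)) := by
    intro m n h
    simp only [pr_eq_iff] at h
    omega
  exact (Set.infinite_range_of_injective this).mono (Set.subset_univ _)

theorem compl_infinite {p : List Pair} {W0 : Set Pair} (hW : W0.Finite) :
    {e : Pair | e ∉ p ∧ e ∉ W0}.Infinite := by
  have h1 : ({e : Pair | e ∈ p} ∪ W0).Finite := (List.finite_toSet p).union hW
  have h2 := pair_infinite.sdiff h1
  refine h2.mono (fun e he => ?_)
  refine ⟨fun h => he.2 (Or.inl h), fun h => he.2 (Or.inr h)⟩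

theorem ext_finite {p : List Pair} (hp : p.Nodup) {F : Set Pair} (hF : F.Finite) :
    ∃ p', p <:+ p' ∧ p'.Nodup ∧ ∀ e, e ∈ p' ↔ e ∈ p ∨ e ∈ F := by
  classical
  refine ⟨(hF.toFinset.filter (· ∉ p)).toList ++ p, List.suffix_append _ _, ?_, ?_⟩
  · refine List.Nodup.append (Finset.nodup_toList _) hp ?_
    intro e h1 h2
    rw [Finset.mem_toList, Finset.mem_filter] at h1
    exact h1.2 h2
  · intro e
    rw [List.mem_append, Finset.mem_toList, Finset.mem_filter, Set.Finite.mem_toFinset]
    tauto

end Pool.Agent.Lib.MP_3d6d95_lc
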