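import Pool.Agent.Lib.MP_3d6d95_lc.SeekerSide

/-!
Analysis of the final position against a strategy of Seeker.
-/

namespace Pool.Agent.Lib.MP_3d6d95_lc

/-- The facts about the final graphs `G` (green) and `W` (white). -/
structure BFin (x : ℕ → Bool) (G W : Gr) (s : ℕ → Fin 5 → Option Bool) : Prop where
  f1 : ∀ e, tgt x e → e ∈ G ∪ W
  f2 : ∀ e ∈ G, (∃ t i, e = gp t i) ∨ tgt x e
  f3 : ∀ t, Good (s t)
  f4 : ∀ t i, s t i = some true ↔ gp t i ∈ G
  f5 : ∀ t i, s t i ≠ some false ↔ gp t i ∈ G ∪ W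

theorem val10 : ((10 : Fin 12) : ℕ) = 10 := rfl

theorem val11 : ((11 : Fin 12) : ℕ) = 11 := rfl

/-- Index `k` may be joined to hub `i`. -/
def al (k : ℕ) (i : Fin 12) : Prop := k = 0 ∨ (k < 26 ∧ need k i) ∨ (26 ≤ k ∧ allowed k i)

theorem al_consec {k : ℕ} {i : Fin 12} (h1 : al k i) (h2 : al (k + 1) i) : False := by
  have hi := i.2
  rcases h1 with h1 | ⟨h1, h1'⟩ | ⟨h1, h1'⟩
  · subst h1
    rcases h2 with h2 | ⟨_, h2⟩ | ⟨h2, _⟩
    · omega
    · have := h2.1; omega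
    · omega
  · have hp := h1'.1
    rcases h2 with h2 | ⟨_, h2⟩ | ⟨h2, _⟩
    · omega
    · have := h2.1; omega
    · omega
  · rcases h2 with h2 | ⟨h2, _⟩ | ⟨_, h2⟩
    · omega
    · omega
    · rcases h1' with ⟨j, hj⟩ | ⟨hp, h1'⟩
      · have hj1 : (i : ℕ) = 5 * (k % 2) + j := by rw [hj]; rfl
        have := j.2
        rcases h2 with ⟨j', hj'⟩ | ⟨hp', h2⟩
        · have hj2 : (i : ℕ) = 5 * ((k + 1) % 2) + j' := by rw [hj']; rfl
          have := j'.2
          omega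
        · omega
      · rcases h2 with ⟨j', hj'⟩ | ⟨hp', h2⟩
        · have hj2 : (i : ℕ) = 5 * ((k + 1) % 2) + j' := by rw [hj']; rfl
          have := j'.2
          omega
        · omega

variable {x : ℕ → Bool} {G W : Gr} {s : ℕ → Fin 5 → Option Bool}

section plus

theorem BFin.x0 (H : BFin x G W s) (k : ℕ) : adj (G ∪ W) 0 (k + 13) := by
  rw [adj_iff_pr (by omega)]
  exact H.f1 _ (Or.inl ⟨k, rfl⟩)

theorem BFin.xr (H : BFin x G W s) (k : ℕ) : adj (G ∪ W) (k + 13) (k + 14) := by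
  rw [adj_iff_pr (by omega)]
  exact H.f1 _ (Or.inr (Or.inl ⟨k, rfl⟩))

theorem BFin.xf (H : BFin x G W s) {k : ℕ} {i : Fin 12} (hf : fixg x k i) :
    adj (G ∪ W) (k + 13) (H0 i) := by
  have := i.2
  rw [adj_iff_pr (by unfold H0; omega)]
  exact H.f1 _ (Or.inr (Or.inr ⟨k, i, rfl, hf⟩))

theorem BFin.xg (H : BFin x G W s) {t : ℕ} {i : Fin 5} (hs : s t i ≠ some false) :
    adj (G ∪ W) (t + 39) (H0 (cl t i)) :=
  ⟨gp t i, (H.f5 t i).1 hs, rfl⟩

theorem V0_val (k : ℕ) : V0 k = k + 13 := rfl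

theorem H0_lt (i : Fin 12) : H0 i < 13 := by have := i.2; unfold H0; omega

theorem H0_pos (i : Fin 12) : 0 < H0 i := by unfold H0; omega

theorem out_V0 (j : ℕ) : out 0 H0 V0 j (V0 (j + 1)) := by
  refine ⟨?_, fun i e => ?_, fun l hl e => ?_⟩
  · rw [V0_val]; omega
  · have := H0_lt i
    rw [V0_val] at e; omega
  · rw [V0_val, V0_val] at e; omega

theorem BFin.ok (H : BFin x G W s) (j : ℕ) : ok (j + 1) (hub (G ∪ W) H0 (V0 (j + 1))) := by
  constructor
  · intro hj i hi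
    show adj _ _ _
    rw [V0_val]
    exact H.xf (Or.inr (Or.inl ⟨hj, hi⟩))
  · intro hj
    obtain ⟨t, ht⟩ : ∃ t, j + 1 = 26 + t := ⟨j + 1 - 26, by omega⟩
    constructor
    · obtain ⟨i, h1, h2⟩ := good_pair _ (H.f3 t)
      refine ⟨i, ?_, ?_⟩
      · show adj _ _ _
        rw [ht, cl_add, V0_val, show 26 + t + 13 = t + 39 by ring]
        exact H.xg h1
      · show adj _ _ _
        rw [ht, cl_add, V0_val, show 26 + t + 13 = t + 39 by ring]
        exact H.xg h2
    · intro hp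
      cases hx : x ((j + 1 - 26) / 2)
      · right
        show adj _ _ _
        rw [V0_val]
        exact H.xf (Or.inr (Or.inr ⟨hj, hp, Or.inr ⟨rfl, hx⟩⟩))
      · left
        show adj _ _ _
        rw [V0_val]
        exact H.xf (Or.inr (Or.inr ⟨hj, hp, Or.inl ⟨rfl, hx⟩⟩))

theorem BFin.valid (H : BFin x G W s) (k : ℕ) : Valid (G ∪ W) 0 H0 V0 k := by
  refine ⟨by rw [V0_val]; omega, fun i e => ?_, fun i => ?_, fun j _ => ⟨?_, out_V0 j, H.ok j⟩⟩
  · have := H0_lt i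
    rw [V0_val] at e; omega
  · rw [V0_val]; exact H.xf (Or.inl rfl)
  · rw [V0_val, V0_val]; exact H.xr j

theorem BFin.full (H : BFin x G W s) {z : ℕ → Fin 5}
    (hz : ∀ t, s t (z t) ≠ some false ∧ s t (z t + 1) ≠ some false) :
    Full (G ∪ W) 0 H0 V0 z x := by
  refine ⟨H.valid, fun t => ⟨?_, ?_, fun hp => ⟨fun hx => ?_, fun hx => ?_⟩⟩⟩
  · show adj _ _ _
    rw [cl_add, V0_val, show 26 + t + 13 = t + 39 by ring]
    exact H.xg (hz t).1
  · show adj _ _ _
    rw [cl_add, V0_val, show 26 + t + 13 = t + 39 by ring]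
    exact H.xg (hz t).2
  · show adj _ _ _
    rw [V0_val]
    refine H.xf (Or.inr (Or.inr ⟨by omega, hp, Or.inl ⟨rfl, ?_⟩⟩))
    rwa [show 26 + t - 26 = t by omega]
  · show adj _ _ _
    rw [V0_val]
    refine H.xf (Or.inr (Or.inr ⟨by omega, hp, Or.inr ⟨rfl, ?_⟩⟩))
    rwa [show 26 + t - 26 = t by omega]

theorem BFin.cover (H : BFin x G W s) (u : ℕ) (hu : u ≠ 0) (hu2 : ∀ i, u ≠ H0 i) :
    adj (G ∪ W) 0 u := by
  have : 13 ≤ u := by
    by_contra hlt
    exact hu2 ⟨u - 1, by omega⟩ (by show u = u - 1 + 1; omega)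
  obtain ⟨k, rfl⟩ : ∃ k, u = k + 13 := ⟨u - 13, by omega⟩
  exact H.x0 k

theorem H0_inj : Function.Injective H0 := by
  intro i j h
  unfold H0 at h
  exact Fin.ext (by omega)

theorem BFin.nn (H : BFin x G W s) {a : ℕ} (ha : a ≠ 0) : NN (G ∪ W) a :=
  ⟨0, a + 13, a + 14, ha.symm, by omega, by omega, H.x0 a, H.xr a, H.x0 (a + 1)⟩

/-- The graph `G ∪ W` has an extra pair. -/
def HiX (X : Gr) : Prop := NN X 0 ∨ Over X 0 H0 ∨ ∃ i, adj X 0 (H0 i)

theorem BFin.mem_of_hi (H : BFin x G W s) (h : HiX (G ∪ W)) (A : Set Code) : G ∪ W ∈ SS A := by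
  intro a
  by_cases ha : a = 0
  · subst ha
    rcases h with h | h | h
    · exact Or.inl h
    · exact Or.inr ⟨H0, H0_inj, fun i => (H0_pos i).ne', H.cover, Or.inr (Or.inl h)⟩
    · exact Or.inr ⟨H0, H0_inj, fun i => (H0_pos i).ne', H.cover, Or.inl h⟩
  · exact Or.inl (H.nn ha)

theorem BFin.mem_of_code (H : BFin x G W s) {A : Set Code} {z : ℕ → Fin 5}
    (hz : ∀ t, s t (z t) ≠ some false ∧ s t (z t + 1) ≠ some false) (hA : (z, x) ∈ A) :
    G ∪ W ∈ SS A := by
  intro a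
  by_cases ha : a = 0
  · subst ha
    exact Or.inr ⟨H0, H0_inj, fun i => (H0_pos i).ne', H.cover,
      Or.inr (Or.inr ⟨V0, z, x, hA, H.full hz⟩)⟩
  · exact Or.inl (H.nn ha)

end plus

section minus

theorem BFin.g0 (H : BFin x G W s) {u : ℕ} (h : adj G 0 u) : 13 ≤ u := by
  obtain ⟨e, he, h1⟩ := h
  rcases H.f2 e he with ⟨t, i, rfl⟩ | ⟨k, hk⟩ | ⟨k, hk⟩ | ⟨k, i, hk, _⟩
  · have : (gp t i).1 = s(t + 39, (cl t i : ℕ) + 1) := rfl
    rw [this, Sym2.eq_iff] at h1; omega
  · rw [hk, Sym2.eq_iff] at h1; omega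
  · rw [hk, Sym2.eq_iff] at h1; omega
  · rw [hk, Sym2.eq_iff] at h1; omega

theorem BFin.ghh (H : BFin x G W s) {i j : Fin 12} (h : adj G (H0 i) (H0 j)) : False := by
  obtain ⟨e, he, h1⟩ := h
  have hi := H0_lt i
  have hj := H0_lt j
  have hi' := H0_pos i
  have hj' := H0_pos j
  rcases H.f2 e he with ⟨t, i, rfl⟩ | ⟨k, hk⟩ | ⟨k, hk⟩ | ⟨k, i, hk, _⟩
  · have : (gp t i).1 = s(t + 39, (cl t i : ℕ) + 1) := rfl
    rw [this, Sym2.eq_iff] at h1; omega
  · rw [hk, Sym2.eq_iff] at h1; omega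
  · rw [hk, Sym2.eq_iff] at h1; omega
  · rw [hk, Sym2.eq_iff] at h1; omega

theorem BFin.grr (H : BFin x G W s) {k l : ℕ} (h : adj G (k + 13) (l + 13)) :
    l = k + 1 ∨ k = l + 1 := by
  obtain ⟨e, he, h1⟩ := h
  rcases H.f2 e he with ⟨t, i, rfl⟩ | ⟨k, hk⟩ | ⟨k, hk⟩ | ⟨k, i, hk, _⟩
  · have : (gp t i).1 = s(t + 39, (cl t i : ℕ) + 1) := rfl
    have := (cl t i).2
    rw [‹(gp t i).1 = _›, Sym2.eq_iff] at h1; omega
  · rw [hk, Sym2.eq_iff] at h1; omega
  · rw [hk, Sym2.eq_iff] at h1; omega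
  · have := i.2
    rw [hk, Sym2.eq_iff] at h1; omega

theorem BFin.grh (H : BFin x G W s) {k : ℕ} {i : Fin 12} (h : adj G (k + 13) (H0 i)) :
    (∃ t j, k = 26 + t ∧ i = cl t j ∧ gp t j ∈ G) ∨ fixg x k i := by
  obtain ⟨e, he, h1⟩ := h
  have hi := i.2
  have hi2 : H0 i = (i : ℕ) + 1 := rfl
  rcases H.f2 e he with ⟨t, j, rfl⟩ | ⟨k, hk⟩ | ⟨k, hk⟩ | ⟨k', i', hk, hf⟩
  · have h2 : (gp t j).1 = s(t + 39, (cl t j : ℕ) + 1) := rfl
    have := (cl t j).2
    rw [h2, Sym2.eq_iff] at h1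
    exact Or.inl ⟨t, j, by omega, Fin.ext (by omega), he⟩
  · rw [hk, Sym2.eq_iff] at h1; omega
  · rw [hk, Sym2.eq_iff] at h1; omega
  · have := i'.2
    rw [hk, Sym2.eq_iff] at h1
    have e1 : k' = k := by omega
    have e2 : i' = i := Fin.ext (by omega)
    subst e1; subst e2
    exact Or.inr hf

theorem BFin.gal (H : BFin x G W s) {k : ℕ} {i : Fin 12} (h : adj G (k + 13) (H0 i)) :
    al k i := by
  rcases H.grh h with ⟨t, j, rfl, rfl, _⟩ | hf
  · exact Or.inr (Or.inr ⟨by omega, Or.inl ⟨j, (cl_add t j).symm⟩⟩)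
  · rcases hf with hf | hf | ⟨hk, hp, hf⟩
    · exact Or.inl hf
    · exact Or.inr (Or.inl hf)
    · refine Or.inr (Or.inr ⟨hk, Or.inr ⟨hp, ?_⟩⟩)
      rcases hf with ⟨rfl, _⟩ | ⟨rfl, _⟩
      · rw [val10]
      · rw [val11]; omega

theorem dec_vertex {u : ℕ} (hu : u ≠ 0) : (∃ i, u = H0 i) ∨ ∃ k, u = k + 13 := by
  by_cases h : u < 13
  · exact Or.inl ⟨⟨u - 1, by omega⟩, by show u = u - 1 + 1; omega⟩
  · exact Or.inr ⟨u - 13, by omega⟩

theorem BFin.tri (H : BFin x G W s) {i : Fin 12} {k l : ℕ} (h1 : adj G (H0 i) (k + 13))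
    (h2 : adj G (H0 i) (l + 13)) (h3 : adj G (k + 13) (l + 13)) : False := by
  have a1 := H.gal (adj_symm h1)
  have a2 := H.gal (adj_symm h2)
  rcases H.grr h3 with rfl | rfl
  · exact al_consec a1 a2
  · exact al_consec a2 a1

theorem BFin.not_nn (H : BFin x G W s) : ¬ NN G 0 := by
  rintro ⟨a, b, c, ha, hb, hc, h1, h2, h3⟩
  rcases dec_vertex ha with ⟨i, rfl⟩ | ⟨i, rfl⟩ <;> rcases dec_vertex hb with ⟨j, rfl⟩ | ⟨j, rfl⟩ <;>
    rcases dec_vertex hc with ⟨k, rfl⟩ | ⟨k, rfl⟩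
  · exact H.ghh h1
  · exact H.ghh h1
  · exact H.ghh h3
  · exact H.tri h1 h3 h2
  · exact H.ghh h2
  · exact H.tri (adj_symm h1) h2 h3
  · exact H.tri (adj_symm h3) (adj_symm h2) h1
  · have := H.grr h1
    have := H.grr h2
    have := H.grr h3
    omega

theorem H0_surj_range {h' : Fin 12 → ℕ} (hi : Function.Injective h')
    (hcov : ∀ i, H0 i ∈ Set.range h') : Set.range h' = Set.range H0 := by
  have h1 : Finset.univ.image H0 ⊆ Finset.univ.image h' := by
    intro u hu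
    rw [Finset.mem_image] at hu ⊢
    obtain ⟨i, _, rfl⟩ := hu
    obtain ⟨j, hj⟩ := hcov i
    exact ⟨j, Finset.mem_univ _, hj⟩
  have h2 : (Finset.univ.image h').card = (Finset.univ.image H0).card := by
    rw [Finset.card_image_of_injective _ hi, Finset.card_image_of_injective _ H0_inj]
  have h3 := Finset.eq_of_subset_of_card_le h1 h2.le
  ext u
  have := Finset.ext_iff.1 h3 u
  simp only [Finset.mem_image, Finset.mem_univ, true_and] at this
  exact this.symm

theorem al_all {k : ℕ} (h : ∀ i, al k i) : k = 0 := by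
  by_contra hk
  have h0 := h 0
  have h1 := h 1
  have h5 := h 5
  have h10 := h 10
  have e0 : ((0 : Fin 12) : ℕ) = 0 := rfl
  have e1 : ((1 : Fin 12) : ℕ) = 1 := rfl
  have e5 : ((5 : Fin 12) : ℕ) = 5 := rfl
  by_cases hlt : k < 26
  · unfold al need at h0 h1; omega
  · have h5' : allowed k 5 := by
      rcases h5 with h | h | h
      · omega
      · omega
      · exact h.2
    have h10' : allowed k 10 := by
      rcases h10 with h | h | h
      · omega
      · omega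
      · exact h.2
    rcases h5' with ⟨j, hj⟩ | h5'
    · have := congrArg Fin.val hj
      simp only [cl, e5] at this
      have := j.2
      rcases h10' with ⟨j', hj'⟩ | h10'
      · have := congrArg Fin.val hj'
        simp only [cl, val10] at this
        have := j'.2
        omega
      · omega
    · rw [e5] at h5'; omega

theorem BFin.root_unique (H : BFin x G W s) {h' : Fin 12 → ℕ}
    (hr : Set.range h' = Set.range H0) {r : ℕ} (h0 : r ≠ 0) (h1 : ∀ i, r ≠ h' i)
    (h2 : ∀ i, adj G r (h' i)) : r = 13 := by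
  have hsub : ∀ i, ∃ i', h' i' = H0 i := fun i => by
    have : H0 i ∈ Set.range h' := by rw [hr]; exact ⟨i, rfl⟩
    exact this
  rcases dec_vertex h0 with ⟨i, rfl⟩ | ⟨k, rfl⟩
  · obtain ⟨i', hi'⟩ := hsub i
    exact absurd hi'.symm (h1 i')
  · have : ∀ i, al k i := fun i => by
      obtain ⟨i', hi'⟩ := hsub i
      apply H.gal
      rw [← hi']; exact h2 i'
    rw [al_all this]

theorem BFin.next (H : BFin x G W s) {h' : Fin 12 → ℕ} {v : ℕ → ℕ} {j u : ℕ}
    (hr : Set.range h' = Set.range H0) (hv : ∀ i ≤ j, v i = V0 i) (ho : out 0 h' v j u)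
    (ha : adj G (v j) u) : u = V0 (j + 1) := by
  rcases dec_vertex ho.1 with ⟨i, rfl⟩ | ⟨l, rfl⟩
  · have ho2 : out 0 H0 V0 j (H0 i) := out_of_range hr (fun i hi => hv i hi) ho
    exact absurd rfl (ho2.2.1 i)
  · rw [hv j le_rfl, V0_val] at ha
    rcases H.grr ha with rfl | hl
    · rfl
    · have := ho.2.2 l (by omega)
      rw [hv l (by omega), V0_val] at this
      exact absurd rfl this

theorem BFin.valid_eq (H : BFin x G W s) {h' : Fin 12 → ℕ} {v : ℕ → ℕ} {k : ℕ}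
    (hr : Set.range h' = Set.range H0) (V : Valid G 0 h' v k) : ∀ j ≤ k, v j = V0 j := by
  intro j
  induction j using Nat.strong_induction_on with
  | _ j ih =>
    intro hj
    rcases Nat.eq_zero_or_pos j with rfl | hpos
    · exact H.root_unique hr V.r1 V.r2 V.r3
    · obtain ⟨l, rfl⟩ : ∃ l, j = l + 1 := ⟨j - 1, by omega⟩
      obtain ⟨h1, h2, _⟩ := V.step l (by omega)
      exact H.next hr (fun i hi => ih i (by omega) (by omega)) h2 h1

theorem BFin.need_eq (H : BFin x G W s) {h' : Fin 12 → ℕ}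
    (hr : Set.range h' = Set.range H0) {k : ℕ} (hk0 : k ≠ 0) (hk : k < 26) {i : Fin 12}
    (hi : adj G (k + 13) (h' i)) : ∃ i', h' i = H0 i' ∧ need k i' := by
  have : h' i ∈ Set.range H0 := by rw [← hr]; exact ⟨i, rfl⟩
  obtain ⟨i', hi'⟩ := this
  rw [← hi'] at hi
  refine ⟨i', hi'.symm, ?_⟩
  rcases H.gal hi with h | h | h
  · exact absurd h hk0
  · exact h.2
  · omega

theorem BFin.ord_eq (H : BFin x G W s) {h' : Fin 12 → ℕ} {v : ℕ → ℕ}
    (hr : Set.range h' = Set.range H0) (V : Valid G 0 h' v 24) : h' = H0 := by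
  funext j
  have hj : (j : ℕ) < 12 := j.2
  have hneed : need (2 * j + 1 + 1) j := by
    constructor <;> omega
  have o' := (V.step (2 * j + 1) (by omega)).2.2.1 (by omega) j hneed
  rw [H.valid_eq hr V _ (by omega), V0_val] at o'
  obtain ⟨i', h1, h2⟩ := H.need_eq hr (by omega) (by omega) o'
  have : i' = j := by
    apply Fin.ext
    have := h2.2
    omega
  rw [h1, this]

theorem BFin.not_hi (H : BFin x G W s) {h' : Fin 12 → ℕ} {v : ℕ → ℕ} {k : ℕ}
    (hi' : Function.Injective h')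
    (hr : Set.range h' = Set.range H0) (V : Valid G 0 h' v k) :
    ¬ hi (k + 1) (hub G h' (V0 (k + 1))) := by
  rintro (⟨hk, h1, i, hi, h2⟩ | ⟨hk, h⟩)
  · obtain ⟨i0, e0, n0⟩ := H.need_eq hr (by omega) hk (i := i) hi
    have hm := h1 i0 n0
    obtain ⟨i1, e1, n1⟩ := H.need_eq hr (by omega) hk (i := i0) hm
    have e2 : i1 = i0 := Fin.ext (by have := n0.2; have := n1.2; omega)
    rw [e2, ← e0] at e1
    have := hi' e1
    rw [this] at n0
    exact h2 n0
  · have e := H.ord_eq hr (V.le (by omega))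
    subst e
    obtain ⟨t, ht⟩ : ∃ t, k + 1 = 26 + t := ⟨k + 1 - 26, by omega⟩
    rw [ht] at h
    rw [V0_val] at h
    rcases h with ⟨i, h1, h2⟩ | ⟨i, h1, h2, h3⟩ | ⟨hp, h1, h2⟩
    · rcases H.gal h1 with h3 | h3 | h3
      · omega
      · omega
      · exact h2 h3.2
    · have key : ∀ j : Fin 5, cl (26 + t) j ∈ hub G H0 (26 + t + 13) → s t j = some true := by
        intro j hj
        rcases H.grh hj with ⟨t', j', h4, h5, h6⟩ | hf
        · have : t' = t := by omega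
          subst this
          rw [cl_add] at h5
          rw [cl_inj h5]
          exact (H.f4 _ _).2 h6
        · exfalso
          have hc : ((cl (26 + t) j : Fin 12) : ℕ) = 5 * ((26 + t) % 2) + j := rfl
          have hj5 := j.2
          rcases hf with hf | hf | ⟨_, hp, ⟨hf, _⟩ | ⟨hf, _⟩⟩
          · omega
          · omega
          · have := congrArg Fin.val hf
            rw [val10] at this; omega
          · have := congrArg Fin.val hf
            rw [val11] at this; omega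
      exact (H.f3 t).2.2.1 i ⟨key _ h1, key _ h2, key _ h3⟩
    · have k1 : x ((26 + t - 26) / 2) = true := by
        rcases H.grh h1 with ⟨t', j', _, h5, _⟩ | hf
        · have hc : ((cl t' j' : Fin 12) : ℕ) = 5 * (t' % 2) + j' := rfl
          have hj5 := j'.2
          have := congrArg Fin.val h5
          rw [val10] at this; omega
        · rcases hf with hf | hf | ⟨_, _, ⟨_, hf⟩ | ⟨hf, _⟩⟩
          · omega
          · omega
          · exact hf
          · exact absurd hf (by decide)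
      have k2 : x ((26 + t - 26) / 2) = false := by
        rcases H.grh h2 with ⟨t', j', _, h5, _⟩ | hf
        · have hc : ((cl t' j' : Fin 12) : ℕ) = 5 * (t' % 2) + j' := rfl
          have hj5 := j'.2
          have := congrArg Fin.val h5
          rw [val11] at this; omega
        · rcases hf with hf | hf | ⟨_, _, ⟨hf, _⟩ | ⟨_, hf⟩⟩
          · omega
          · omega
          · exact absurd hf (by decide)
          · exact hf
      rw [k1] at k2
      exact absurd k2 (by decide)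

theorem BFin.not_over (H : BFin x G W s) {h' : Fin 12 → ℕ} (hi' : Function.Injective h')
    (hr : Set.range h' = Set.range H0) : ¬ Over G 0 h' := by
  rintro (⟨r, r', h1, h2, h3, h4, h5, h6, h7⟩ | ⟨v, k, V, ⟨u, h1, h2, h3⟩ | ⟨u, u', h1, h2, h3, h4, h5⟩⟩)
  · exact h1 ((H.root_unique hr h2 h4 h6).trans (H.root_unique hr h3 h5 h7).symm)
  · have := H.next hr (H.valid_eq hr V) h1 h2
    rw [this] at h3
    exact H.not_hi hi' hr V h3
  · exact h1 ((H.next hr (H.valid_eq hr V) h2 h4).trans (H.next hr (H.valid_eq hr V) h3 h5).symm)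

theorem BFin.code_of_mem (H : BFin x G W s) {A : Set Code} (hG : G ∈ SS A) :
    ∃ z b, (z, b) ∈ A ∧ Full G 0 H0 V0 z b ∧ ∀ k, adj G 0 (k + 13) := by
  rcases hG 0 with h | ⟨h', h1, h2, h3, h4⟩
  · exact absurd h H.not_nn
  · have hr : Set.range h' = Set.range H0 := by
      refine H0_surj_range h1 (fun i => ?_)
      by_contra hn
      have := H.g0 (h3 (H0 i) (H0_pos i).ne' (fun j e => hn ⟨j, e.symm⟩))
      have := H0_lt i
      omega
    have hsub : ∀ i, ∃ i', h' i = H0 i' := fun i => by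
      have : h' i ∈ Set.range H0 := by rw [← hr]; exact ⟨i, rfl⟩
      obtain ⟨i', hi'⟩ := this
      exact ⟨i', hi'.symm⟩
    rcases h4 with ⟨i, hi⟩ | h4 | ⟨v, z, b, h5, h6⟩
    · obtain ⟨i', hi'⟩ := hsub i
      have := H.g0 hi
      have := H0_lt i'
      omega
    · exact absurd h4 (H.not_over h1 hr)
    · have e := H.ord_eq hr (h6.1 24)
      subst e
      have e2 : v = V0 := funext fun k => H.valid_eq rfl (h6.1 k) k le_rfl
      subst e2
      refine ⟨z, b, h5, h6, fun k => h3 _ (by omega) (fun i hi => ?_)⟩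
      have := H0_lt i
      omega

end minus

end Pool.Agent.Lib.MP_3d6d95_lc
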