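import Pool.Agent.Lib.MP_3d6d95_lc.Uniq
import Pool.Agent.Lib.MP_3d6d95_lc.Gadget

/-!
Against every strategy of Seeker, Hider has continuum many replies with distinct codes.
-/

namespace Pool.Agent.Lib.MP_3d6d95_lc

noncomputable section

open Classical

def H0 : Fin 12 → ℕ := fun i => (i : ℕ) + 1

def V0 : ℕ → ℕ := fun k => k + 13

def fixg (x : ℕ → Bool) (k : ℕ) (i : Fin 12) : Prop :=
  k = 0 ∨ (k < 26 ∧ need k i) ∨ (26 ≤ k ∧ k % 2 = 0 ∧
    ((i = 10 ∧ x ((k - 26) / 2) = true) ∨ (i = 11 ∧ x ((k - 26) / 2) = false)))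

def tgt (x : ℕ → Bool) (e : Pair) : Prop :=
  (∃ k, e.1 = s(0, k + 13)) ∨ (∃ k, e.1 = s(k + 13, k + 14)) ∨
    ∃ (k : ℕ) (i : Fin 12), e.1 = s(k + 13, (i : ℕ) + 1) ∧ fixg x k i

def gp (t : ℕ) (i : Fin 5) : Pair :=
  pr (t + 39) ((cl t i : ℕ) + 1) (by have := (cl t i).2; omega)

theorem cl_add (t : ℕ) (i : Fin 5) : cl (26 + t) i = cl t i := by
  apply Fin.ext
  simp only [cl]
  omega

theorem gp_inj {t t' : ℕ} {i i' : Fin 5} (h : gp t i = gp t' i') : t = t' ∧ i = i' := by
  unfold gp at h
  rw [pr_eq_iff] at h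
  have h1 := (cl t i).2
  have h2 := (cl t' i').2
  have e : t = t' := by omega
  subst e
  refine ⟨rfl, cl_inj (k := t) (Fin.ext (by omega))⟩

theorem gp_not_tgt (x : ℕ → Bool) (t : ℕ) (i : Fin 5) : ¬ tgt x (gp t i) := by
  have h1 : (gp t i).1 = s(t + 39, (cl t i : ℕ) + 1) := rfl
  have h2 := (cl t i).2
  have h3 : (cl t i : ℕ) = 5 * (t % 2) + i := rfl
  have h4 := i.2
  rintro (⟨k, hk⟩ | ⟨k, hk⟩ | ⟨k, j, hk, hf⟩)
  · rw [h1, Sym2.eq_iff] at hk; omega
  · rw [h1, Sym2.eq_iff] at hk; omega
  · rw [h1, Sym2.eq_iff] at hk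
    have hj := j.2
    have : k = t + 26 ∧ (j : ℕ) = cl t i := by omega
    obtain ⟨rfl, hj2⟩ := this
    rcases hf with hf | hf | ⟨_, _, ⟨hf, _⟩ | ⟨hf, _⟩⟩
    · omega
    · omega
    · subst hf
      have : ((10 : Fin 12) : ℕ) = 10 := rfl
      omega
    · subst hf
      have : ((11 : Fin 12) : ℕ) = 11 := rfl
      omega

def st (L : Hist) (t : ℕ) : Fin 5 → Option Bool := fun i =>
  if (gp t i, true) ∈ L then some true else if (gp t i, false) ∈ L then some false else none

def resp (x : ℕ → Bool) (L : Hist) (e : Pair) : Bool :=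
  decide ((∃ t i, e = gp t i ∧ Good (Function.update (st L t) i (some true))) ∨ tgt x e)

theorem resp_iff {x : ℕ → Bool} {L : Hist} {e : Pair} : resp x L e = true ↔
    ((∃ t i, e = gp t i ∧ Good (Function.update (st L t) i (some true))) ∨ tgt x e) := by
  unfold resp
  exact decide_eq_true_iff

theorem st_cons_ne {L : Hist} {e : Pair} {b : Bool} {t : ℕ} (h : ∀ j, e ≠ gp t j) :
    st ((e, b) :: L) t = st L t := by
  funext j
  unfold st
  have h1 : ∀ c : Bool, (gp t j, c) ∈ (e, b) :: L ↔ (gp t j, c) ∈ L := by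
    intro c
    rw [List.mem_cons]
    constructor
    · rintro (h2 | h2)
      · exact absurd (Prod.ext_iff.1 h2).1.symm (h j)
      · exact h2
    · exact Or.inr
  simp only [h1]

theorem st_cons_eq {L : Hist} {b : Bool} {t : ℕ} {i : Fin 5}
    (h1 : (gp t i, true) ∉ L) (h2 : (gp t i, false) ∉ L) :
    st ((gp t i, b) :: L) t = Function.update (st L t) i (some b) := by
  funext j
  by_cases hj : j = i
  · subst hj
    rw [Function.update_self]
    unfold st
    cases b
    · simp [h1]
    · simp
  · rw [Function.update_of_ne hj]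
    unfold st
    have h3 : ∀ c : Bool, (gp t j, c) ∈ (gp t i, b) :: L ↔ (gp t j, c) ∈ L := by
      intro c
      rw [List.mem_cons]
      constructor
      · rintro (h2 | h2)
        · exact absurd (gp_inj (Prod.ext_iff.1 h2).1).2 hj
        · exact h2
      · exact Or.inr
    simp only [h3]

def play (σ : Hist → Pair) (x : ℕ → Bool) : ℕ → Hist
  | 0 => []
  | n + 1 => (σ (play σ x n), resp x (play σ x n) (σ (play σ x n))) :: play σ x n

def pq (σ : Hist → Pair) (x : ℕ → Bool) (n : ℕ) : Pair := σ (play σ x n)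

def pc (σ : Hist → Pair) (x : ℕ → Bool) (n : ℕ) : Bool :=
  resp x (play σ x n) (pq σ x n)

theorem hist_play (σ : Hist → Pair) (x : ℕ → Bool) (n : ℕ) :
    hist (pq σ x) (pc σ x) n = play σ x n := by
  induction n with
  | zero => rfl
  | succ n ih => rw [hist, ih, play]; rfl

theorem mem_play {σ : Hist → Pair} {x : ℕ → Bool} {n : ℕ} {e : Pair} {b : Bool} :
    (e, b) ∈ play σ x n ↔ ∃ m < n, pq σ x m = e ∧ pc σ x m = b := by
  induction n with
  | zero => simp [play]
  | succ n ih =>
    rw [play, List.mem_cons, ih]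
    constructor
    · rintro (h | ⟨m, hm, h⟩)
      · obtain ⟨h1, h2⟩ := Prod.ext_iff.1 h
        exact ⟨n, by omega, h1.symm, h2.symm⟩
      · exact ⟨m, by omega, h⟩
    · rintro ⟨m, hm, h1, h2⟩
      rcases Nat.lt_succ_iff_lt_or_eq.1 hm with h | h
      · exact Or.inr ⟨m, h, h1, h2⟩
      · subst h
        left
        rw [← h1, ← h2]; rfl

theorem good_play {σ : Hist → Pair} {x : ℕ → Bool} (hq : Function.Injective (pq σ x)) (n t : ℕ) :
    Good (st (play σ x n) t) := by
  induction n with
  | zero =>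
    have : st (play σ x 0) t = fun _ => none := by
      funext i; simp [st, play]
    rw [this]; exact good_none
  | succ n ih =>
    have hplay : play σ x (n + 1) = (pq σ x n, pc σ x n) :: play σ x n := rfl
    rw [hplay]
    by_cases h : ∃ i, pq σ x n = gp t i
    · obtain ⟨i, hi⟩ := h
      have hnot : ∀ b, (gp t i, b) ∉ play σ x n := by
        intro b hb
        obtain ⟨m, hm, h1, _⟩ := mem_play.1 hb
        have := hq (h1.trans hi.symm)
        omega
      rw [hi, st_cons_eq (hnot true) (hnot false)]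
      have hnone : st (play σ x n) t i = none := by
        simp [st, hnot]
      have hc : pc σ x n = resp x (play σ x n) (gp t i) := by rw [pc, hi]
      by_cases hg : Good (Function.update (st (play σ x n) t) i (some true))
      · have : pc σ x n = true := by
          rw [hc, resp, decide_eq_true_iff]
          exact Or.inl ⟨t, i, rfl, hg⟩
        rw [this]; exact hg
      · have : pc σ x n = false := by
          rw [hc, resp, decide_eq_false_iff_not]
          rintro (⟨t', i', h1, h2⟩ | h1)
          · obtain ⟨rfl, rfl⟩ := gp_inj h1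
            exact hg h2
          · exact gp_not_tgt x t i h1
        rw [this]
        exact (good_step _ i ih hnone).resolve_left hg
    · push Not at h
      rw [st_cons_ne h]
      exact ih

/-- The final state of a gadget. -/
def fin (q : ℕ → Pair) (c : ℕ → Bool) (t : ℕ) : Fin 5 → Option Bool := fun i =>
  if gp t i ∈ greens q c then some true else if gp t i ∈ whites q then none else some false

theorem fin_eq {σ : Hist → Pair} {x : ℕ → Bool} (t : ℕ) :
    ∃ N, st (play σ x N) t = fin (pq σ x) (pc σ x) t := by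
  have key : ∀ i, ∃ N, ∀ n ≥ N, st (play σ x n) t i = fin (pq σ x) (pc σ x) t i := by
    intro i
    by_cases h1 : gp t i ∈ greens (pq σ x) (pc σ x)
    · obtain ⟨m, hm⟩ := h1
      refine ⟨m + 1, fun n hn => ?_⟩
      have h2 : (gp t i, true) ∈ play σ x n := mem_play.2 ⟨m, by omega, hm⟩
      have h1 : gp t i ∈ greens (pq σ x) (pc σ x) := ⟨m, hm⟩
      simp [st, fin, h1, h2]
    · by_cases h2 : gp t i ∈ whites (pq σ x)
      · refine ⟨0, fun n _ => ?_⟩
        have h3 : ∀ b, (gp t i, b) ∉ play σ x n := by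
          intro b hb
          obtain ⟨m, _, h4, _⟩ := mem_play.1 hb
          exact h2 m h4
        simp [st, fin, h1, h2, h3]
      · have h2' := h2
        simp only [whites, Set.mem_ofPred_eq, not_forall, not_not] at h2'
        obtain ⟨m, hm⟩ := h2'
        refine ⟨m + 1, fun n hn => ?_⟩
        have h3 : (gp t i, true) ∉ play σ x n := by
          intro hb
          obtain ⟨m', _, h4⟩ := mem_play.1 hb
          exact h1 ⟨m', h4⟩
        have h4 : pc σ x m = false := by
          by_contra hne
          exact h1 ⟨m, hm, by simpa using hne⟩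
        have h5 : (gp t i, false) ∈ play σ x n := mem_play.2 ⟨m, by omega, hm, h4⟩
        simp [st, fin, h1, h2, h3, h5]
  choose N hN using key
  refine ⟨Finset.univ.sup N, funext fun i => ?_⟩
  exact hN i _ (Finset.le_sup (Finset.mem_univ i))

end

end Pool.Agent.Lib.MP_3d6d95_lc
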