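import Pool.Agent.Lib.MP_3d6d95_lc.DeadPair

/-!
Seeker can always force two different codes.
-/

namespace Pool.Agent.Lib.MP_3d6d95_lc

variable {τ : Hist → Pair → Bool}

theorem kappa_exists (a0 : ℕ) : ∃ κ : Pair → ℕ, Function.Injective κ ∧
    ∀ n a (h0 : a0 ≠ n) (h : a ≠ n), a0 < n → a ≠ a0 → κ (pr a0 n h0) < κ (pr a n h) := by
  classical
  have hex : ∀ e : Pair, ∃ l m, l < m ∧ e.1 = s(l, m) := by
    intro e
    obtain ⟨a, b, hab, rfl⟩ := exists_pr e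
    rcases lt_or_gt_of_ne hab with h | h
    · exact ⟨a, b, h, rfl⟩
    · exact ⟨b, a, h, Sym2.eq_swap⟩
  choose lo hh hlt heq using hex
  have huniq : ∀ (e : Pair) l m, l < m → e.1 = s(l, m) → lo e = l ∧ hh e = m := by
    intro e l m h1 h2
    have h3 := hlt e
    rw [heq e, Sym2.eq_iff] at h2
    omega
  refine ⟨fun e => (hh e + 1) ^ 2 + (if lo e = a0 then 0 else lo e + 1), ?_, ?_⟩
  · intro e e' h
    simp only at h
    have h1 := hlt e
    have h2 := hlt e'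
    have b1 : (if lo e = a0 then 0 else lo e + 1) ≤ hh e := by split_ifs <;> omega
    have b2 : (if lo e' = a0 then 0 else lo e' + 1) ≤ hh e' := by split_ifs <;> omega
    have hm : hh e = hh e' := by
      have key : ∀ m m' t t' : ℕ, t ≤ m → (m + 1) ^ 2 + t = (m' + 1) ^ 2 + t' → ¬ m < m' := by
        intro m m' t t' ht he hl
        have h3 : (m + 2) ^ 2 ≤ (m' + 1) ^ 2 := Nat.pow_le_pow_left (by omega) 2
        nlinarith
      have k1 := key _ _ _ _ b1 h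
      have k2 := key _ _ _ _ b2 h.symm
      omega
    have hlo : lo e = lo e' := by
      rw [hm] at h
      have h3 := Nat.add_left_cancel h
      split_ifs at h3 <;> omega
    apply Subtype.ext
    rw [heq e, heq e', hm, hlo]
  · intro n a h0 h hn ha
    have e1 := huniq (pr a0 n h0) a0 n hn rfl
    show (hh (pr a0 n h0) + 1) ^ 2 + (if lo (pr a0 n h0) = a0 then 0 else lo (pr a0 n h0) + 1) <
      (hh (pr a n h) + 1) ^ 2 + (if lo (pr a n h) = a0 then 0 else lo (pr a n h) + 1)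
    rw [e1.1, e1.2, if_pos rfl]
    rcases lt_or_gt_of_ne h with h1 | h1
    · have e2 := huniq (pr a n h) a n h1 rfl
      rw [e2.1, e2.2, if_neg ha]; omega
    · have e2 := huniq (pr a n h) n a h1 Sym2.eq_swap
      rw [e2.1, e2.2]
      have : (n + 1) ^ 2 < (a + 1) ^ 2 := Nat.pow_lt_pow_left (by omega) (by norm_num)
      omega

/-- A run through `p` leaving exactly `w0` white. -/
structure URun (q : ℕ → Pair) (p : List Pair) (w0 : Pair) : Prop where
  inj : Function.Injective q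
  thru : ∃ n, p <:+ pos q n
  wh : whites q = {w0}

theorem URun.down {q : ℕ → Pair} {p p' : List Pair} {w0 : Pair} (U : URun q p' w0)
    (h : p <:+ p') : URun q p w0 := by
  obtain ⟨n, hn⟩ := U.thru
  exact ⟨U.inj, ⟨n, h.trans hn⟩, U.wh⟩

theorem URun.sub {q : ℕ → Pair} {p : List Pair} {w0 : Pair} (U : URun q p w0) :
    grn τ p ⊆ greens q (cc τ q) := by
  obtain ⟨n, hn⟩ := U.thru
  exact (grn_mono hn).trans (grn_sub_greens n)

theorem URun.back {q : ℕ → Pair} {p : List Pair} {w0 : Pair} (U : URun q p w0) {e : Pair}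
    (he : e ∈ p) (hg : e ∈ greens q (cc τ q)) : e ∈ grn τ p := by
  obtain ⟨n, hn⟩ := U.thru
  obtain ⟨m, hm⟩ := mem_greens_iff.1 hg
  exact grn_back (hn.trans (pos_suffix (le_max_left n m))) (pos_nodup U.inj _) he
    (grn_mono (pos_suffix (le_max_right n m)) hm)

theorem exists_urun {p : List Pair} (hp : p.Nodup) {w0 : Pair} (hw : w0 ∉ p) :
    ∃ q, URun q p w0 := by
  obtain ⟨q, h1, ⟨n, h2⟩, h3⟩ := run_single hp hw
  exact ⟨q, h1, ⟨n, by rw [h2]⟩, h3⟩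

theorem URun.white_not_green {q : ℕ → Pair} {p : List Pair} {w0 : Pair} (U : URun q p w0) :
    w0 ∉ greens q (cc τ q) := by
  rintro ⟨n, hn, _⟩
  have : w0 ∈ whites q := by rw [U.wh]; exact Set.mem_singleton _
  exact this n hn

def IsCode (τ : Hist → Pair → Bool) (c : ℕ) (T : Finset ℕ) (q : ℕ → Pair) (z : ℕ → Fin 5)
    (b : ℕ → Bool) : Prop :=
  ∃ h v, Function.Injective h ∧ Set.range h = (T : Set ℕ) ∧ Full (greens q (cc τ q)) c h v z b

theorem Base2.exists_code {p0 : List Pair} {c : ℕ} {T : Finset ℕ} {y : ℕ} (hP : Plaus τ)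
    (B : Base2 τ p0 c T y) {p : List Pair} (hp : p0 <:+ p) {q : ℕ → Pair}
    (U : URun q p (pr c y B.cy)) : ∃ z b, IsCode τ c T q z b := by
  obtain ⟨n, hn⟩ := U.thru
  obtain ⟨h, v, z, b, h1, h2, F⟩ := B.base.urun_full hP U.inj (hp.trans hn) B.cy U.wh
  exact ⟨z, b, h, v, h1, h2, F⟩

theorem Valid.congr {X : Gr} {a : ℕ} {h : Fin 12 → ℕ} {v v' : ℕ → ℕ} {k : ℕ}
    (hv : ∀ j ≤ k, v' j = v j) (V : Valid X a h v k) : Valid X a h v' k := by
  have h0 := hv 0 (by omega)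
  refine ⟨by rw [h0]; exact V.r1, by rw [h0]; exact V.r2, by rw [h0]; exact V.r3, fun j hj => ?_⟩
  obtain ⟨s1, s2, s3⟩ := V.step j hj
  rw [hv j (by omega), hv (j + 1) (by omega)]
  exact ⟨s1, ⟨s2.1, s2.2.1, fun i hi => by rw [hv i (by omega)]; exact s2.2.2 i hi⟩, s3⟩

theorem Base2.nover_run {p0 : List Pair} {c : ℕ} {T : Finset ℕ} {y : ℕ}
    (B : Base2 τ p0 c T y) {p : List Pair} (hp : p0 <:+ p) {q : ℕ → Pair} {w0 : Pair}
    (U : URun q p w0) {h : Fin 12 → ℕ} (hi : Function.Injective h)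
    (hr : Set.range h = (T : Set ℕ)) : ¬ Over (greens q (cc τ q)) c h := by
  obtain ⟨n, hn⟩ := U.thru
  exact B.base.run_nover U.inj (hp.trans hn) hi hr

/-- identification of the labelling of a run through a position with a known beginning -/
theorem Base2.ident {p0 : List Pair} {c : ℕ} {T : Finset ℕ} {y : ℕ}
    (B : Base2 τ p0 c T y) {p : List Pair} (hp : p0 <:+ p) {q : ℕ → Pair} {w0 : Pair}
    (U : URun q p w0) {h : Fin 12 → ℕ} (hi : Function.Injective h)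
    (hr : Set.range h = (T : Set ℕ)) {v : ℕ → ℕ} {k : ℕ} (hk : 24 ≤ k)
    (V : Valid (grn τ p) c h v k) {h' : Fin 12 → ℕ}
    (hr' : Set.range h' = (T : Set ℕ)) {v' : ℕ → ℕ} (V' : ∀ j, Valid (greens q (cc τ q)) c h' v' j) :
    h' = h ∧ ∀ j ≤ k, v' j = v j := by
  have hov := B.nover_run hp U hi hr
  have VG := V.mono U.sub
  have hrr : Set.range h' = Set.range h := by rw [hr', hr]
  exact ⟨ord_unique hov hrr (VG.le hk) (V' 24), val_unique hov hrr VG (V' k)⟩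

theorem finite_below (M : ℕ) : {e : Pair | ∀ x ∈ e.1, x < M}.Finite := by
  refine (restr_finite Set.univ M).subset (fun e he => ⟨trivial, he⟩)

theorem exists_bound_list (p : List Pair) : ∃ M, ∀ e ∈ p, ∀ x ∈ e.1, x < M := by
  induction p with
  | nil => exact ⟨0, by simp⟩
  | cons a p ih =>
    obtain ⟨M, hM⟩ := ih
    obtain ⟨x, y, hxy, rfl⟩ := exists_pr a
    refine ⟨M + x + y + 1, fun e he z hz => ?_⟩
    rcases List.mem_cons.1 he with rfl | he
    · simp only [pr, Sym2.mem_iff] at hz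
      omega
    · have := hM e he z hz
      omega

/-- Position in which everything below a bound has been asked. -/
structure Closed (τ : Hist → Pair → Bool) (c : ℕ) (T : Finset ℕ) (w0 : Pair) (p : List Pair)
    (h : Fin 12 → ℕ) (v : ℕ → ℕ) (k M : ℕ) : Prop where
  nd : p.Nodup
  nw : w0 ∉ p
  hi : Function.Injective h
  hr : Set.range h = (T : Set ℕ)
  hk : 25 ≤ k
  V : Valid (grn τ p) c h v k
  hv : ∀ j ≤ k, v j < M
  hh : ∀ i, h i < M
  d1 : ∀ e ∈ p, ∀ x ∈ e.1, x < M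
  stop : ∀ u < M, out c h v k u → ¬ adj (grn τ p) (v k) u
  d2 : ∀ e : Pair, (∀ x ∈ e.1, x < M) → e ≠ w0 → e ∈ p

theorem stageA {p0 : List Pair} {c : ℕ} {T : Finset ℕ} {y : ℕ} (hP : Plaus τ)
    (B : Base2 τ p0 c T y) {p : List Pair} (hp : p0 <:+ p) (hnd : p.Nodup)
    (hw : pr c y B.cy ∉ p) : ∃ p2 h v k M, p <:+ p2 ∧ Closed τ c T (pr c y B.cy) p2 h v k M := by
  set w0 := pr c y B.cy with hw0
  obtain ⟨q0, U0⟩ := exists_urun hnd hw
  obtain ⟨z0, b0, h, v0, hi, hr, F0⟩ := B.exists_code hP hp U0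
  obtain ⟨n0, hn0⟩ := U0.thru
  obtain ⟨Ma, hMa⟩ := exists_bound_fin h
  obtain ⟨Mb, hMb⟩ := exists_bound_seq v0 25
  have V25 : Valid (restr (greens q0 (cc τ q0)) (Ma + Mb)) c h v0 25 :=
    (F0.1 25).restr (fun i => by have := hMa i; omega) (fun j hj => by have := hMb j hj; omega)
  obtain ⟨N, hN, hsub⟩ := greens_restr (τ := τ) (q := q0) (Ma + Mb) n0
  have V1 : Valid (grn τ (pos q0 N)) c h v0 25 := V25.mono hsub
  have hpN : p <:+ pos q0 N := hn0.trans (pos_suffix hN)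
  have hwN : w0 ∉ pos q0 N := not_mem_pos_of_white U0.wh N
  obtain ⟨Mc, hMc⟩ := exists_bound_list (pos q0 N)
  set M := Ma + Mb + Mc with hM
  obtain ⟨p2, hp2, hnd2, hmem2⟩ := ext_finite (pos_nodup U0.inj N)
    (F := {e : Pair | (∀ x ∈ e.1, x < M) ∧ e ≠ w0})
    ((finite_below M).subset (fun e he => he.1))
  have hw2 : w0 ∉ p2 := by
    rw [hmem2]
    rintro (h1 | h1)
    · exact hwN h1
    · exact h1.2 rfl
  have d1 : ∀ e ∈ p2, ∀ x ∈ e.1, x < M := by
    intro e he x hx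
    rcases (hmem2 e).1 he with h1 | h1
    · have := hMc e h1 x hx; omega
    · exact h1.1 x hx
  have d2 : ∀ e : Pair, (∀ x ∈ e.1, x < M) → e ≠ w0 → e ∈ p2 :=
    fun e h1 h2 => (hmem2 e).2 (Or.inr ⟨h1, h2⟩)
  have hp02 : p0 <:+ p2 := hp.trans (hpN.trans hp2)
  obtain ⟨q2, U2⟩ := exists_urun hnd2 hw2
  obtain ⟨z2, b2, h2, v2, hi2, hr2, F2⟩ := B.exists_code hP hp02 U2
  have V1' : Valid (grn τ p2) c h v0 25 := V1.mono (grn_mono hp2)
  obtain ⟨e1, e2⟩ := B.ident hp02 U2 hi hr (by norm_num) V1' hr2 F2.1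
  rw [e1] at F2
  have hfin : ∃ j, M ≤ v2 j := by
    by_contra hcon
    push Not at hcon
    have hinj : Function.Injective v2 := by
      intro i j hij
      rcases lt_trichotomy i j with hl | hl | hl
      · exact absurd hij.symm ((F2.1 j).ne_of_lt j le_rfl i hl)
      · exact hl
      · exact absurd hij ((F2.1 i).ne_of_lt i le_rfl j hl)
    exact (Set.infinite_range_of_injective hinj) ((Set.finite_Iio M).subset (by
      rintro _ ⟨j, rfl⟩; exact hcon j))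
  classical
  set j0 := Nat.find hfin with hj0
  have hj0M : M ≤ v2 j0 := Nat.find_spec hfin
  have hmin : ∀ j < j0, v2 j < M := fun j hj => by
    have := Nat.find_min hfin hj
    omega
  have hj26 : 26 ≤ j0 := by
    by_contra hlt
    have h3 := e2 j0 (by omega)
    have h4 := hMb j0 (by omega)
    omega
  obtain ⟨k, hk⟩ : ∃ k, j0 = k + 1 := ⟨j0 - 1, by omega⟩
  have hvk : ∀ j ≤ k, v2 j < M := fun j hj => hmin j (by omega)
  have hhM : ∀ i, h i < M := fun i => by have := hMa i; omega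
  have hV2 : Valid (grn τ p2) c h v2 k := by
    refine ((F2.1 k).restr hhM hvk).mono ?_
    rintro e ⟨he, he2⟩
    refine U2.back (d2 e he2 ?_) he
    rintro rfl
    exact U2.white_not_green he
  refine ⟨p2, h, v2, k, M, hpN.trans hp2, hnd2, hw2, hi, hr, by omega, hV2, hvk, hhM, d1, ?_, d2⟩
  intro u hu hout hadj
  have hov := B.nover_run hp02 U2 hi hr
  obtain ⟨s1, s2, _⟩ := (F2.1 (k + 1)).step k (by omega)
  have := next_unique hov (F2.1 k) hout (adj_mono U2.sub hadj) s2 s1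
  rw [hk] at hj0M
  omega

theorem stageB {p0 : List Pair} {c : ℕ} {T : Finset ℕ} {y : ℕ} (hP : Plaus τ)
    (B : Base2 τ p0 c T y) {p2 : List Pair} (hp : p0 <:+ p2) {h : Fin 12 → ℕ} {v : ℕ → ℕ}
    {k M : ℕ} (C : Closed τ c T (pr c y B.cy) p2 h v k M) :
    ∃ p3 n, p2 <:+ p3 ∧ p3.Nodup ∧ pr c y B.cy ∉ p3 ∧ out c h v k n ∧
      adj (grn τ p3) (v k) n ∧ ∀ a (ha : a ≠ n), a ≠ v k → pr a n ha ∉ p3 := by
  set w0 := pr c y B.cy with hw0
  obtain ⟨κ, hκ, hκ2⟩ := kappa_exists (v k)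
  have hinf := compl_infinite (p := p2) (Set.finite_singleton w0)
  obtain ⟨q, hq, ⟨n0, hn0⟩, hran, hord⟩ := run_exists C.nd hinf (fun e he h1 => h1.1 he) hκ
  have hwh : whites q = {w0} := by
    ext e
    constructor
    · intro he
      by_contra hne
      have : ∃ n, q n = e := by
        rw [hran]
        by_cases h1 : e ∈ p2
        · exact Or.inl h1
        · exact Or.inr ⟨h1, hne⟩
      obtain ⟨n, hn⟩ := this
      exact he n hn
    · rintro rfl n hn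
      rcases (hran _).1 ⟨n, hn⟩ with h1 | h1
      · exact C.nw h1
      · exact h1.2 rfl
  have U : URun q p2 w0 := ⟨hq, ⟨n0, by rw [hn0]⟩, hwh⟩
  obtain ⟨z3, b3, h3, v3, hi3, hr3, F3⟩ := B.exists_code hP hp U
  have hk := C.hk
  obtain ⟨e1, e2⟩ := B.ident hp U C.hi C.hr (by omega) C.V hr3 F3.1
  subst e1
  have hov := B.nover_run hp U C.hi C.hr
  obtain ⟨s1, s2, _⟩ := (F3.1 (k + 1)).step k (by omega)
  set n := v3 (k + 1) with hn
  rw [e2 k le_rfl] at s1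
  have s2' : out c h3 v k n := out_of_range rfl (fun j hj => e2 j hj) s2
  have hkc : v k ≠ c := C.V.ne_apex k le_rfl
  have hne : v k ≠ n := (s2'.2.2 k le_rfl).symm
  have hew : pr (v k) n hne ≠ w0 := by
    intro h1
    rw [hw0, pr_eq_iff] at h1
    rcases h1 with h1 | h1
    · exact hkc h1.1
    · exact s2'.1 h1.2
  have hMn : M ≤ n := by
    by_contra hlt
    push Not at hlt
    have hin : pr (v k) n hne ∈ p2 := by
      refine C.d2 _ (fun x hx => ?_) hew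
      simp only [pr, Sym2.mem_iff] at hx
      rcases hx with rfl | rfl
      · exact C.hv k le_rfl
      · exact hlt
    have hg := U.back hin ((adj_iff_pr hne).1 s1)
    exact C.stop n hlt s2' ((adj_iff_pr hne).2 hg)
  have hvkM := C.hv k le_rfl
  have hnotin : pr (v k) n hne ∉ p2 := by
    intro h1
    have := C.d1 _ h1 n (by simp [pr])
    omega
  obtain ⟨m, hm1, hm2, hm3⟩ := hord (pr (v k) n hne) ⟨hnotin, hew⟩
  have hsuf : p2 <:+ pos q (m + 1) := hm2.trans (List.suffix_cons _ _)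
  have U3 : URun q (pos q (m + 1)) w0 := ⟨hq, ⟨m + 1, List.suffix_rfl⟩, hwh⟩
  refine ⟨pos q (m + 1), n, hsuf, pos_nodup hq _, not_mem_pos_of_white hwh _, s2', ?_, ?_⟩
  · rw [adj_iff_pr hne]
    refine U3.back ?_ ((adj_iff_pr hne).1 s1)
    rw [← hm1]
    exact mem_pos.2 ⟨m, by omega, rfl⟩
  · intro a ha hak hin
    rw [pos, List.mem_cons, hm1] at hin
    rcases hin with hin | hin
    · rw [pr_eq_iff] at hin
      rcases hin with h1 | h1
      · exact hak h1.1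
      · exact ha h1.1
    · rcases hm3 _ hin with h1 | h1
      · have := C.d1 _ h1 n (by simp [pr])
        omega
      · have := hκ2 n a hne ha (by omega) hak
        omega

theorem code_at {p0 : List Pair} {c : ℕ} {T : Finset ℕ} {y : ℕ}
    (B : Base2 τ p0 c T y) {p : List Pair} (hp : p0 <:+ p)
    {h : Fin 12 → ℕ} (hi' : Function.Injective h) (hr : Set.range h = (T : Set ℕ))
    {v : ℕ → ℕ} {k n : ℕ} (hk : 25 ≤ k) (V : Valid (grn τ p) c h v k)
    (hn : out c h v k n) (hg : adj (grn τ p) (v k) n) {q : ℕ → Pair} {w0 : Pair}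
    (U : URun q p w0) {z : ℕ → Fin 5} {b : ℕ → Bool} (hz : IsCode τ c T q z b) :
    mt (k + 1) (z (k + 1 - 26)) (b ((k + 1 - 26) / 2)) (hub (greens q (cc τ q)) h n) ∧
      ¬ hi (k + 1) (hub (greens q (cc τ q)) h n) := by
  obtain ⟨h', v', hi2, hr', F⟩ := hz
  obtain ⟨e1, e2⟩ := B.ident hp U hi' hr (by omega) V hr' F.1
  subst e1
  have hov := B.nover_run hp U hi' hr
  obtain ⟨s1, s2, _⟩ := (F.1 (k + 1)).step k (by omega)
  have s2' : out c h' v k (v' (k + 1)) := out_of_range rfl (fun j hj => e2 j hj) s2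
  rw [e2 k le_rfl] at s1
  have e3 : n = v' (k + 1) := next_unique hov (V.mono U.sub) hn (adj_mono U.sub hg) s2' s1
  have h1 := F.2 (k + 1 - 26)
  rw [show 26 + (k + 1 - 26) = k + 1 by omega, ← e3] at h1
  have h2 := not_hi hov (F.1 (k + 1))
  rw [← e3] at h2
  exact ⟨h1, h2⟩

theorem stageC {p0 : List Pair} {c : ℕ} {T : Finset ℕ} {y : ℕ} (hP : Plaus τ)
    (B : Base2 τ p0 c T y) {p3 : List Pair} (hp : p0 <:+ p3) (hnd : p3.Nodup)
    (hw : pr c y B.cy ∉ p3) {h : Fin 12 → ℕ} (hi' : Function.Injective h)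
    (hr : Set.range h = (T : Set ℕ)) {v : ℕ → ℕ} {k n : ℕ} (hk : 25 ≤ k)
    (V : Valid (grn τ p3) c h v k) (hn : out c h v k n) (hg : adj (grn τ p3) (v k) n)
    (hfr : ∀ a (ha : a ≠ n), a ≠ v k → pr a n ha ∉ p3) :
    ∃ P1 P2 : List Pair, p3 <:+ P1 ∧ p3 <:+ P2 ∧ P1.Nodup ∧ P2.Nodup ∧
      pr c y B.cy ∉ P1 ∧ pr c y B.cy ∉ P2 ∧
      ∀ q1 q2 z1 b1 z2 b2, URun q1 P1 (pr c y B.cy) → URun q2 P2 (pr c y B.cy) →
        IsCode τ c T q1 z1 b1 → IsCode τ c T q2 z2 b2 → z1 (k + 1 - 26) ≠ z2 (k + 1 - 26) := by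
  classical
  set w0 := pr c y B.cy with hw0
  set K := k + 1 with hK
  have hub_c := B.base.hub_ne hr
  set e : Fin 12 → Pair := fun i => pr n (h i) (hn.2.1 i) with he
  have heinj : Function.Injective e := by
    intro i j hij
    simp only [he, pr_eq_iff] at hij
    rcases hij with h1 | h1
    · exact hi' h1.2
    · exact absurd h1.1 (hn.2.1 j)
  have hep3 : ∀ i, e i ∉ p3 := by
    intro i
    simp only [he]
    rw [pr_comm]
    exact hfr _ _ (V.ne_hub k le_rfl i).symm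
  have hew : ∀ i, e i ≠ w0 := by
    intro i hi2
    simp only [he, hw0, pr_eq_iff] at hi2
    rcases hi2 with h1 | h1
    · exact hn.1 h1.1
    · exact hub_c i h1.2
  obtain ⟨p4, h34, hnd4, hm4⟩ := ext_finite hnd (F := e '' {i | ∀ j, i ≠ cl K j})
    (Set.toFinite _)
  have hw4 : w0 ∉ p4 := by
    rw [hm4]
    rintro (h1 | ⟨i, _, h1⟩)
    · exact hw h1
    · exact hew i h1
  obtain ⟨q4, U4⟩ := exists_urun hnd4 hw4
  obtain ⟨z4, b4, C4⟩ := B.exists_code hP (hp.trans h34) U4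
  obtain ⟨m4, l4⟩ := code_at B hp hi' hr hk V hn hg (U4.down h34) C4
  set ζ := z4 (K - 26) with hζ
  obtain ⟨n4, hn4⟩ := U4.thru
  obtain ⟨N, hN, hsub⟩ := greens_finite (τ := τ) (q := q4)
    (F := {e (cl K ζ), e (cl K (ζ + 1))}) (Set.toFinite _) (by
      rintro x (rfl | rfl)
      · exact (adj_iff_pr _).1 m4.1
      · exact (adj_iff_pr _).1 m4.2.1) n4
  obtain ⟨P2, h42, hnd2, hm2⟩ := ext_finite hnd4 (F := e '' {i | ∃ j, j ≠ ζ + 3 ∧ i = cl K j})
    (Set.toFinite _)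
  have hw2 : w0 ∉ P2 := by
    rw [hm2]
    rintro (h1 | ⟨i, _, h1⟩)
    · exact hw4 h1
    · exact hew i h1
  refine ⟨pos q4 N, P2, h34.trans (hn4.trans (pos_suffix hN)), h34.trans h42, pos_nodup U4.inj N,
    hnd2, not_mem_pos_of_white U4.wh N, hw2, ?_⟩
  intro q1 q2 z1 b1 z2 b2 U1 U2 C1 C2 heq
  -- the code at the first position
  have e1 : ζ = z1 (K - 26) := by
    obtain ⟨m1, l1⟩ := code_at B hp hi' hr hk V hn hg
      (U1.down (h34.trans (hn4.trans (pos_suffix hN)))) C1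
    refine (mt_unique (by omega) l1 (b := b1 ((K - 26) / 2)) ⟨?_, ?_, m1.2.2⟩ m1).1
    · exact (adj_iff_pr _).2 (U1.sub (hsub (Or.inl rfl)))
    · exact (adj_iff_pr _).2 (U1.sub (hsub (Or.inr rfl)))
  obtain ⟨m2, l2⟩ := code_at B hp hi' hr hk V hn hg (U2.down (h34.trans h42)) C2
  rw [← heq, ← e1] at m2
  have inP2 : ∀ i, i ≠ cl K (ζ + 3) → e i ∈ P2 := by
    intro i hi2
    rw [hm2, hm4]
    by_cases h1 : ∃ j, i = cl K j
    · obtain ⟨j, rfl⟩ := h1
      exact Or.inr ⟨_, ⟨j, fun h2 => hi2 (by rw [h2]), rfl⟩, rfl⟩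
    · push Not at h1
      exact Or.inl (Or.inr ⟨i, h1, rfl⟩)
  have notinP2 : e (cl K (ζ + 3)) ∉ P2 := by
    rw [hm2, hm4]
    rintro ((h1 | ⟨i, h1, h2⟩) | ⟨i, ⟨j, h1, h2⟩, h3⟩)
    · exact hep3 _ h1
    · exact h1 _ (heinj h2)
    · rw [h2] at h3
      exact h1 (cl_inj (heinj h3))
  have five1 : ∀ ζ : Fin 5, ζ ≠ ζ + 3 ∧ ζ + 1 ≠ ζ + 3 ∧ ζ + 2 ≠ ζ + 3 ∧ ζ + 4 ≠ ζ + 3 ∧
    ζ + 1 + 1 = ζ + 2 ∧ ζ + 4 + 1 = ζ ∧ ζ + 4 + 2 = ζ + 1 := by decide
  obtain ⟨f0, f1, f2, f4, g1, g2, g3⟩ := five1 ζ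
  have back : ∀ i, i ≠ cl K (ζ + 3) → i ∈ hub (greens q2 (cc τ q2)) h n → i ∈ hub (grn τ P2) h n := by
    intro i hi2 hi3
    exact (adj_iff_pr _).2 (U2.back (inP2 i hi2) ((adj_iff_pr _).1 hi3))
  have c0 : cl K ζ ≠ cl K (ζ + 3) := fun h1 => f0 (cl_inj h1)
  have c1 : cl K (ζ + 1) ≠ cl K (ζ + 3) := fun h1 => f1 (cl_inj h1)
  have c2 : cl K (ζ + 2) ≠ cl K (ζ + 3) := fun h1 => f2 (cl_inj h1)
  have c4 : cl K (ζ + 4) ≠ cl K (ζ + 3) := fun h1 => f4 (cl_inj h1)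
  have r2 : e (cl K (ζ + 2)) ∈ red τ P2 := by
    rcases mem_or (τ := τ) (inP2 _ c2) with h1 | h1
    · exfalso
      refine l2 (Or.inr ⟨by omega, Or.inr (Or.inl ⟨ζ, m2.1, m2.2.1, ?_⟩)⟩)
      exact (adj_iff_pr _).2 (U2.sub h1)
    · exact h1
  have r4 : e (cl K (ζ + 4)) ∈ red τ P2 := by
    rcases mem_or (τ := τ) (inP2 _ c4) with h1 | h1
    · exfalso
      refine l2 (Or.inr ⟨by omega, Or.inr (Or.inl ⟨ζ + 4, ?_, ?_, ?_⟩)⟩)
      · exact (adj_iff_pr _).2 (U2.sub h1)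
      · rw [g2]; exact m2.1
      · rw [g3]; exact m2.2.1
    · exact h1
  have hK10 : ∀ i : Fin 12, 10 ≤ (i : ℕ) → i ≠ cl K (ζ + 3) := by
    intro i hi2 hi3
    have hcl : ((cl K (ζ + 3) : Fin 12) : ℕ) = 5 * (K % 2) + (ζ + 3 : Fin 5) := rfl
    have h5 := (ζ + 3).2
    have := congrArg Fin.val hi3
    omega
  set v' : ℕ → ℕ := fun j => if j ≤ k then v j else n with hv'
  have hv1 : ∀ j ≤ k, v' j = v j := fun j hj => by simp only [hv', if_pos hj]
  have hv2 : v' K = n := by simp only [hv', hK]; rw [if_neg (by omega)]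
  have V0 : Valid (grn τ P2) c h v' k := (V.congr hv1).mono (grn_mono (h34.trans h42))
  have V' : Valid (grn τ P2) c h v' K := by
    refine ⟨V0.r1, V0.r2, V0.r3, fun j hj => ?_⟩
    rcases Nat.lt_or_ge j k with h1 | h1
    · exact V0.step j h1
    · obtain rfl : j = k := by omega
      rw [← hK, hv2, hv1 j le_rfl]
      refine ⟨adj_mono (grn_mono (h34.trans h42)) hg, ⟨hn.1, hn.2.1, fun i hi2 => ?_⟩, ?_⟩
      · rw [hv1 i hi2]; exact hn.2.2 i hi2
      · refine ⟨fun h2 => by omega, fun _ => ⟨⟨ζ, back _ c0 m2.1, back _ c1 m2.2.1⟩, fun h2 => ?_⟩⟩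
        have m3 := m2.2.2 h2
        cases hb : b2 ((K - 26) / 2)
        · exact Or.inr (back _ (hK10 _ (by decide)) (m3.2 hb))
        · exact Or.inl (back _ (hK10 _ (by decide)) (m3.1 hb))
  refine dead_pair hP B (hp.trans (h34.trans h42)) hnd2 hi' hr (K := K) (by omega) V' (ζ := ζ)
    ?_ ?_ (e := e (cl K (ζ + 3))) ?_ notinP2
  · rw [hv2]; exact ⟨_, r2, rfl⟩
  · rw [hv2]; exact ⟨_, r4, rfl⟩
  · rw [hv2]; rfl

theorem split {p0 : List Pair} {c : ℕ} {T : Finset ℕ} {y : ℕ} (hP : Plaus τ)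
    (B : Base2 τ p0 c T y) {p : List Pair} (hp : p0 <:+ p) (hnd : p.Nodup)
    (hw : pr c y B.cy ∉ p) :
    ∃ (P : Bool → List Pair) (i : ℕ), (∀ x, p <:+ P x ∧ (P x).Nodup ∧ pr c y B.cy ∉ P x) ∧
      ∀ q1 q2 z1 b1 z2 b2, URun q1 (P true) (pr c y B.cy) → URun q2 (P false) (pr c y B.cy) →
        IsCode τ c T q1 z1 b1 → IsCode τ c T q2 z2 b2 → z1 i ≠ z2 i := by
  obtain ⟨p2, h, v, k, M, h2, C⟩ := stageA hP B hp hnd hw
  obtain ⟨p3, n, h3, hnd3, hw3, hout, hadj, hfr⟩ := stageB hP B (hp.trans h2) C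
  obtain ⟨P1, P2, k1, k2, k3, k4, k5, k6, k7⟩ := stageC hP B ((hp.trans h2).trans h3) hnd3 hw3
    C.hi C.hr C.hk (C.V.mono (grn_mono h3)) hout hadj hfr
  refine ⟨fun x => if x then P1 else P2, k + 1 - 26, ?_, ?_⟩
  · intro x
    cases x
    · exact ⟨(h2.trans h3).trans k2, k4, k6⟩
    · exact ⟨(h2.trans h3).trans k1, k3, k5⟩
  · exact k7

end Pool.Agent.Lib.MP_3d6d95_lc
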