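import Pool.Agent.Lib.MP_3d6d95_lc.Split

/-!
A tree of runs against a strategy of Hider, with pairwise different codes.
-/

namespace Pool.Agent.Lib.MP_3d6d95_lc

variable {τ : Hist → Pair → Bool}

theorem pos_of_get {q : ℕ → Pair} : ∀ l : List Pair,
    (∀ m < l.length, l.reverse[m]? = some (q m)) → pos q l.length = l := by
  intro l
  induction l with
  | nil => intro _; rfl
  | cons a l ih =>
    intro h
    have h1 := h l.length (by simp)
    rw [List.reverse_cons, List.getElem?_append_right (by simp)] at h1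
    simp only [List.length_reverse, Nat.sub_self, List.getElem?_cons_zero, Option.some.injEq] at h1
    rw [List.length_cons, pos, ih, h1]
    intro m hm
    have h2 := h m (by simp; omega)
    rw [List.reverse_cons, List.getElem?_append_left (by simpa using hm)] at h2
    exact h2

theorem suffix_chain {L : ℕ → List Pair} (h : ∀ n, L n <:+ L (n + 1)) {m n : ℕ} (hmn : m ≤ n) :
    L m <:+ L n := by
  induction n with
  | zero => rw [Nat.le_zero.1 hmn]
  | succ n ih =>
    rcases Nat.lt_or_ge m (n + 1) with h1 | h1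
    · exact (ih (by omega)).trans (h n)
    · rw [show m = n + 1 by omega]

theorem limit_run {L : ℕ → List Pair} (h : ∀ n, L n <:+ L (n + 1))
    (hlen : ∀ m, ∃ n, m < (L n).length) : ∃ q : ℕ → Pair, ∀ n, pos q (L n).length = L n := by
  choose N hN using hlen
  have hlt : ∀ m, m < (L (N m)).reverse.length := fun m => by
    rw [List.length_reverse]; exact hN m
  refine ⟨fun m => (L (N m)).reverse[m]'(hlt m), fun n => ?_⟩
  apply pos_of_get
  intro m hm
  rcases le_total n (N m) with h1 | h1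
  · have hp : (L n).reverse <+: (L (N m)).reverse := List.reverse_prefix.2 (suffix_chain h h1)
    have := hp.getElem (i := m) (by simpa using hm)
    rw [List.getElem?_eq_getElem (by simpa using hm), this]
  · have hp : (L (N m)).reverse <+: (L n).reverse := List.reverse_prefix.2 (suffix_chain h h1)
    have := hp.getElem (i := m) (hlt m)
    rw [this, List.getElem?_eq_getElem (by simpa using hm)]

theorem limit_urun {L : ℕ → List Pair} {w0 : Pair} (h : ∀ n, L n <:+ L (n + 1))
    (hnd : ∀ n, (L n).Nodup) (hw : ∀ n, w0 ∉ L n) (hcov : ∀ e, e ≠ w0 → ∃ n, e ∈ L n) :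
    ∃ q : ℕ → Pair, ∀ n, URun q (L n) w0 := by
  classical
  have hlen : ∀ m, ∃ n, m < (L n).length := by
    intro m
    have hinf : {e : Pair | e ≠ w0}.Infinite := by
      have := compl_infinite (p := []) (Set.finite_singleton w0)
      refine this.mono (fun e he => ?_)
      exact he.2
    obtain ⟨F, hF1, hF2⟩ := hinf.exists_subset_card_eq (m + 1)
    have : ∀ F : Finset Pair, (∀ e ∈ F, e ≠ w0) → ∃ n, ∀ e ∈ F, e ∈ L n := by
      intro F
      induction F using Finset.induction_on with
      | empty => exact fun _ => ⟨0, by simp⟩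
      | insert a s _ ih =>
        intro h2
        obtain ⟨n, hn⟩ := ih (fun e he => h2 e (Finset.mem_insert_of_mem he))
        obtain ⟨k, hk⟩ := hcov a (h2 a (Finset.mem_insert_self _ _))
        refine ⟨max n k, fun e he => ?_⟩
        rcases Finset.mem_insert.1 he with rfl | he
        · exact (suffix_chain h (le_max_right _ _)).subset hk
        · exact (suffix_chain h (le_max_left _ _)).subset (hn e he)
    obtain ⟨n, hn⟩ := this F (fun e he => hF1 he)
    refine ⟨n, ?_⟩
    have h3 : F ⊆ (L n).toFinset := fun e he => List.mem_toFinset.2 (hn e he)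
    have h4 := Finset.card_le_card h3
    have h5 := List.toFinset_card_le (L n)
    omega
  obtain ⟨q, hq⟩ := limit_run h hlen
  have hinj : Function.Injective q := by
    refine inj_of_pos (fun n => ?_)
    obtain ⟨k, hk⟩ := hlen n
    have h1 : pos q n <:+ L k := by
      rw [← hq k]; exact pos_suffix hk.le
    exact h1.sublist.nodup (hnd k)
  refine ⟨q, fun n => ⟨hinj, ⟨(L n).length, by rw [hq]⟩, ?_⟩⟩
  ext e
  constructor
  · intro he
    by_contra hne
    obtain ⟨k, hk⟩ := hcov e hne
    rw [← hq k] at hk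
    obtain ⟨m, _, hm⟩ := mem_pos.1 hk
    exact he m hm
  · rintro rfl m hm
    obtain ⟨k, hk⟩ := hlen m
    apply hw k
    rw [← hq k]
    exact mem_pos.2 ⟨m, hk, hm⟩

theorem exists_tree {p0 : List Pair} {c : ℕ} {T : Finset ℕ} {y : ℕ} (hP : Plaus τ)
    (B : Base2 τ p0 c T y) : ∃ Q : (ℕ → Bool) → (ℕ → Pair),
      (∀ x, URun (Q x) p0 (pr c y B.cy)) ∧
      ∀ x x', x ≠ x' → ∀ z b z' b', IsCode τ c T (Q x) z b → IsCode τ c T (Q x') z' b' →
        z ≠ z' := by
  classical
  set w0 := pr c y B.cy with hw0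
  have : Nonempty Pair := ⟨w0⟩
  obtain ⟨en, hen⟩ := exists_surjective_nat Pair
  let S : Type := {p : List Pair // p0 <:+ p ∧ p.Nodup ∧ w0 ∉ p}
  have hask : ∀ (p : S) (e : Pair), ∃ p' : S, p.1 <:+ p'.1 ∧ (e ≠ w0 → e ∈ p'.1) := by
    intro p e
    by_cases h : e ∉ p.1 ∧ e ≠ w0
    · exact ⟨⟨e :: p.1, p.2.1.trans (List.suffix_cons _ _), List.nodup_cons.2 ⟨h.1, p.2.2.1⟩,
        fun h1 => by
          rcases List.mem_cons.1 h1 with h1 | h1
          · exact h.2 h1.symm
          · exact p.2.2.2 h1⟩, List.suffix_cons _ _, fun _ => List.mem_cons_self⟩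
    · refine ⟨p, List.suffix_rfl, fun h1 => ?_⟩
      by_contra h2
      exact h ⟨h2, h1⟩
  have hsplit : ∀ (p : S) (e : Pair), ∃ (P : Bool → S) (i : ℕ),
      (∀ x, p.1 <:+ (P x).1 ∧ (e ≠ w0 → e ∈ (P x).1)) ∧
      ∀ q1 q2 z1 b1 z2 b2, URun q1 (P true).1 w0 → URun q2 (P false).1 w0 →
        IsCode τ c T q1 z1 b1 → IsCode τ c T q2 z2 b2 → z1 i ≠ z2 i := by
    intro p e
    obtain ⟨p', h1, h2⟩ := hask p e
    obtain ⟨P, i, h3, h4⟩ := split hP B p'.2.1 p'.2.2.1 p'.2.2.2
    refine ⟨fun x => ⟨P x, p'.2.1.trans (h3 x).1, (h3 x).2.1, (h3 x).2.2⟩, i, fun x => ?_, h4⟩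
    exact ⟨h1.trans (h3 x).1, fun h5 => (h3 x).1.subset (h2 h5)⟩
  choose P ii hP1 hP2 using hsplit
  let s : (ℕ → Bool) → ℕ → S := fun x n => Nat.rec ⟨p0, List.suffix_rfl, B.base.nd, B.w0⟩
    (fun m p => P p (en m) (x m)) n
  have hs : ∀ x n, s x (n + 1) = P (s x n) (en n) (x n) := fun x n => rfl
  have hrun : ∀ x, ∃ q : ℕ → Pair, ∀ n, URun q (s x n).1 w0 := by
    intro x
    refine limit_urun (fun n => ?_) (fun n => (s x n).2.2.1) (fun n => (s x n).2.2.2)
      (fun e he => ?_)
    · rw [hs]; exact (hP1 _ _ _).1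
    · obtain ⟨m, rfl⟩ := hen e
      exact ⟨m + 1, by rw [hs]; exact (hP1 _ _ _).2 he⟩
  choose Q hQ using hrun
  refine ⟨Q, fun x => hQ x 0, ?_⟩
  intro x x' hne z b z' b' C C' heq
  have hex : ∃ n, x n ≠ x' n := by
    by_contra h
    push Not at h
    exact hne (funext h)
  set n := Nat.find hex with hn
  have hn1 : x n ≠ x' n := Nat.find_spec hex
  have hn2 : ∀ m < n, x m = x' m := fun m hm => by
    have := Nat.find_min hex hm
    push Not at this
    exact this
  have hsame : ∀ m ≤ n, s x m = s x' m := by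
    intro m
    induction m with
    | zero => intro _; rfl
    | succ m ih =>
      intro hm
      rw [hs, hs, ih (by omega), hn2 m (by omega)]
  have U := hQ x (n + 1)
  have U' := hQ x' (n + 1)
  rw [hs] at U U'
  rw [← hsame n le_rfl] at U'
  cases hx : x n
  · cases hx' : x' n
    · exact hn1 (by rw [hx, hx'])
    · rw [hx] at U
      rw [hx'] at U'
      exact hP2 _ _ _ _ _ _ _ _ U' U C' C (by rw [heq])
  · cases hx' : x' n
    · rw [hx] at U
      rw [hx'] at U'
      exact hP2 _ _ _ _ _ _ _ _ U U' C C' (by rw [heq])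
    · exact hn1 (by rw [hx, hx'])

/-- If the code of a run is not in `A`, Seeker wins the run. -/
theorem Base2.beats {p0 : List Pair} {c : ℕ} {T : Finset ℕ} {y : ℕ}
    (B : Base2 τ p0 c T y) {q : ℕ → Pair} (U : URun q p0 (pr c y B.cy)) {z : ℕ → Fin 5}
    {b : ℕ → Bool} (C : IsCode τ c T q z b) {A : Set Code} (hA : (z, b) ∉ A) :
    ¬ HiderStrategyWins (SS A) τ := by
  intro hwin
  obtain ⟨n, hn⟩ := U.thru
  obtain ⟨h, v, hi, hr, F⟩ := C
  refine hwin q (cc τ q) U.inj (cc_eq q) (seekerWins_of (SS_isMonotone A)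
    (by rw [U.wh]; exact Set.singleton_nonempty _) (fun _ hin => ?_))
  have haway : ∀ u w, u ≠ c → w ≠ c → adj (greens q (cc τ q) ∪ whites q) u w →
      adj (greens q (cc τ q)) u w := by
    intro u w hu hw' h
    rw [U.wh] at h
    rcases adj_union_single (a := c) (b := y) rfl h with h | h | h
    · exact h
    · exact absurd h.1 hu
    · exact absurd h.2 hw'
  rcases hin c with H | ⟨h', h1, h2, h3, h4⟩
  · rw [U.wh] at H
    exact B.base.run_nkill U.inj hn (nn_union_single (b := y) rfl H)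
  · have hr' := B.base.range_eq U.inj hn h1 h3
    rcases h4 with ⟨i, hi2⟩ | h4 | ⟨v', z', b', h5, h6⟩
    · have : h' i ∈ (T : Set ℕ) := by rw [← hr']; exact ⟨i, rfl⟩
      exact B.base.run_T U.inj hn this hi2
    · exact B.base.run_nover U.inj hn h1 hr' (over_away haway h2 h4)
    · have F' := full_away haway h2 h6
      have hov := B.base.run_nover U.inj hn hi hr
      have e1 : h' = h := ord_unique hov (by rw [hr', hr]) (F.1 24) (F'.1 24)
      subst e1
      obtain ⟨e2, e3⟩ := code_unique hov F F'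
      apply hA
      rw [e2, e3]
      exact h5

/-- The Hider side. -/
theorem hider_side (τ : Hist → Pair → Bool) : ∃ f : (ℕ → Bool) → Code,
    Function.Injective f ∧ ∀ x, ∀ A : Set Code, f x ∉ A → ¬ HiderStrategyWins (SS A) τ := by
  by_cases hP : Plaus τ
  · obtain ⟨p0, c, T, B0⟩ := exists_base hP
    obtain ⟨p1, y, B⟩ := exists_base2 hP B0
    obtain ⟨Q, hQ1, hQ2⟩ := exists_tree hP B
    have hex : ∀ x, ∃ zb : Code, IsCode τ c T (Q x) zb.1 zb.2 := by
      intro x
      obtain ⟨z, b, C⟩ := B.exists_code hP List.suffix_rfl (hQ1 x)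
      exact ⟨(z, b), C⟩
    choose f hf using hex
    refine ⟨f, fun x x' he => ?_, fun x A hA => B.beats (hQ1 x) (hf x) hA⟩
    by_contra hne
    exact hQ2 x x' hne _ _ _ _ (hf x) (hf x') (by rw [he])
  · exact ⟨fun x => (fun _ => 0, x), fun x x' he => (Prod.mk.inj he).2,
      fun _ A _ => not_plaus hP A⟩

end Pool.Agent.Lib.MP_3d6d95_lc
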