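import Pool.Agent.Lib.MP_3d6d95_lc.Family

/-!
Uniqueness of labellings and compactness.
-/

namespace Pool.Agent.Lib.MP_3d6d95_lc

theorem out_of_range {a : ℕ} {h h' : Fin 12 → ℕ} {v v' : ℕ → ℕ} {k u : ℕ}
    (hr : Set.range h' = Set.range h) (hv : ∀ j ≤ k, v' j = v j) (H : out a h' v' k u) :
    out a h v k u := by
  refine ⟨H.1, fun i e => ?_, fun j hj e => H.2.2 j hj (by rw [hv j hj]; exact e)⟩
  have : h i ∈ Set.range h' := by rw [hr]; exact ⟨i, rfl⟩
  obtain ⟨i', hi'⟩ := this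
  exact H.2.1 i' (by rw [hi']; exact e)

theorem val_unique {X : Gr} {a : ℕ} {h h' : Fin 12 → ℕ} {v v' : ℕ → ℕ} {k : ℕ}
    (hover : ¬ Over X a h) (hr : Set.range h' = Set.range h)
    (V : Valid X a h v k) (V' : Valid X a h' v' k) : ∀ j ≤ k, v' j = v j := by
  have hsub : ∀ i, ∃ i', h' i' = h i := fun i => by
    have : h i ∈ Set.range h' := by rw [hr]; exact ⟨i, rfl⟩
    exact this
  intro j
  induction j using Nat.strong_induction_on with
  | _ j ih =>
    intro hj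
    by_contra hne
    rcases Nat.eq_zero_or_pos j with rfl | hpos
    · apply hover
      refine Or.inl ⟨v' 0, v 0, hne, V'.r1, V.r1, ?_, V.r2, ?_, V.r3⟩
      · intro i e
        obtain ⟨i', hi'⟩ := hsub i
        exact V'.r2 i' (by rw [hi']; exact e)
      · intro i
        obtain ⟨i', hi'⟩ := hsub i
        rw [← hi']; exact V'.r3 i'
    · obtain ⟨l, rfl⟩ : ∃ l, j = l + 1 := ⟨j - 1, by omega⟩
      have hl : ∀ i ≤ l, v' i = v i := fun i hi => ih i (by omega) (by omega)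
      obtain ⟨h1, h2, _⟩ := V.step l (by omega)
      obtain ⟨h1', h2', _⟩ := V'.step l (by omega)
      apply hover
      refine Or.inr ⟨v, l, V.le (by omega), Or.inr ⟨v' (l + 1), v (l + 1), hne,
        out_of_range hr hl h2', h2, ?_, h1⟩⟩
      rw [← hl l le_rfl]; exact h1'

theorem next_unique {X : Gr} {a : ℕ} {h : Fin 12 → ℕ} {v : ℕ → ℕ} {k u u' : ℕ}
    (hover : ¬ Over X a h) (V : Valid X a h v k) (h1 : out a h v k u) (h2 : adj X (v k) u)
    (h1' : out a h v k u') (h2' : adj X (v k) u') : u = u' := by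
  by_contra hne
  exact hover (Or.inr ⟨v, k, V, Or.inr ⟨u, u', hne, h1, h1', h2, h2'⟩⟩)

theorem not_hi_next {X : Gr} {a : ℕ} {h : Fin 12 → ℕ} {v : ℕ → ℕ} {k u : ℕ}
    (hover : ¬ Over X a h) (V : Valid X a h v k) (h1 : out a h v k u) (h2 : adj X (v k) u) :
    ¬ hi (k + 1) (hub X h u) :=
  fun hh => hover (Or.inr ⟨v, k, V, Or.inl ⟨u, h1, h2, hh⟩⟩)

theorem not_hi {X : Gr} {a : ℕ} {h : Fin 12 → ℕ} {v : ℕ → ℕ} {k : ℕ}
    (hover : ¬ Over X a h) (V : Valid X a h v (k + 1)) : ¬ hi (k + 1) (hub X h (v (k + 1))) :=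
  not_hi_next hover (V.le (by omega)) (V.step k (by omega)).2.1 (V.step k (by omega)).1

theorem ord_unique {X : Gr} {a : ℕ} {h h' : Fin 12 → ℕ} {v v' : ℕ → ℕ}
    (hover : ¬ Over X a h) (hr : Set.range h' = Set.range h)
    (V : Valid X a h v 24) (V' : Valid X a h' v' 24) : h' = h := by
  funext j
  have hj : (j : ℕ) < 12 := j.2
  have hv := val_unique hover hr V V'
  have e1 : v' (2 * j + 1 + 1) = v (2 * j + 1 + 1) := hv _ (by omega)
  have hneed : need (2 * j + 1 + 1) j := by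
    constructor <;> omega
  have o' := (V'.step (2 * j + 1) (by omega)).2.2.1 (by omega) j hneed
  have o := (V.step (2 * j + 1) (by omega)).2.2.1 (by omega)
  rw [e1] at o'
  have : h' j ∈ Set.range h := by rw [← hr]; exact ⟨j, rfl⟩
  obtain ⟨i, hi⟩ := this
  have hmem : i ∈ hub X h (v (2 * j + 1 + 1)) := by
    show adj X _ (h i)
    rw [hi]; exact o'
  have hn := not_hi hover (V.le (show 2 * (j : ℕ) + 1 + 1 ≤ 24 by omega))
  by_cases hni : need (2 * j + 1 + 1) i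
  · have : i = j := by
      apply Fin.ext
      have := hni.2
      omega
    rw [← hi, this]
  · exact absurd (Or.inl ⟨by omega, o, i, hmem, hni⟩) hn

theorem cl_inj {k : ℕ} {i j : Fin 5} (h : cl k i = cl k j) : i = j := by
  have := congrArg Fin.val h
  simp only [cl] at this
  apply Fin.ext; omega

theorem mt_unique {k : ℕ} (hk : 26 ≤ k) {ζ ζ' : Fin 5} {b b' : Bool} {A : Set (Fin 12)}
    (hA : ¬ hi k A) (H : mt k ζ b A) (H' : mt k ζ' b' A) :
    ζ = ζ' ∧ (k % 2 = 0 → b = b') := by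
  constructor
  · by_contra hne
    have key : ∀ z z' : Fin 5, z ≠ z' → ∃ i : Fin 5,
        (i = z ∨ i = z + 1 ∨ i = z' ∨ i = z' + 1) ∧
        (i + 1 = z ∨ i + 1 = z + 1 ∨ i + 1 = z' ∨ i + 1 = z' + 1) ∧
        (i + 2 = z ∨ i + 2 = z + 1 ∨ i + 2 = z' ∨ i + 2 = z' + 1) := by decide
    obtain ⟨i, h1, h2, h3⟩ := key ζ ζ' hne
    have hm : ∀ l : Fin 5, (l = ζ ∨ l = ζ + 1 ∨ l = ζ' ∨ l = ζ' + 1) → cl k l ∈ A := by
      rintro l (rfl | rfl | rfl | rfl)
      · exact H.1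
      · exact H.2.1
      · exact H'.1
      · exact H'.2.1
    exact hA (Or.inr ⟨hk, Or.inr (Or.inl ⟨i, hm _ h1, hm _ h2, hm _ h3⟩)⟩)
  · intro hk2
    by_contra hne
    apply hA
    refine Or.inr ⟨hk, Or.inr (Or.inr ⟨hk2, ?_⟩)⟩
    cases b <;> cases b'
    · exact absurd rfl hne
    · exact ⟨(H'.2.2 hk2).1 rfl, (H.2.2 hk2).2 rfl⟩
    · exact ⟨(H.2.2 hk2).1 rfl, (H'.2.2 hk2).2 rfl⟩
    · exact absurd rfl hne

theorem code_unique {X : Gr} {a : ℕ} {h : Fin 12 → ℕ} {v v' : ℕ → ℕ} {z z' : ℕ → Fin 5}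
    {b b' : ℕ → Bool} (hover : ¬ Over X a h) (H : Full X a h v z b) (H' : Full X a h v' z' b') :
    z = z' ∧ b = b' := by
  have hv : ∀ k, v' k = v k := fun k =>
    val_unique hover rfl (H.1 k) (H'.1 k) k le_rfl
  have hn : ∀ k, ¬ hi (26 + k) (hub X h (v (26 + k))) := fun k => by
    have := not_hi hover (H.1 (25 + k + 1))
    rwa [show 25 + k + 1 = 26 + k by ring] at this
  have hm : ∀ k, z k = z' k ∧ ((26 + k) % 2 = 0 → b (k / 2) = b' (k / 2)) := fun k => by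
    refine mt_unique (by omega) (hn k) (H.2 k) ?_
    rw [← hv]; exact H'.2 k
  refine ⟨funext fun k => (hm k).1, funext fun k => ?_⟩
  have := (hm (2 * k)).2 (by omega)
  rwa [show 2 * k / 2 = k by omega] at this

/-! Compactness -/

def restr (X : Gr) (M : ℕ) : Gr := {e | e ∈ X ∧ ∀ x ∈ e.1, x < M}

theorem restr_subset (X : Gr) (M : ℕ) : restr X M ⊆ X := fun _ h => h.1

theorem restr_mono (X : Gr) {M N : ℕ} (h : M ≤ N) : restr X M ⊆ restr X N :=
  fun _ he => ⟨he.1, fun x hx => lt_of_lt_of_le (he.2 x hx) h⟩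

theorem adj_restr {X : Gr} {M a b : ℕ} (h : adj X a b) (ha : a < M) (hb : b < M) :
    adj (restr X M) a b := by
  obtain ⟨e, he, h1⟩ := h
  refine ⟨e, ⟨he, fun x hx => ?_⟩, h1⟩
  rw [h1, Sym2.mem_iff] at hx
  rcases hx with rfl | rfl <;> assumption

theorem hub_restr {X : Gr} {M : ℕ} {h : Fin 12 → ℕ} {u : ℕ} (hh : ∀ i, h i < M) (hu : u < M) :
    hub X h u ⊆ hub (restr X M) h u := fun i hi => adj_restr hi hu (hh i)

theorem restr_finite (X : Gr) (M : ℕ) : (restr X M).Finite := by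
  have hfin : (Set.univ : Set (Fin M × Fin M)).Finite := Set.finite_univ
  have : Subtype.val '' (restr X M) ⊆
      (fun p : Fin M × Fin M => s((p.1 : ℕ), (p.2 : ℕ))) '' Set.univ := by
    rintro _ ⟨e, he, rfl⟩
    obtain ⟨x, y, hxy, rfl⟩ := exists_pr e
    have hx : x < M := he.2 x (by simp [pr])
    have hy : y < M := he.2 y (by simp [pr])
    exact ⟨(⟨x, hx⟩, ⟨y, hy⟩), trivial, rfl⟩
  exact Set.Finite.of_finite_image ((hfin.image _).subset this) Subtype.val_injective.injOn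

theorem exists_bound_fin (h : Fin 12 → ℕ) : ∃ M, ∀ i, h i < M :=
  ⟨Finset.univ.sup h + 1, fun i => Nat.lt_succ_of_le (Finset.le_sup (Finset.mem_univ i))⟩

theorem exists_bound_seq (v : ℕ → ℕ) (k : ℕ) : ∃ M, ∀ j ≤ k, v j < M :=
  ⟨(Finset.range (k + 1)).sup v + 1, fun j hj =>
    Nat.lt_succ_of_le (Finset.le_sup (Finset.mem_range.2 (Nat.lt_succ_of_le hj)))⟩

theorem Valid.restr {X : Gr} {a : ℕ} {h : Fin 12 → ℕ} {v : ℕ → ℕ} {k M : ℕ}
    (hh : ∀ i, h i < M) (hv : ∀ j ≤ k, v j < M) (H : Valid X a h v k) :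
    Valid (restr X M) a h v k := by
  refine ⟨H.r1, H.r2, fun i => adj_restr (H.r3 i) (hv 0 (by omega)) (hh i), fun j hj => ?_⟩
  obtain ⟨h1, h2, h3⟩ := H.step j hj
  exact ⟨adj_restr h1 (hv j (by omega)) (hv (j + 1) (by omega)), h2,
    ok_mono (hub_restr hh (hv (j + 1) (by omega))) h3⟩

theorem over_compact {X : Gr} {a : ℕ} {h : Fin 12 → ℕ} (H : Over X a h) :
    ∃ M, Over (restr X M) a h := by
  obtain ⟨M0, hM0⟩ := exists_bound_fin h
  rcases H with H | H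
  · obtain ⟨r, r', h1, h2, h3, h4, h5, h6, h7⟩ := H
    refine ⟨M0 + r + r' + 1, Or.inl ⟨r, r', h1, h2, h3, h4, h5, fun i => ?_, fun i => ?_⟩⟩
    · exact adj_restr (h6 i) (by omega) (by have := hM0 i; omega)
    · exact adj_restr (h7 i) (by omega) (by have := hM0 i; omega)
  · obtain ⟨v, k, hv, h1 | h1⟩ := H
    · obtain ⟨u, hu, h2, h3⟩ := h1
      obtain ⟨M1, hM1⟩ := exists_bound_seq v k
      have hh : ∀ i, h i < M0 + M1 + u + 1 := fun i => by have := hM0 i; omega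
      have hvv : ∀ j ≤ k, v j < M0 + M1 + u + 1 := fun j hj => by have := hM1 j hj; omega
      refine ⟨M0 + M1 + u + 1, Or.inr ⟨v, k, hv.restr hh hvv, Or.inl ⟨u, hu, ?_, ?_⟩⟩⟩
      · exact adj_restr h2 (hvv k le_rfl) (by omega)
      · exact hi_mono (hub_restr hh (by omega)) h3
    · obtain ⟨u, u', h2, h3, h4, h5, h6⟩ := h1
      obtain ⟨M1, hM1⟩ := exists_bound_seq v k
      have hh : ∀ i, h i < M0 + M1 + u + u' + 1 := fun i => by have := hM0 i; omega
      have hvv : ∀ j ≤ k, v j < M0 + M1 + u + u' + 1 := fun j hj => by have := hM1 j hj; omega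
      refine ⟨M0 + M1 + u + u' + 1, Or.inr ⟨v, k, hv.restr hh hvv,
        Or.inr ⟨u, u', h2, h3, h4, ?_, ?_⟩⟩⟩
      · exact adj_restr h5 (hvv k le_rfl) (by omega)
      · exact adj_restr h6 (hvv k le_rfl) (by omega)

theorem nn_compact {X : Gr} {a : ℕ} (H : NN X a) : ∃ M, NN (restr X M) a := by
  obtain ⟨x, y, z, h1, h2, h3, h4, h5, h6⟩ := H
  exact ⟨x + y + z + 1, x, y, z, h1, h2, h3, adj_restr h4 (by omega) (by omega),
    adj_restr h5 (by omega) (by omega), adj_restr h6 (by omega) (by omega)⟩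

end Pool.Agent.Lib.MP_3d6d95_lc
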